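import Pool.Agent.NH36.Cz.StmL

/-!
# Project CZ: Dirichlet series of counting functions, differences and shifts
-/

set_option autoImplicit false

open Pool.Agent.Q193.Zeta

namespace Pool.Agent.NH36.Cz

namespace A1

lemma coef_of_pp {f : ℕ → ℂ} {m : ℕ} (hm : IsPrimePow m) :
    coef f m = f m / (m.factorization m.minFac : ℂ) := by
  unfold coef
  rw [if_pos hm]

lemma coef_of_not {f : ℕ → ℂ} {m : ℕ} (hm : ¬ IsPrimePow m) : coef f m = 0 := by
  unfold coef
  rw [if_neg hm]

lemma norm_coef_le {f : ℕ → ℂ} {C k : ℕ} (h : ∀ m, IsPrimePow m → ‖f m‖ ≤ C * (m : ℝ) ^ k)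
    (m : ℕ) : ‖coef f m‖ ≤ C * (m : ℝ) ^ k := by
  by_cases hm : IsPrimePow m
  · rw [coef_of_pp hm, norm_div, Complex.norm_natCast]
    rcases Nat.eq_zero_or_pos (m.factorization m.minFac) with h0 | h0
    · rw [h0, Nat.cast_zero, div_zero]
      positivity
    · refine le_trans (div_le_self (norm_nonneg _) ?_) (h m hm)
      exact_mod_cast h0
  · rw [coef_of_not hm, norm_zero]
    positivity

lemma shift_eq (a : ℕ → ℂ) (r : ℤ) (s : ℂ) :
    LSeries (fun m => ((m : ℂ) ^ r) * a m) s = LSeries a (s - r) := by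
  unfold LSeries
  refine tsum_congr fun m => ?_
  rw [LSeries.term_def, LSeries.term_def]
  split_ifs with h
  · rfl
  · have hm : (m : ℂ) ≠ 0 := by exact_mod_cast h
    rw [Complex.cpow_sub _ _ hm, Complex.cpow_intCast]
    field_simp

end A1

/-- The Dirichlet series of a counting function with polynomial growth converges. -/
theorem coef_summable (f : ℕ → ℂ) (C k : ℕ) (h : ∀ m, IsPrimePow m → ‖f m‖ ≤ C * (m : ℝ) ^ k)
    (s : ℂ) (hs : (k : ℝ) + 1 < s.re) : LSeriesSummable (coef f) s := by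
  refine LSeriesSummable_of_le_const_mul_rpow hs ⟨C, fun m _ => ?_⟩
  rw [add_sub_cancel_right, Real.rpow_natCast]
  exact A1.norm_coef_le h m

/-- **A1.** Differences. -/
theorem t_A1 : St_A1 := by
  intro f g h hf hg hfg hF hG
  obtain ⟨C₁, k₁, h₁⟩ := hf
  obtain ⟨C₂, k₂, h₂⟩ := hg
  refine (hF.mul hG.inv).congr (τ := max ((k₁ : ℝ) + 1) ((k₂ : ℝ) + 1)) fun s hs => ?_
  have s₁ := coef_summable f C₁ k₁ h₁ s (lt_of_le_of_lt (le_max_left _ _) hs)
  have s₂ := coef_summable g C₂ k₂ h₂ s (lt_of_le_of_lt (le_max_right _ _) hs)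
  have e : coef h = coef f - coef g := by
    funext m
    rw [Pi.sub_apply]
    by_cases hm : IsPrimePow m
    · rw [A1.coef_of_pp hm, A1.coef_of_pp hm, A1.coef_of_pp hm, hfg m hm, sub_div]
    · rw [A1.coef_of_not hm, A1.coef_of_not hm, A1.coef_of_not hm, sub_zero]
  rw [e, LSeries_sub s₁ s₂, Complex.exp_sub, div_eq_mul_inv]

/-- **A2.** Shifts. -/
theorem t_A2 : St_A2 := by
  intro f g r hfg hF
  refine (HasCont.shift hF (-r)).congr (τ := 0) fun s _ => ?_
  have e : coef g = fun m : ℕ => ((m : ℂ) ^ r) * coef f m := by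
    funext m
    by_cases hm : IsPrimePow m
    · rw [A1.coef_of_pp hm, A1.coef_of_pp hm, hfg m hm, mul_div_assoc]
    · rw [A1.coef_of_not hm, A1.coef_of_not hm, mul_zero]
  rw [e, A1.shift_eq]
  congr 2
  push_cast
  ring

end Pool.Agent.NH36.Cz
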