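import Pool.Agent.NH36.Cz.StmL

/-!
# Project CZ, A3: descent, the analytic part
-/

set_option autoImplicit false

open Pool.Agent.Q193.Zeta

namespace Pool.Agent.NH36.Cz

namespace A3

lemma norm_coef_le {f : ℕ → ℂ} {C k : ℕ} (h : ∀ m, IsPrimePow m → ‖f m‖ ≤ C * (m : ℝ) ^ k) (m : ℕ) :
    ‖coef f m‖ ≤ (C : ℝ) * (m : ℝ) ^ (((k : ℝ) + 1) - 1) := by
  rw [add_sub_cancel_right, Real.rpow_natCast]
  unfold coef
  split_ifs with hm
  · rw [norm_div, Complex.norm_natCast]
    refine le_trans ?_ (h m hm)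
    rcases Nat.eq_zero_or_pos (m.factorization m.minFac) with h0 | h0
    · rw [h0, Nat.cast_zero, div_zero]
      exact norm_nonneg _
    · exact div_le_self (norm_nonneg _) (by exact_mod_cast h0)
  · rw [norm_zero]
    positivity

lemma summable {f : ℕ → ℂ} {C k : ℕ} (h : ∀ m, IsPrimePow m → ‖f m‖ ≤ C * (m : ℝ) ^ k) {s : ℂ}
    (hs : (k : ℝ) + 1 < s.re) : LSeriesSummable (coef f) s :=
  LSeriesSummable_of_le_const_mul_rpow hs ⟨C, fun m _ => norm_coef_le h m⟩

lemma analytic {f : ℕ → ℂ} {C k : ℕ} (h : ∀ m, IsPrimePow m → ‖f m‖ ≤ C * (m : ℝ) ^ k) {s : ℂ}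
    (hs : (k : ℝ) + 1 < s.re) : AnalyticAt ℂ (LSeries (coef f)) s := by
  refine LSeries_analyticOnNhd _ s ?_
  refine lt_of_le_of_lt (LSeries.abscissaOfAbsConv_le_of_forall_lt_LSeriesSummable
    (x := (k : ℝ) + 1) ?_) ?_
  · intro y hy
    exact summable h (by simpa using hy)
  · exact_mod_cast hs

/-- Multiplication of the coefficients by `m ^ r` shifts the terms. -/
lemma term_shift (a : ℕ → ℂ) (r : ℕ) (s : ℂ) (m : ℕ) :
    LSeries.term (fun m => ((m : ℂ) ^ r) * a m) s m = LSeries.term a (s - r) m := by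
  rw [LSeries.term_def, LSeries.term_def]
  split_ifs with h
  · rfl
  · have hm : (m : ℂ) ≠ 0 := by exact_mod_cast h
    rw [Complex.cpow_sub _ _ hm, Complex.cpow_natCast]
    field_simp

lemma lseries_shift (a : ℕ → ℂ) (r : ℕ) (s : ℂ) :
    LSeries (fun m => ((m : ℂ) ^ r) * a m) s = LSeries a (s - r) := by
  unfold LSeries
  exact tsum_congr fun m => term_shift a r s m

lemma summable_shift {a : ℕ → ℂ} {r : ℕ} {s : ℂ} (h : LSeriesSummable a (s - r)) :
    LSeriesSummable (fun m => ((m : ℂ) ^ r) * a m) s :=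
  Summable.congr h fun m => (term_shift a r s m).symm

lemma scale {Z : ℂ → ℂ} (h : HasCont Z) (c : ℝ) (hc : 0 < c) : HasCont (fun s => Z ((c : ℂ) * s)) := by
  obtain ⟨F, hF, σ, h⟩ := h
  refine ⟨fun s => F ((c : ℂ) * s), fun z _ => ?_, σ / c, fun s hs => ?_⟩
  · exact MeromorphicAt.comp_analyticAt (f := F) (g := fun s => (c : ℂ) * s) (x := z)
      (hF _ trivial) (by fun_prop)
  · refine h _ ?_
    rw [Complex.re_ofReal_mul]
    rwa [div_lt_iff₀' hc] at hs

lemma coef_g {f g : ℕ → ℂ} {r : ℕ} (hg : ∀ m, IsPrimePow m → g m = ((m : ℂ) ^ r - 1) * f m) :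
    coef g = (fun m : ℕ => ((m : ℂ) ^ r) * coef f m) - coef f := by
  funext m
  rw [Pi.sub_apply]
  unfold coef
  split_ifs with h
  · rw [hg m h]
    ring
  · ring

lemma relation {f g : ℕ → ℂ} {r C k : ℕ} (h : ∀ m, IsPrimePow m → ‖f m‖ ≤ C * (m : ℝ) ^ k)
    (hg : ∀ m, IsPrimePow m → g m = ((m : ℂ) ^ r - 1) * f m) {s : ℂ}
    (hs : (k : ℝ) + 1 + r < s.re) :
    Complex.exp (LSeries (coef f) (s - r)) =
      Complex.exp (LSeries (coef g) s) * Complex.exp (LSeries (coef f) s) := by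
  have hr : (0 : ℝ) ≤ r := Nat.cast_nonneg r
  have h1 : (k : ℝ) + 1 < (s - r).re := by
    rw [Complex.sub_re, Complex.natCast_re]
    linarith
  have h2 : (k : ℝ) + 1 < s.re := by linarith
  rw [← Complex.exp_add, coef_g hg, LSeries_sub (summable_shift (summable h h1)) (summable h h2),
    lseries_shift]
  congr 1
  ring

end A3

open A3 in
/-- **A3.** -/
theorem t_A3 : St_A3 := by
  intro f g r hr hf hg hG
  obtain ⟨C, k, h⟩ := hf
  have hr1 : (1 : ℝ) ≤ r := by exact_mod_cast hr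
  have hr0 : (0 : ℝ) < r := by linarith
  have hk : (0 : ℝ) ≤ k := Nat.cast_nonneg k
  have hre : ∀ s : ℂ, (((r : ℝ) : ℂ) * s).re = r * s.re := fun s => Complex.re_ofReal_mul _ _
  have hW := scale hG r hr0
  have hZ : HasCont (fun s => Complex.exp (LSeries (coef f) (((r : ℝ) : ℂ) * s))) := by
    refine HasCont.of_torus (τ := (k : ℝ) + 1 + r) hW ?_ ?_
    · intro s hs
      have h1 : (k : ℝ) + 1 < (((r : ℝ) : ℂ) * s).re := by
        rw [hre]
        nlinarith
      have h2 : AnalyticAt ℂ (fun s : ℂ => LSeries (coef f) (((r : ℝ) : ℂ) * s)) s :=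
        AnalyticAt.comp (f := fun s : ℂ => ((r : ℝ) : ℂ) * s) (g := LSeries (coef f))
          (analytic h h1) (by fun_prop)
      exact h2.cexp.meromorphicAt
    · intro s hs
      have h1 : (k : ℝ) + 1 + r < (((r : ℝ) : ℂ) * s).re := by
        rw [hre]
        nlinarith
      have h2 := relation h hg h1
      have h3 : ((r : ℝ) : ℂ) * (s - 1) = ((r : ℝ) : ℂ) * s - (r : ℂ) := by
        push_cast
        ring
      rw [h3]
      exact h2
  have h4 := scale hZ (1 / (r : ℝ)) (by positivity)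
  refine HasCont.congr h4 (τ := 0) fun s _ => ?_
  congr 2
  rw [← mul_assoc, ← Complex.ofReal_mul, mul_one_div_cancel hr0.ne', Complex.ofReal_one, one_mul]

end Pool.Agent.NH36.Cz
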