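import Pool.Agent.NH36.Cz.Stm

/-!
# Project CZ: A4 and A6, counting functions of schemes
-/

set_option autoImplicit false

open CategoryTheory AlgebraicGeometry MvPolynomial Pool.Agent.Y116.UV Pool.Agent.Q193.Zeta
  Pool.Agent.Q282.UZ

namespace Pool.Agent.NH36.Cz

namespace A4

theorem pp {m : ℕ} : IsPrimePow m ↔ ∃ p n : ℕ, p.Prime ∧ n ≠ 0 ∧ m = p ^ n := by
  rw [isPrimePow_nat_iff]
  constructor
  · rintro ⟨p, n, hp, hn, rfl⟩
    exact ⟨p, n, hp, hn.ne', rfl⟩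
  · rintro ⟨p, n, hp, hn, rfl⟩
    exact ⟨p, n, hp, Nat.pos_of_ne_zero hn, rfl⟩

theorem fac {p n : ℕ} (hp : p.Prime) (hn : n ≠ 0) : (p ^ n).factorization (p ^ n).minFac = n := by
  rw [hp.pow_minFac hn, hp.factorization_pow, Finsupp.single_eq_same]

theorem coef_eq {X : Sch ℤ} {f : ℕ → ℂ} {C k : ℕ} (hb : Bounded X.left C k) (hf : Counts X f) (m : ℕ) :
    coef f m = (cf (nm X.left) m : ℂ) := by
  unfold coef
  by_cases hm : IsPrimePow m
  · rw [if_pos hm]
    obtain ⟨p, n, hp, hn, rfl⟩ := pp.1 hm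
    obtain ⟨K, _, _, hK⟩ := exists_field hp hn
    have h1 := (hb K).1
    have h2 := card_pt X.left K hp hK
    have h3 := hf K
    rw [hK] at h2 h3
    rw [fac hp hn, h3]
    have h4 : (n : ℂ) ≠ 0 := by exact_mod_cast hn
    rw [div_eq_iff h4]
    have h5 : ((Nat.card (Pt X.left K) : ℝ) : ℂ) = (((n : ℝ) * cf (nm X.left) (p ^ n) : ℝ) : ℂ) := by rw [h2]
    push_cast at h5
    rw [h5]
    push_cast
    ring
  · rw [if_neg hm]
    have h1 := cf_eq_zero X.left (m := m) (fun h => hm (pp.2 h))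
    rw [cf, tsum_empty, Complex.ofReal_zero]

end A4

theorem t_A4 : St_A4 := by
  intro X f hX hf
  obtain ⟨C, k, hb⟩ := ft_bounded hX
  have hc : coef f = fun m => (cf (nm X.left) m : ℂ) := funext fun m => A4.coef_eq hb hf m
  refine ⟨⟨C, k, fun m hm => ?_⟩, ?_, ?_⟩
  · obtain ⟨p, n, hp, hn, rfl⟩ := A4.pp.1 hm
    obtain ⟨K, _, _, hK⟩ := exists_field hp hn
    have h1 := (hb K).2
    have h3 := hf K
    rw [hK] at h1 h3
    rw [h3, Complex.norm_natCast]
    exact_mod_cast h1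
  · intro h
    refine HasCont.congr h (τ := (k : ℝ) + 1) fun s hs => ?_
    rw [ft_zeta hX hb hs, hc]
    rfl
  · intro h
    refine HasCont.congr h (τ := (k : ℝ) + 1) fun s hs => ?_
    rw [ft_zeta hX hb hs, hc]
    rfl

theorem t_A6 : St_A6 := by
  intro X hX
  obtain ⟨C, k, hb⟩ := ft_bounded hX
  refine ⟨fun m => (m.factorization m.minFac : ℂ) * (cf (nm X.left) m : ℂ), ?_⟩
  intro K _ _
  have : Fintype K := Fintype.ofFinite _
  obtain ⟨p, _, n, h1, h2⟩ := FiniteField.card' K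
  have hK : Nat.card K = p ^ (n : ℕ) := by rw [Nat.card_eq_fintype_card, h2]
  have hfin := (hb K).1
  have h3 := card_pt X.left K h1 hK
  have h5 : ((Nat.card (Pt X.left K) : ℝ) : ℂ) = ((((n : ℕ) : ℝ) * cf (nm X.left) (Nat.card K) : ℝ) : ℂ) := by
    rw [h3]
  push_cast at h5
  rw [h5]
  beta_reduce
  have h6 : (Nat.card K).factorization (Nat.card K).minFac = (n : ℕ) := by
    rw [hK]
    exact A4.fac h1 n.ne_zero
  rw [h6]

end Pool.Agent.NH36.Cz
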