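import Pool.Agent.NH36.Cz.StmL

/-!
# CZ-A5: the double sum over the primes and the exponents
-/

set_option autoImplicit false

open Pool.Agent.Q193.Zeta

namespace Pool.Agent.NH36.Cz

namespace A5

lemma coef_bd {f : ℕ → ℂ} {C k : ℕ} (h : ∀ m, IsPrimePow m → ‖f m‖ ≤ C * (m : ℝ) ^ k) (n : ℕ) :
    ‖coef f n‖ ≤ C * (n : ℝ) ^ k := by
  have h0 : (0 : ℝ) ≤ C * (n : ℝ) ^ k := by positivity
  unfold coef
  split_ifs with hn
  · rw [norm_div, Complex.norm_natCast]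
    rcases Nat.eq_zero_or_pos (n.factorization n.minFac) with h1 | h1
    · rw [h1, Nat.cast_zero, div_zero]
      exact h0
    · have h2 : (1 : ℝ) ≤ (n.factorization n.minFac : ℝ) := by exact_mod_cast h1
      exact (div_le_self (norm_nonneg _) h2).trans (h n hn)
  · rw [norm_zero]
    exact h0

lemma summ {f : ℕ → ℂ} {C k : ℕ} (h : ∀ m, IsPrimePow m → ‖f m‖ ≤ C * (m : ℝ) ^ k) {s : ℂ}
    (hs : (k : ℝ) + 1 < s.re) : LSeriesSummable (coef f) s := by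
  refine LSeriesSummable_of_le_const_mul_rpow hs ⟨C, fun n _ => ?_⟩
  rw [add_sub_cancel_right, Real.rpow_natCast]
  exact coef_bd h n

lemma coef_pp (f : ℕ → ℂ) (p : Nat.Primes) (n : ℕ) :
    coef f ((p : ℕ) ^ (n + 1)) = f ((p : ℕ) ^ (n + 1)) / (n + 1 : ℂ) := by
  have h1 : IsPrimePow ((p : ℕ) ^ (n + 1)) := p.2.isPrimePow.pow (Nat.succ_ne_zero n)
  have h2 : ((p : ℕ) ^ (n + 1)).factorization ((p : ℕ) ^ (n + 1)).minFac = n + 1 := by
    rw [p.2.pow_minFac (Nat.succ_ne_zero n), Nat.factorization_pow, Finsupp.smul_apply,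
      p.2.factorization_self, smul_eq_mul, mul_one]
  unfold coef
  rw [if_pos h1, h2]
  push_cast
  rfl

lemma term_pp (f : ℕ → ℂ) (p : Nat.Primes) (n : ℕ) (s : ℂ) :
    LSeries.term (coef f) s ((p : ℕ) ^ (n + 1)) = f ((p : ℕ) ^ (n + 1)) / (n + 1 : ℂ) *
      ((p : ℕ) : ℂ) ^ (-(((n + 1 : ℕ) : ℂ) * s)) := by
  have h1 : (p : ℕ) ^ (n + 1) ≠ 0 := pow_ne_zero _ p.2.ne_zero
  rw [LSeries.term_of_ne_zero h1, coef_pp, Complex.cpow_neg, Complex.natCast_cpow_natCast_mul,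
    div_eq_mul_inv _ ((((p : ℕ) ^ (n + 1) : ℕ) : ℂ) ^ s), Nat.cast_pow]

lemma hs {α β γ : Type} [Fintype α] [Fintype β] [Fintype γ] (T : α → β → γ → ℤ)
    {f : ℕ → ℂ} {C k : ℕ} (h : ∀ m, IsPrimePow m → ‖f m‖ ≤ C * (m : ℝ) ^ k)
    (hf : ∀ (K : Type) [Field K] [Finite K], f (Nat.card K) = (classNumber T K : ℂ)) {s : ℂ}
    (hs : (k : ℝ) + 1 < s.re) :
    HasSum (fun x : Nat.Primes × ℕ =>
      (classNumber T (@GaloisField x.1 ⟨x.1.2⟩ (x.2 + 1)) : ℂ) / (x.2 + 1 : ℂ) *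
        ((x.1 : ℕ) : ℂ) ^ (-(((x.2 + 1 : ℕ) : ℂ) * s))) (LSeries (coef f) s) := by
  have h1 : HasSum (LSeries.term (coef f) s) (LSeries (coef f) s) := (summ h hs).hasSum
  have h2 : Function.support (LSeries.term (coef f) s) ⊆ {n : ℕ | IsPrimePow n} := by
    intro n hn
    by_contra hc'
    have hc : ¬ IsPrimePow n := hc'
    apply hn
    rcases eq_or_ne n 0 with rfl | h0
    · exact LSeries.term_zero _ _
    · rw [LSeries.term_of_ne_zero h0]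
      have h3 : coef f n = 0 := by
        unfold coef
        rw [if_neg hc]
      rw [h3, zero_div]
  rw [← hasSum_subtype_iff_of_support_subset h2] at h1
  have h3 := (Nat.Primes.prodNatEquiv.hasSum_iff).2 h1
  convert h3 using 1
  funext x
  obtain ⟨p, n⟩ := x
  have h4 : LSeries.term (coef f) s ((p : ℕ) ^ (n + 1)) = f ((p : ℕ) ^ (n + 1)) / (n + 1 : ℂ) *
      ((p : ℕ) : ℂ) ^ (-(((n + 1 : ℕ) : ℂ) * s)) := term_pp f p n s
  haveI : Fact (p : ℕ).Prime := ⟨p.2⟩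
  have h5 : f ((p : ℕ) ^ (n + 1)) = (classNumber T (GaloisField (p : ℕ) (n + 1)) : ℂ) := by
    rw [← hf, GaloisField.card (p : ℕ) (n + 1) (Nat.succ_ne_zero n)]
  rw [h5] at h4
  exact h4.symm

end A5

open A5

/-- CZ-A5 -/
theorem t_A5 : St_A5 := by
  intro α β γ _ _ _ T f hB hf
  obtain ⟨C, k, h⟩ := hB
  constructor
  · rintro ⟨F, hF, σ, hσ⟩
    refine ⟨F, hF, max σ ((k : ℝ) + 1), fun s hs => ?_⟩
    obtain ⟨L, hL, e⟩ := hσ s (lt_of_le_of_lt (le_max_left _ _) hs)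
    have h1 := A5.hs T h hf (lt_of_le_of_lt (le_max_right _ _) hs)
    rw [e, hL.unique h1]
  · rintro ⟨F, hF, σ, hσ⟩
    refine ⟨F, hF, max σ ((k : ℝ) + 1), fun s hs => ⟨LSeries (coef f) s,
      A5.hs T h hf (lt_of_le_of_lt (le_max_right _ _) hs), ?_⟩⟩
    exact hσ s (lt_of_le_of_lt (le_max_left _ _) hs)

end Pool.Agent.NH36.Cz
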