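import Pool.Agent.NH36.Cz.StmP
import Pool.Agent.NH36.Cz.A1
import Pool.Agent.NH36.Cz.A5

/-!
# CZ-A7, CZ-A8: finite sums, double sums
-/

set_option autoImplicit false

open Pool.Agent.Q193.Zeta

namespace Pool.Agent.NH36.Cz

namespace A7

lemma coef_add (f g : ℕ → ℂ) : coef (fun m => f m + g m) = coef f + coef g := by
  funext m
  rw [Pi.add_apply]
  by_cases hm : IsPrimePow m
  · rw [A1.coef_of_pp hm, A1.coef_of_pp hm, A1.coef_of_pp hm, add_div]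
  · rw [A1.coef_of_not hm, A1.coef_of_not hm, A1.coef_of_not hm, add_zero]

lemma bd_add {f g : ℕ → ℂ} (hf : Bd f) (hg : Bd g) : Bd (fun m => f m + g m) := by
  obtain ⟨C₁, k₁, h₁⟩ := hf
  obtain ⟨C₂, k₂, h₂⟩ := hg
  refine ⟨C₁ + C₂, max k₁ k₂, fun m hm => ?_⟩
  have h1 : (1 : ℝ) ≤ m := by exact_mod_cast hm.one_lt.le
  have e1 : (m : ℝ) ^ k₁ ≤ (m : ℝ) ^ (max k₁ k₂) := pow_le_pow_right₀ h1 (le_max_left _ _)
  have e2 : (m : ℝ) ^ k₂ ≤ (m : ℝ) ^ (max k₁ k₂) := pow_le_pow_right₀ h1 (le_max_right _ _)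
  calc ‖f m + g m‖ ≤ ‖f m‖ + ‖g m‖ := norm_add_le _ _
    _ ≤ C₁ * (m : ℝ) ^ k₁ + C₂ * (m : ℝ) ^ k₂ := add_le_add (h₁ m hm) (h₂ m hm)
    _ ≤ C₁ * (m : ℝ) ^ (max k₁ k₂) + C₂ * (m : ℝ) ^ (max k₁ k₂) :=
        add_le_add (mul_le_mul_of_nonneg_left e1 (Nat.cast_nonneg _))
          (mul_le_mul_of_nonneg_left e2 (Nat.cast_nonneg _))
    _ = ((C₁ + C₂ : ℕ) : ℝ) * (m : ℝ) ^ (max k₁ k₂) := by push_cast; ring

lemma hc_add {f g : ℕ → ℂ} (hf : Bd f) (hg : Bd g) (hF : HC f) (hG : HC g) :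
    HC (fun m => f m + g m) := by
  obtain ⟨C₁, k₁, h₁⟩ := hf
  obtain ⟨C₂, k₂, h₂⟩ := hg
  refine (hF.mul hG).congr (τ := max ((k₁ : ℝ) + 1) ((k₂ : ℝ) + 1)) fun s hs => ?_
  have s₁ := coef_summable f C₁ k₁ h₁ s (lt_of_le_of_lt (le_max_left _ _) hs)
  have s₂ := coef_summable g C₂ k₂ h₂ s (lt_of_le_of_lt (le_max_right _ _) hs)
  rw [coef_add, LSeries_add s₁ s₂, Complex.exp_add]

lemma bd_zero : Bd (fun _ => 0) := ⟨0, 0, fun m _ => by simp⟩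

lemma hc_zero : HC (fun _ => 0) := by
  refine ⟨fun _ => 1, fun z _ => MeromorphicAt.const 1 z, 0, fun s _ => ?_⟩
  have h0 : coef (fun _ => 0) = 0 := by
    funext m
    unfold coef
    split_ifs <;> simp
  rw [h0, LSeries_zero]
  simp

lemma hs (k : ∀ (K : Type) [Field K], ℕ)
    {f : ℕ → ℂ} {C d : ℕ} (h : ∀ m, IsPrimePow m → ‖f m‖ ≤ C * (m : ℝ) ^ d)
    (hf : ∀ (K : Type) [Field K] [Finite K], f (Nat.card K) = (k K : ℂ)) {s : ℂ}
    (hs : (d : ℝ) + 1 < s.re) :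
    HasSum (fun x : Nat.Primes × ℕ =>
      (k (@GaloisField x.1 ⟨x.1.2⟩ (x.2 + 1)) : ℂ) / (x.2 + 1 : ℂ) *
        ((x.1 : ℕ) : ℂ) ^ (-(((x.2 + 1 : ℕ) : ℂ) * s))) (LSeries (coef f) s) := by
  have h1 : HasSum (LSeries.term (coef f) s) (LSeries (coef f) s) := (A5.summ h hs).hasSum
  have h2 : Function.support (LSeries.term (coef f) s) ⊆ {n : ℕ | IsPrimePow n} := by
    intro n hn
    by_contra hc'
    have hc : ¬ IsPrimePow n := hc'
    apply hn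
    rcases eq_or_ne n 0 with rfl | h0
    · exact LSeries.term_zero _ _
    · rw [LSeries.term_of_ne_zero h0]
      have h3 : coef f n = 0 := by
        unfold coef
        rw [if_neg hc]
      rw [h3, zero_div]
  rw [← hasSum_subtype_iff_of_support_subset h2] at h1
  have h3 := (Nat.Primes.prodNatEquiv.hasSum_iff).2 h1
  convert h3 using 1
  funext x
  obtain ⟨p, n⟩ := x
  have h4 : LSeries.term (coef f) s ((p : ℕ) ^ (n + 1)) = f ((p : ℕ) ^ (n + 1)) / (n + 1 : ℂ) *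
      ((p : ℕ) : ℂ) ^ (-(((n + 1 : ℕ) : ℂ) * s)) := A5.term_pp f p n s
  have : Fact (p : ℕ).Prime := ⟨p.2⟩
  have h5 : f ((p : ℕ) ^ (n + 1)) = (k (GaloisField (p : ℕ) (n + 1)) : ℂ) := by
    rw [← hf, GaloisField.card (p : ℕ) (n + 1) (Nat.succ_ne_zero n)]
  rw [h5] at h4
  exact h4.symm

end A7

/-- **A7** -/
theorem t_A7 : St_A7 := by
  classical
  intro ι _ f hB hF
  have key : ∀ S : Finset ι, Bd (fun m => ∑ i ∈ S, f i m) ∧ HC (fun m => ∑ i ∈ S, f i m) := by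
    intro S
    induction S using Finset.induction_on with
    | empty =>
      simp only [Finset.sum_empty]
      exact ⟨A7.bd_zero, A7.hc_zero⟩
    | insert i S hi ih =>
      simp only [Finset.sum_insert hi]
      exact ⟨A7.bd_add (hB i) ih.1, A7.hc_add (hB i) ih.1 (hF i) ih.2⟩
  exact key Finset.univ

/-- **A8** -/
theorem t_A8 : St_A8 := by
  intro k f hB hf
  obtain ⟨C, d, h⟩ := hB
  constructor
  · rintro ⟨F, hF, σ, hσ⟩
    refine ⟨F, hF, max σ ((d : ℝ) + 1), fun s hs => ?_⟩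
    obtain ⟨L, hL, e⟩ := hσ s (lt_of_le_of_lt (le_max_left _ _) hs)
    have h1 := A7.hs k h hf (lt_of_le_of_lt (le_max_right _ _) hs)
    rw [e, hL.unique h1]
  · rintro ⟨F, hF, σ, hσ⟩
    refine ⟨F, hF, max σ ((d : ℝ) + 1), fun s hs => ⟨LSeries (coef f) s,
      A7.hs k h hf (lt_of_le_of_lt (le_max_right _ _) hs), ?_⟩⟩
    exact hσ s (lt_of_le_of_lt (le_max_left _ _) hs)

end Pool.Agent.NH36.Cz
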