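import Pool.Agent.NH36.Cz.Stm

/-!
# Project CZ: assembly
-/

set_option autoImplicit false

open CategoryTheory AlgebraicGeometry MvPolynomial Pool.Agent.Y116.UV Pool.Agent.Q193.Zeta
  Pool.Agent.Q282.UZ

namespace Pool.Agent.NH36.Cz

lemma exists_card {m : ℕ} (hm : IsPrimePow m) :
    ∃ (K : Type) (_ : Field K) (_ : Finite K), Nat.card K = m := by
  obtain ⟨p, n, hp, hn, rfl⟩ := (isPrimePow_nat_iff m).mp hm
  exact exists_field hp hn.ne'

lemma pow_ne {m : ℕ} (hm : IsPrimePow m) : (m : ℂ) ≠ 0 := by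
  exact_mod_cast hm.pos.ne'

lemma bd_zpow {f : ℕ → ℂ} (hf : Bd f) (r : ℤ) : Bd fun m => (m : ℂ) ^ r * f m := by
  obtain ⟨C, k, h⟩ := hf
  refine ⟨C, r.toNat + k, fun m hm => ?_⟩
  have h1 : (1 : ℝ) ≤ m := by exact_mod_cast hm.pos
  have h2 : (m : ℝ) ^ r ≤ (m : ℝ) ^ (r.toNat : ℤ) := zpow_le_zpow_right₀ h1 (Int.self_le_toNat r)
  rw [zpow_natCast] at h2
  rw [norm_mul, norm_zpow, Complex.norm_natCast, pow_add]
  calc (m : ℝ) ^ r * ‖f m‖ ≤ (m : ℝ) ^ r.toNat * (C * (m : ℝ) ^ k) :=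
        mul_le_mul h2 (h m hm) (norm_nonneg _) (by positivity)
    _ = C * ((m : ℝ) ^ r.toNat * (m : ℝ) ^ k) := by ring

lemma bd_plane {f : ℕ → ℂ} (hf : Bd f) : Bd fun m => ((m : ℂ) ^ 2 - 1) * f m := by
  obtain ⟨C, k, h⟩ := hf
  refine ⟨2 * C, 2 + k, fun m hm => ?_⟩
  have h1 : (1 : ℝ) ≤ m := by exact_mod_cast hm.pos
  have h2 : ‖(m : ℂ) ^ 2 - 1‖ ≤ 2 * (m : ℝ) ^ 2 := by
    refine (norm_sub_le _ _).trans ?_
    rw [norm_pow, Complex.norm_natCast, norm_one]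
    nlinarith
  rw [norm_mul, pow_add]
  calc ‖(m : ℂ) ^ 2 - 1‖ * ‖f m‖ ≤ (2 * (m : ℝ) ^ 2) * (C * (m : ℝ) ^ k) :=
        mul_le_mul h2 (h m hm) (norm_nonneg _) (by positivity)
    _ = ((2 * C : ℕ) : ℝ) * ((m : ℝ) ^ 2 * (m : ℝ) ^ k) := by push_cast; ring

section

variable (a1 : St_A1) (a2 : St_A2) (a3 : St_A3) (a4 : St_A4) (a5 : St_A5) (a6 : St_A6)
  (g1 : St_G1) (g2 : St_G2) (g3 : St_G3) (g4 : St_G4) (p1 : St_P1) (p2 : St_P2) (p3 : St_P3)

include a2 a4 a5 a6 g1 p2 in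
/-- The commuting scheme and the class numbers. -/
theorem cls_iff {α β γ : Type} [Fintype α] [Fintype β] [Fintype γ] (T : α → β → γ → ℤ) :
    ClassContinues T ↔ Co (comS T) := by
  obtain ⟨f, hf⟩ := a6 (comS T) (ft_aff False)
  obtain ⟨hB, hC⟩ := a4 (comS T) f (ft_aff False) hf
  set r : ℤ := (Fintype.card γ : ℤ) - (Fintype.card α + Fintype.card β : ℕ) with hr
  have h1 : ∀ (K : Type) [Field K] [Finite K],
      (fun m : ℕ => (m : ℂ) ^ r * f m) (Nat.card K) = (classNumber T K : ℂ) := by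
    intro K _ _
    have hq : (Nat.card K : ℂ) ≠ 0 := by exact_mod_cast (Nat.card_pos (α := K)).ne'
    have h2 := g1 α β γ T K
    have h3 : (classNumber T K : ℂ) * (Nat.card K : ℂ) ^ (Fintype.card α + Fintype.card β) =
        comN T K * (Nat.card K : ℂ) ^ Fintype.card γ := by exact_mod_cast h2
    beta_reduce
    rw [hf K, p2 α β γ T K, hr, zpow_sub₀ hq, zpow_natCast, zpow_natCast]
    field_simp
    linear_combination -h3
  rw [hC, a5 α β γ T (fun m : ℕ => (m : ℂ) ^ r * f m) (bd_zpow hB r) h1]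
  constructor
  · refine a2 _ _ (-r) fun m hm => ?_
    have := pow_ne hm
    rw [← mul_assoc, ← zpow_add₀ this, neg_add_cancel, zpow_zero, one_mul]
  · exact a2 _ _ r fun m _ => rfl

include a2 a4 a6 g2 p2 in
/-- The kernels. -/
theorem sq_of {α β γ : Type} [Fintype α] [Fintype β] [Fintype γ] (T : α → β → γ → ℤ)
    (h : Co (comS T)) : ∃ s : ℕ → ℂ, Bd s ∧ HC s ∧
      ∀ (K : Type) [Field K] [Finite K], s (Nat.card K) = (sqN T K : ℂ) := by
  obtain ⟨f, hf⟩ := a6 (comS T) (ft_aff False)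
  obtain ⟨hB, hC⟩ := a4 (comS T) f (ft_aff False) hf
  set r : ℤ := (Fintype.card γ : ℤ) - (2 * Fintype.card β : ℕ) with hr
  refine ⟨fun m : ℕ => (m : ℂ) ^ r * f m, bd_zpow hB r, a2 _ _ r (fun m _ => rfl) (hC.mp h), ?_⟩
  intro K _ _
  have hq : (Nat.card K : ℂ) ≠ 0 := by exact_mod_cast (Nat.card_pos (α := K)).ne'
  have h2 := g2 α β γ T K
  have h3 : (comN T K : ℂ) * (Nat.card K : ℂ) ^ Fintype.card γ =
      sqN T K * (Nat.card K : ℂ) ^ (2 * Fintype.card β) := by exact_mod_cast h2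
  beta_reduce
  rw [hf K, p2 α β γ T K, hr, zpow_sub₀ hq, zpow_natCast, zpow_natCast]
  field_simp
  linear_combination h3

include a1 a2 a3 a4 a6 g2 g3 p1 p2 in
/-- From the class numbers to the bilinear systems. -/
theorem sys_of {a b c : ℕ} (E : Fin c → Finset (Fin a × Fin b)) (h1 : Co (comS (T1 E)))
    (h2 : Co (comS (T2 E))) : Co (sysS ℤ E) := by
  obtain ⟨s1, hs1, hs1', hs1''⟩ := sq_of a2 a4 a6 g2 p2 (T1 E) h1
  obtain ⟨s2, hs2, hs2', hs2''⟩ := sq_of a2 a4 a6 g2 p2 (T2 E) h2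
  obtain ⟨e, he⟩ := a6 (sysS ℤ E) (ft_aff False)
  obtain ⟨hB, hC⟩ := a4 (sysS ℤ E) e (ft_aff False) he
  rw [hC]
  refine a3 e (fun m => ((m : ℂ) ^ 2 - 1) * e m) 2 (by norm_num) hB (fun m _ => rfl) ?_
  refine a3 _ (fun m => ((m : ℂ) ^ 1 - 1) * (((m : ℂ) ^ 2 - 1) * e m)) 1 le_rfl (bd_plane hB)
    (fun m _ => rfl) ?_
  refine a1 s1 s2 _ hs1 hs2 (fun m hm => ?_) hs1' hs2'
  obtain ⟨K, _, _, rfl⟩ := exists_card hm
  have h3 := g3 a b c E K
  have h4 : (sqN (T1 E) K : ℂ) = sqN (T2 E) K +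
      ((Nat.card K : ℂ) - 1) * ((Nat.card K : ℂ) ^ 2 - 1) * solN E K := by exact_mod_cast h3
  rw [hs1'' K, hs2'' K, he K, p1 a b c E K, h4]
  ring

include p3 in
lemma cls_rename {α β γ : Type} [Fintype α] [Fintype β] [Fintype γ] {a b c : ℕ}
    (e₁ : Fin a ≃ α) (e₂ : Fin b ≃ β) (e₃ : Fin c ≃ γ) (T : α → β → γ → ℤ)
    (h : ClassContinues fun i j k => T (e₁ i) (e₂ j) (e₃ k)) : ClassContinues T := by
  obtain ⟨F, hF, σ, hσ⟩ := h
  refine ⟨F, hF, σ, fun s hs => ?_⟩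
  obtain ⟨L, hL, hL'⟩ := hσ s hs
  refine ⟨L, ?_, hL'⟩
  have h1 : ∀ x : Nat.Primes × ℕ,
      classNumber (fun i j k => T (e₁ i) (e₂ j) (e₃ k)) (@GaloisField x.1 ⟨x.1.2⟩ (x.2 + 1)) =
        classNumber T (@GaloisField x.1 ⟨x.1.2⟩ (x.2 + 1)) := fun x =>
    p3 α β γ a b c e₁ e₂ e₃ T _
  simp only [h1] at hL
  exact hL

/-- The class numbers for all forms with the entries `0`, `1` and at most three terms for every `j`. -/
def ForSparseForms (P : ∀ {a b c : ℕ}, (Fin a → Fin b → Fin c → ℤ) → Prop) : Prop :=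
  ∀ (a b c : ℕ) (T : Fin a → Fin b → Fin c → ℤ), (∀ i j k, T i j k = 0 ∨ T i j k = 1) →
    (∀ j, Set.ncard {x : Fin a × Fin c | T x.1 j x.2 ≠ 0} ≤ 3) → P T

include p3 in
lemma cls_sparse (h : ForSparseForms fun {_ _ _} T => ClassContinues T)
    {α β γ : Type} [Fintype α] [Fintype β] [Fintype γ] (T : α → β → γ → ℤ)
    (h0 : ∀ i j k, T i j k = 0 ∨ T i j k = 1)
    (h3 : ∀ j, Set.ncard {x : α × γ | T x.1 j x.2 ≠ 0} ≤ 3) : ClassContinues T := by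
  refine cls_rename p3 (Fintype.equivFin α).symm (Fintype.equivFin β).symm
    (Fintype.equivFin γ).symm T (h _ _ _ _ (fun i j k => h0 _ _ _) fun j => ?_)
  refine le_trans ?_ (h3 ((Fintype.equivFin β).symm j))
  let e : Fin (Fintype.card α) × Fin (Fintype.card γ) ≃ α × γ :=
    Equiv.prodCongr (Fintype.equivFin α).symm (Fintype.equivFin γ).symm
  have h4 : e '' {x | T ((Fintype.equivFin α).symm x.1) ((Fintype.equivFin β).symm j)
      ((Fintype.equivFin γ).symm x.2) ≠ 0} ⊆ {x : α × γ | T x.1 ((Fintype.equivFin β).symm j) x.2 ≠ 0} := by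
    rintro _ ⟨x, hx, rfl⟩
    exact hx
  rw [← Set.ncard_image_of_injective _ e.injective]
  exact Set.ncard_le_ncard h4 (Set.toFinite _)

include a1 a2 a3 a4 a5 a6 g1 g2 g3 g4 p1 p2 p3 in
/-- The main theorem. -/
theorem main_asm :
    ((∀ X : Sch ℤ, FT False X → Co X) →
      ∀ (a b c : ℕ) (T : Fin a → Fin b → Fin c → ℤ), ClassContinues T) ∧
    ((ForSparseForms fun {_ _ _} T => ClassContinues T) → ∀ X : Sch ℤ, FT False X → Co X) := by
  constructor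
  · intro h a b c T
    rw [cls_iff a2 a4 a5 a6 g1 p2 T]
    exact h _ (ft_aff False)
  · intro h
    have hC : Pool.Agent.Q282.UK.Clo False Co := ⟨bnd_co.iso, bnd_co.total, bnd_co.opened, bnd_co.torus⟩
    refine (three_iff short_int hC).mpr fun a b c E hE => ?_
    obtain ⟨k1, k2, k3, k4⟩ := g4 a b c E hE
    refine sys_of a1 a2 a3 a4 a6 g2 g3 p1 p2 E ?_ ?_
    · rw [← cls_iff a2 a4 a5 a6 g1 p2]
      exact cls_sparse p3 h _ k1 k3
    · rw [← cls_iff a2 a4 a5 a6 g1 p2]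
      exact cls_sparse p3 h _ k2 k4

end

end Pool.Agent.NH36.Cz
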