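import Pool.Agent.NH36.Cz.StmL

/-!
# Project CZ: statements of the graded version
-/

set_option autoImplicit false

open MvPolynomial

namespace Pool.Agent.NH36.Cz

/-- The number of the common zeros of the polynomials `g k`. -/
noncomputable def zN {N : ℕ} {κ : Type} (g : κ → MvPolynomial (Fin N) ℤ) (K : Type) [CommRing K] : ℕ :=
  Nat.card {x : Fin N → K // ∀ k, aeval x (g k) = 0}

/-- Exponents, at most `D` in every variable. -/
abbrev Ep (N D : ℕ) : Type := Fin N → Fin (D + 1)

/-- the exponent as a finitely supported function -/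
noncomputable def toF {N D : ℕ} (m : Ep N D) : Fin N →₀ ℕ :=
  Finsupp.equivFunOnFinite.symm fun i => (m i : ℕ)

/-- `m = n + e_i` -/
def Nx {N D : ℕ} (n : Ep N D) (i : Fin N) (m : Ep N D) : Prop :=
  (m i : ℕ) = n i + 1 ∧ ∀ i', i' ≠ i → m i' = n i'

/-- the first form for the polynomials `g` -/
noncomputable def U1 {N : ℕ} {κ : Type} (D : ℕ) (g : κ → MvPolynomial (Fin N) ℤ) :
    Ep N D → (Ep N D × Fin N) ⊕ κ → Option (Fin N) → ℤ
  | m, Sum.inl x, none => open Classical in if Nx x.1 x.2 m then 1 else 0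
  | m, Sum.inl x, some i => open Classical in if i = x.2 ∧ m = x.1 ∧ (m i : ℕ) < D then -1 else 0
  | m, Sum.inr k, none => (g k).coeff (toF m)
  | _, Sum.inr _, some _ => 0

/-- the second form for the polynomials `g` -/
noncomputable def U2 {N : ℕ} {κ : Type} (D : ℕ) (g : κ → MvPolynomial (Fin N) ℤ) :
    Ep N D → Option ((Ep N D × Fin N) ⊕ κ) → Option (Fin N) → ℤ
  | m, none, none => open Classical in if m = 0 then 1 else 0
  | _, none, some _ => 0
  | m, some j, k => U1 D g m j k

/-- **G5.** The number of the common zeros and the kernels. -/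
def St_G5 : Prop := ∀ (N D : ℕ) (κ : Type) [Fintype κ] (g : κ → MvPolynomial (Fin N) ℤ),
  (∀ k, ∀ m ∈ (g k).support, ∀ i, m i ≤ D) → ∀ (K : Type) [Field K] [Finite K],
  (sqN (U1 D g) K : ℤ) = sqN (U2 D g) K +
    ((Nat.card K : ℤ) - 1) * ((Nat.card K : ℤ) ^ 2 - 1) * zN g K

end Pool.Agent.NH36.Cz
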