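import Pool.Agent.NH36.Cz.Stm
import Pool.Agent.NH36.Cz.StmG
import Pool.Agent.NH36.Zt.Three

/-!
# Project CZ: statements of the graded version, schemes
-/

set_option autoImplicit false

open CategoryTheory AlgebraicGeometry MvPolynomial Pool.Agent.Y116.UV Pool.Agent.Q193.Zeta
  Pool.Agent.Q282.UZ Pool.Agent.NH36.Zt

namespace Pool.Agent.NH36.Cz

/-- **C1.** Commuting schemes and closed subschemes of affine spaces. -/
def St_C1 : Prop := ∀ N : ℕ, ForClosed N Co → ∀ (a b c : ℕ) (T : Fin a → Fin b → Fin c → ℤ),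
  c ≤ N + 1 → Co (comS T)

/-- **P4.** Points of affine schemes. -/
def St_P4 : Prop := ∀ (N : ℕ) (κ : Type) (g : κ → MvPolynomial (Fin N) ℤ) (K : Type) [Field K]
  [Finite K], Nat.card (Pt (aff ℤ (MvPolynomial (Fin N) ℤ ⧸ Ideal.span (Set.range g))).left K) =
    zN g K

end Pool.Agent.NH36.Cz
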