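import Pool.Agent.NH36.Cz.Asm
import Pool.Agent.NH36.Cz.StmH

/-!
# Project CZ: assembly of the graded version
-/

set_option autoImplicit false

open CategoryTheory AlgebraicGeometry MvPolynomial Pool.Agent.Y116.UV Pool.Agent.Q193.Zeta
  Pool.Agent.Q282.UZ Pool.Agent.NH36.Zt

namespace Pool.Agent.NH36.Cz

section

variable (a1 : St_A1) (a2 : St_A2) (a3 : St_A3) (a4 : St_A4) (a5 : St_A5) (a6 : St_A6)
  (g1 : St_G1) (g2 : St_G2) (g5 : St_G5) (p2 : St_P2) (p3 : St_P3) (p4 : St_P4) (c1 : St_C1)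

include a1 a2 a3 a4 a6 g2 g5 p4 p2 in
/-- From the class numbers to closed subschemes. -/
theorem closed_of {N D : ℕ} {κ : Type} [Fintype κ] (g : κ → MvPolynomial (Fin N) ℤ)
    (hD : ∀ k, ∀ m ∈ (g k).support, ∀ i, m i ≤ D) (h1 : Co (comS (U1 D g)))
    (h2 : Co (comS (U2 D g))) :
    Co (aff ℤ (MvPolynomial (Fin N) ℤ ⧸ Ideal.span (Set.range g))) := by
  obtain ⟨s1, hs1, hs1', hs1''⟩ := sq_of a2 a4 a6 g2 p2 (U1 D g) h1
  obtain ⟨s2, hs2, hs2', hs2''⟩ := sq_of a2 a4 a6 g2 p2 (U2 D g) h2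
  obtain ⟨e, he⟩ := a6 (aff ℤ (MvPolynomial (Fin N) ℤ ⧸ Ideal.span (Set.range g))) (ft_aff False)
  obtain ⟨hB, hC⟩ := a4 (aff ℤ (MvPolynomial (Fin N) ℤ ⧸ Ideal.span (Set.range g))) e
    (ft_aff False) he
  rw [hC]
  refine a3 e (fun m => ((m : ℂ) ^ 2 - 1) * e m) 2 (by norm_num) hB (fun m _ => rfl) ?_
  refine a3 _ (fun m => ((m : ℂ) ^ 1 - 1) * (((m : ℂ) ^ 2 - 1) * e m)) 1 le_rfl (bd_plane hB)
    (fun m _ => rfl) ?_
  refine a1 s1 s2 _ hs1 hs2 (fun m hm => ?_) hs1' hs2'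
  obtain ⟨K, _, _, rfl⟩ := exists_card hm
  have h3 := g5 N D κ g hD K
  have h4 : (sqN (U1 D g) K : ℂ) = sqN (U2 D g) K +
      ((Nat.card K : ℂ) - 1) * ((Nat.card K : ℂ) ^ 2 - 1) * zN g K := by exact_mod_cast h3
  rw [hs1'' K, hs2'' K, he K, p4 N κ g K, h4]
  ring

include p3 in
lemma cls_centre {N : ℕ} (h : ∀ (a b : ℕ) (T : Fin a → Fin b → Fin (N + 1) → ℤ), ClassContinues T)
    {α β : Type} [Fintype α] [Fintype β] (T : α → β → Option (Fin N) → ℤ) : ClassContinues T :=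
  cls_rename p3 (Fintype.equivFin α).symm (Fintype.equivFin β).symm (finSuccEquiv N) T (h _ _ _)

include a1 a2 a3 a4 a5 a6 g1 g2 g5 p2 p3 p4 c1 in
/-- The graded theorem. -/
theorem graded_asm (N : ℕ) :
    (ForClosed N Co → ∀ (a b c : ℕ) (T : Fin a → Fin b → Fin c → ℤ), c ≤ N + 1 →
      ClassContinues T) ∧
    ((∀ (a b : ℕ) (T : Fin a → Fin b → Fin (N + 1) → ℤ), ClassContinues T) → ForClosed N Co) := by
  constructor
  · intro h a b c T hc
    rw [cls_iff a2 a4 a5 a6 g1 p2 T]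
    exact c1 N h a b c T hc
  · intro h I
    obtain ⟨G, hG⟩ := (isNoetherianRing_iff_ideal_fg _).mp
      (inferInstance : IsNoetherianRing (MvPolynomial (Fin N) ℤ)) I
    let D : ℕ := ∑ g ∈ G, ∑ m ∈ g.support, m.degree
    have hd : ∀ g : G, ∀ m ∈ g.1.support, ∀ i, m i ≤ D := by
      intro g m hm i
      have h0 : m i ≤ m.degree := by
        by_cases hi : i ∈ m.support
        · exact Finset.single_le_sum (f := fun i => m i) (fun _ _ => Nat.zero_le _) hi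
        · rw [Finsupp.notMem_support_iff.mp hi]
          exact Nat.zero_le _
      have h1 : m.degree ≤ ∑ m ∈ g.1.support, m.degree :=
        Finset.single_le_sum (f := fun m : Fin N →₀ ℕ => m.degree) (fun _ _ => Nat.zero_le _) hm
      have h2 : ∑ m ∈ g.1.support, m.degree ≤ ∑ g ∈ G, ∑ m ∈ g.support, m.degree :=
        Finset.single_le_sum (f := fun g : MvPolynomial (Fin N) ℤ => ∑ m ∈ g.support, m.degree)
          (fun _ _ => Nat.zero_le _) g.2
      omega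
    have h3 : Set.range (fun g : G => g.1) = (G : Set (MvPolynomial (Fin N) ℤ)) := by
      ext x
      constructor
      · rintro ⟨g, rfl⟩
        exact g.2
      · intro hx
        exact ⟨⟨x, hx⟩, rfl⟩
    have h4 := closed_of a1 a2 a3 a4 a6 g2 g5 p2 p4 (fun g : G => g.1) hd
      ((cls_iff a2 a4 a5 a6 g1 p2 _).mp (cls_centre p3 h _))
      ((cls_iff a2 a4 a5 a6 g1 p2 _).mp (cls_centre p3 h _))
    rw [h3] at h4
    rw [← hG]
    exact h4

end

end Pool.Agent.NH36.Cz
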