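import Mathlib

/-!
# Project CZ: pattern groups
-/

set_option autoImplicit false

open Matrix

namespace Pool.Agent.NH36.Cz

section

variable {I : Type} [Fintype I] [DecidableEq I]

/-- The matrix `M` has `1` on the diagonal, and its other entries different from zero are at places
`(i, j)` with `r i j`. -/
def IsPat {K : Type} [CommRing K] (r : I → I → Prop) (M : Matrix I I K) : Prop :=
  (∀ i, M i i = 1) ∧ ∀ i j, i ≠ j → M i j ≠ 0 → r i j

lemma isPat_one {K : Type} [CommRing K] (r : I → I → Prop) : IsPat r (1 : Matrix I I K) :=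
  ⟨fun _ => Matrix.one_apply_eq _, fun _ _ h h' => absurd (Matrix.one_apply_ne h) h'⟩

lemma isPat_mul {K : Type} [CommRing K] (r : I → I → Prop) [IsStrictOrder I r] {M N : Matrix I I K}
    (hM : IsPat r M) (hN : IsPat r N) : IsPat r (M * N) := by
  constructor
  · intro i
    rw [Matrix.mul_apply, Finset.sum_eq_single i]
    · rw [hM.1, hN.1, one_mul]
    · intro j _ hj
      by_contra h
      have h1 : M i j ≠ 0 := left_ne_zero_of_mul h
      have h2 : N j i ≠ 0 := right_ne_zero_of_mul h
      exact irrefl_of r i (trans_of r (hM.2 i j (Ne.symm hj) h1) (hN.2 j i hj h2))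
    · intro h
      exact absurd (Finset.mem_univ _) h
  · intro i j hij h
    rw [Matrix.mul_apply] at h
    obtain ⟨k, -, hk⟩ := Finset.exists_ne_zero_of_sum_ne_zero h
    have h1 : M i k ≠ 0 := left_ne_zero_of_mul hk
    have h2 : N k j ≠ 0 := right_ne_zero_of_mul hk
    by_cases e1 : i = k
    · subst e1
      exact hN.2 i j hij h2
    · by_cases e2 : k = j
      · subst e2
        exact hM.2 i k hij h1
      · exact trans_of r (hM.2 i k e1 h1) (hN.2 k j e2 h2)

/-- **The pattern group** of the finite partially ordered set `(I, r)`: the invertible matrices `g` such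
that `g` and `g⁻¹` have `1` on the diagonal and only entries at places `i < j` otherwise. -/
def Pat (r : I → I → Prop) [IsStrictOrder I r] (K : Type) [CommRing K] : Subgroup (Matrix I I K)ˣ where
  carrier := {g | IsPat r (g : Matrix I I K) ∧ IsPat r ((g⁻¹ : (Matrix I I K)ˣ) : Matrix I I K)}
  mul_mem' {g h} hg hh := ⟨isPat_mul r hg.1 hh.1, by
    rw [_root_.mul_inv_rev]
    exact isPat_mul r hh.2 hg.2⟩
  one_mem' := ⟨isPat_one r, by rw [inv_one]; exact isPat_one r⟩
  inv_mem' {g} hg := ⟨hg.2, by rw [inv_inv]; exact hg.1⟩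

end

/-- For the function `k` on finite fields: the series `∑_p ∑_{n ≥ 1} k(𝔽_{p^n}) p^{-ns} / n` converges in a
half-plane and its exponential extends to a meromorphic function on `ℂ`. -/
def SeriesContinues (k : ∀ (K : Type) [Field K], ℕ) : Prop :=
  ∃ F : ℂ → ℂ, MeromorphicOn F Set.univ ∧ ∃ σ : ℝ, ∀ s : ℂ, σ < s.re → ∃ L : ℂ,
    HasSum (fun x : Nat.Primes × ℕ =>
      (k (@GaloisField x.1 ⟨x.1.2⟩ (x.2 + 1)) : ℂ) / (x.2 + 1 : ℂ) *
        ((x.1 : ℕ) : ℂ) ^ (-(((x.2 + 1 : ℕ) : ℂ) * s))) L ∧ F s = Complex.exp L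

/-- The function of the numbers of conjugacy classes of the pattern group extends. -/
def PatContinues {I : Type} [Fintype I] [DecidableEq I] (r : I → I → Prop) [IsStrictOrder I r] :
    Prop :=
  SeriesContinues fun K _ => Nat.card (ConjClasses (Pat r K))

end Pool.Agent.NH36.Cz
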