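import Pool.Agent.NH36.Cz.StmL
import Pool.Agent.NH36.Cz.Pat

/-!
# Project CZ: statements for pattern groups
-/

set_option autoImplicit false

open Pool.Agent.Q193.Zeta

namespace Pool.Agent.NH36.Cz

/-- **A7.** Finite sums. -/
def St_A7 : Prop := ∀ (ι : Type) [Fintype ι] (f : ι → ℕ → ℂ), (∀ i, Bd (f i)) → (∀ i, HC (f i)) →
  Bd (fun m => ∑ i, f i m) ∧ HC (fun m => ∑ i, f i m)

/-- **A8.** Double sums. -/
def St_A8 : Prop := ∀ (k : ∀ (K : Type) [Field K], ℕ) (f : ℕ → ℂ), Bd f →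
  (∀ (K : Type) [Field K] [Finite K], f (Nat.card K) = (k K : ℂ)) → (SeriesContinues k ↔ HC f)

/-- **V.** Deconvolution. -/
def St_V : Prop := ∀ (J : Type) [Fintype J] [DecidableEq J] (R : ℕ) (f : (J → Fin (R + 1)) → ℕ → ℂ),
  (∀ e, Bd (f e)) →
  (∀ n : J → ℕ, HC fun m => ∑ e, (m : ℂ) ^ (2 * ∑ j, n j * (e j : ℕ)) * f e m) → ∀ e, HC (f e)

section

variable {α β γ : Type} [Fintype α] [Fintype β] [Fintype γ]

open Classical in
/-- The tensor of the three-level pattern with `a < b` for `a ∈ A b`, `b < c` for `c ∈ C b`, and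
`a < c` for all `a`, `c`. -/
noncomputable def TP (A : β → Finset α) (C : β → Finset γ) (p : Σ b, {x // x ∈ A b})
    (s : Σ b, {x // x ∈ C b}) (k : α × γ) : ℤ :=
  if p.1 = s.1 ∧ k = (p.2.1, s.2.1) then 1 else 0

/-- The relation of the three-level pattern. -/
def rel (A : β → Finset α) (C : β → Finset γ) : α ⊕ (β ⊕ γ) → α ⊕ (β ⊕ γ) → Prop
  | Sum.inl a, Sum.inr (Sum.inl b) => a ∈ A b
  | Sum.inr (Sum.inl b), Sum.inr (Sum.inr c) => c ∈ C b
  | Sum.inl _, Sum.inr (Sum.inr _) => True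
  | _, _ => False

lemma rel_no3 (A : β → Finset α) (C : β → Finset γ) (x y z w : α ⊕ (β ⊕ γ)) (h1 : rel A C x y)
    (h2 : rel A C y z) : ¬ rel A C z w := by
  rcases x with x | x | x <;> rcases y with y | y | y <;> rcases z with z | z | z <;>
    rcases w with w | w | w <;> simp_all [rel]

instance (A : β → Finset α) (C : β → Finset γ) : IsStrictOrder (α ⊕ (β ⊕ γ)) (rel A C) where
  irrefl x h := by
    rcases x with x | x | x <;> simp_all [rel]
  trans x y z h1 h2 := by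
    rcases x with x | x | x <;> rcases y with y | y | y <;> rcases z with z | z | z <;>
      simp_all [rel]

/-- The dimension of the kernel of the submatrix of `l` with the columns in `A` and the rows in `C`. -/
noncomputable def kd {K : Type} [Field K] (l : γ → α → K) (A : Finset α) (C : Finset γ) : ℕ :=
  Module.finrank K (LinearMap.ker (Matrix.mulVecLin
    (Matrix.of fun (c : {x // x ∈ C}) (a : {x // x ∈ A}) => l c.1 a.1)))

/-- The number of the matrices with given dimensions of the kernels. -/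
noncomputable def cntN {J : Type} (A : J → Finset α) (C : J → Finset γ) (e : J → ℕ) (K : Type)
    [Field K] : ℕ :=
  Nat.card {l : γ → α → K // ∀ j, kd l (A j) (C j) = e j}

end

/-- **PG.** The pattern group and the group `G_T`. -/
def St_PG : Prop := ∀ (α β γ : Type) [Fintype α] [Fintype β] [Fintype γ] [DecidableEq α]
  [DecidableEq β] [DecidableEq γ] (A : β → Finset α) (C : β → Finset γ) (K : Type) [Field K],
  Nat.card (ConjClasses (Pat (rel A C) K)) = classNumber (TP A C) K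

/-- **Q1.** The number `sqN` for a pattern where each `j` is repeated `n j` times. -/
def St_Q1 : Prop := ∀ (α γ J : Type) [Fintype α] [Fintype γ] [Fintype J] [DecidableEq J] (A : J → Finset α)
  (C : J → Finset γ) (n : J → ℕ) (K : Type) [Field K] [Finite K],
  sqN (TP (fun b : (Σ j, Fin (n j)) => A b.1) (fun b : (Σ j, Fin (n j)) => C b.1)) K =
    ∑ e : J → Fin (Fintype.card α + 1),
      Nat.card K ^ (2 * ∑ j, n j * (e j : ℕ)) * cntN A C (fun j => (e j : ℕ)) K

/-- **Q2.** The number `cntN` depends only on the number of the elements of the field. -/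
def St_Q2 : Prop := ∀ (α γ J : Type) [Fintype α] [Fintype γ] (A : J → Finset α)
  (C : J → Finset γ) (e : J → ℕ), ∃ f : ℕ → ℂ, Bd f ∧
  ∀ (K : Type) [Field K] [Finite K], f (Nat.card K) = (cntN A C e K : ℂ)

/-- the rows: the pairs `(i, j)` and `0` (values of `x`), `1` (ones), `2` (scales) -/
abbrev Row (a b : ℕ) : Type := (Fin a × Fin b) ⊕ Fin 3

/-- the columns: the pairs `(i, j)`, `none`, the variables `y_j`, the equations -/
abbrev Col (a b c : ℕ) : Type := (Fin a × Fin b) ⊕ Option (Fin b ⊕ Fin c)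

/-- the algebraic conditions on the matrix -/
structure Good {a b c : ℕ} (E : Fin c → Finset (Fin a × Fin b)) {K : Type} [Field K]
    (l : Row a b → Col a b c → K) : Prop where
  w1 : ∀ p, l (Sum.inl p) (Sum.inl p) ≠ 0
  w0 : ∀ p p', p ≠ p' → l (Sum.inl p) (Sum.inl p') = 0
  o1 : ∀ p, l (Sum.inr 1) (Sum.inl p) ≠ 0
  t0 : ∀ p, l (Sum.inr 2) (Sum.inl p) = 0
  k1 : l (Sum.inr 1) (Sum.inr none) ≠ 0
  k0 : l (Sum.inr 0) (Sum.inr none) = 0
  k2 : l (Sum.inr 2) (Sum.inr none) = 0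
  kp : ∀ p, l (Sum.inl p) (Sum.inr none) ≠ 0
  m1 : ∀ j, l (Sum.inr 2) (Sum.inr (some j)) ≠ 0
  m0 : ∀ j, l (Sum.inr 1) (Sum.inr (some j)) = 0
  m2 : ∀ j, l (Sum.inr 0) (Sum.inr (some j)) = 0
  c2 : ∀ p, l (Sum.inl p) (Sum.inl p) * l (Sum.inr 1) (Sum.inr none) =
    l (Sum.inl p) (Sum.inr none) * l (Sum.inr 1) (Sum.inl p)
  c3 : ∀ p p' : Fin a × Fin b, p.1 = p'.1 → l (Sum.inr 0) (Sum.inl p) * l (Sum.inr 1) (Sum.inl p') =
    l (Sum.inr 0) (Sum.inl p') * l (Sum.inr 1) (Sum.inl p)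
  c4 : ∀ (p p' : Fin a × Fin b) (j : Fin b),
    l (Sum.inl p) (Sum.inr (some (Sum.inl j))) * l (Sum.inl p') (Sum.inr none) =
      l (Sum.inl p') (Sum.inr (some (Sum.inl j))) * l (Sum.inl p) (Sum.inr none)
  c5 : ∀ (p : Fin a × Fin b) (m : Fin c), p ∈ E m →
    l (Sum.inl p) (Sum.inr (some (Sum.inr m))) * l (Sum.inr 2) (Sum.inr (some (Sum.inl p.2))) =
      l (Sum.inl p) (Sum.inr (some (Sum.inl p.2))) * l (Sum.inr 2) (Sum.inr (some (Sum.inr m)))
  c6 : ∀ (p : Fin a × Fin b) (m : Fin c), p ∉ E m → l (Sum.inl p) (Sum.inr (some (Sum.inr m))) = 0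
  c7 : ∀ m : Fin c, ∑ p ∈ E m, l (Sum.inr 0) (Sum.inl p) * l (Sum.inl p) (Sum.inr (some (Sum.inr m))) /
    l (Sum.inl p) (Sum.inl p) = 0

/-- **E1.** The conditions are conditions on the dimensions of kernels. -/
def St_E1 : Prop := ∀ (a b c : ℕ) (E : Fin c → Finset (Fin a × Fin b)),
  ∃ Q : (Finset (Col a b c) → Finset (Row a b) → ℕ) → Prop, ∀ (K : Type) [Field K]
    (l : Row a b → Col a b c → K), Good E l ↔ Q (kd l)

/-- **E2.** The number of the matrices with the algebraic conditions. -/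
def St_E2 : Prop := ∀ (a b c : ℕ) (E : Fin c → Finset (Fin a × Fin b)), 0 < a → 0 < b →
  ∀ (K : Type) [Field K] [Finite K],
  Nat.card {l : Row a b → Col a b c → K // Good E l} =
    (Nat.card K - 1) ^ (2 * (a * b) + 1 + b + c) * solN E K

/-- **P5.** Padding. -/
def St_P5 : Prop := ∀ (a b c : ℕ) (E : Fin c → Finset (Fin a × Fin b)),
  ∃ E' : Fin c → Finset (Fin (a + 1) × Fin (b + 1)), ∀ (K : Type) [Field K] [Finite K],
    solN E' K = Nat.card K ^ 2 * solN E K

end Pool.Agent.NH36.Cz
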