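import Pool.Agent.NH36.Cz.Stm
import Pool.Agent.NH36.Cz.StmP

/-!
# Project CZ: statements for pattern groups, schemes
-/

set_option autoImplicit false

open CategoryTheory AlgebraicGeometry Pool.Agent.Y116.UV Pool.Agent.Q193.Zeta

namespace Pool.Agent.NH36.Cz

/-- **PC.** The scheme of the commuting pairs of a pattern group. -/
def St_PC : Prop := ∀ (I : Type) [Fintype I] [DecidableEq I] (r : I → I → Prop) [IsStrictOrder I r],
  ∃ (X : Sch ℤ) (d : ℕ), FT False X ∧ ∀ (K : Type) [Field K] [Finite K],
    Nat.card (Pt X.left K) = Nat.card (ConjClasses (Pat r K)) * Nat.card K ^ d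

end Pool.Agent.NH36.Cz
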