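import Pool.Agent.NH36.Cz.Asm
import Pool.Agent.NH36.Cz.StmQ

/-!
# Project CZ: assembly for pattern groups
-/

set_option autoImplicit false

open CategoryTheory AlgebraicGeometry MvPolynomial Pool.Agent.Y116.UV Pool.Agent.Q193.Zeta
  Pool.Agent.Q282.UZ

namespace Pool.Agent.NH36.Cz

lemma hc_congr (a2 : St_A2) {f g : ℕ → ℂ} (h : ∀ m, IsPrimePow m → g m = f m) (hf : HC f) : HC g :=
  a2 f g 0 (fun m hm => by rw [zpow_zero, one_mul]; exact h m hm) hf

lemma bd_torus {f : ℕ → ℂ} (hf : Bd f) (M : ℕ) : Bd fun m => ((m : ℂ) - 1) ^ M * f m := by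
  obtain ⟨C, k, h⟩ := hf
  refine ⟨2 ^ M * C, M + k, fun m hm => ?_⟩
  have h1 : (1 : ℝ) ≤ m := by exact_mod_cast hm.pos
  have h2 : ‖(m : ℂ) - 1‖ ≤ 2 * (m : ℝ) := by
    refine (norm_sub_le _ _).trans ?_
    rw [Complex.norm_natCast, norm_one]
    linarith
  rw [norm_mul, norm_pow, pow_add]
  calc ‖(m : ℂ) - 1‖ ^ M * ‖f m‖ ≤ (2 * (m : ℝ)) ^ M * (C * (m : ℝ) ^ k) :=
        mul_le_mul (pow_le_pow_left₀ (norm_nonneg _) h2 M) (h m hm) (norm_nonneg _) (by positivity)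
    _ = ((2 ^ M * C : ℕ) : ℝ) * ((m : ℝ) ^ M * (m : ℝ) ^ k) := by push_cast; ring

lemma hc_torus (a3 : St_A3) {f : ℕ → ℂ} (hf : Bd f) (M : ℕ)
    (h : HC fun m => ((m : ℂ) - 1) ^ M * f m) : HC f := by
  induction M with
  | zero =>
    have h1 : (fun m : ℕ => ((m : ℂ) - 1) ^ 0 * f m) = f := by
      funext m
      rw [pow_zero, one_mul]
    rwa [h1] at h
  | succ M ih =>
    refine ih (a3 (fun m => ((m : ℂ) - 1) ^ M * f m) _ 1 le_rfl (bd_torus hf M) (fun m _ => ?_) h)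
    beta_reduce
    rw [pow_one, pow_succ]
    ring

lemma kd_le {α γ : Type} [Fintype α] {K : Type} [Field K] (l : γ → α → K) (A : Finset α)
    (C : Finset γ) : kd l A C < Fintype.card α + 1 := by
  have h1 : kd l A C ≤ Module.finrank K ({x // x ∈ A} → K) := Submodule.finrank_le _
  rw [Module.finrank_fintype_fun_eq_card, Fintype.card_coe] at h1
  have h2 : A.card ≤ Fintype.card α := Finset.card_le_univ A
  omega

/-- All three-level patterns. -/
def ForThreeLevels : Prop :=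
  ∀ (α β γ : Type) [Fintype α] [Fintype β] [Fintype γ] [DecidableEq α] [DecidableEq β]
    [DecidableEq γ] (A : β → Finset α) (C : β → Finset γ), PatContinues (rel A C)

section

variable (a1 : St_A1) (a2 : St_A2) (a3 : St_A3) (a4 : St_A4) (a5 : St_A5) (a6 : St_A6)
  (a7 : St_A7) (a8 : St_A8) (v : St_V)
  (g1 : St_G1) (g2 : St_G2) (p2 : St_P2) (pg : St_PG) (q1 : St_Q1) (q2 : St_Q2)
  (e1 : St_E1) (e2 : St_E2) (p1 : St_P1) (p5 : St_P5) (pc : St_PC)

include pg in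
lemma cls_of_pat (hP : ForThreeLevels) {α β γ : Type} [Fintype α] [Fintype β] [Fintype γ]
    [DecidableEq α] [DecidableEq β] [DecidableEq γ] (A : β → Finset α) (C : β → Finset γ) :
    ClassContinues (TP A C) := by
  obtain ⟨F, hF, σ, hσ⟩ := hP α β γ A C
  refine ⟨F, hF, σ, fun s hs => ?_⟩
  obtain ⟨L, hL, hL'⟩ := hσ s hs
  refine ⟨L, ?_, hL'⟩
  have h1 : ∀ x : Nat.Primes × ℕ,
      Nat.card (ConjClasses (Pat (rel A C) (@GaloisField x.1 ⟨x.1.2⟩ (x.2 + 1)))) =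
        classNumber (TP A C) (@GaloisField x.1 ⟨x.1.2⟩ (x.2 + 1)) := fun x =>
    pg α β γ A C _
  simp only [h1] at hL
  exact hL

include a2 a4 a5 a6 v g1 g2 p2 pg q1 q2 in
/-- Counting matrices by the dimensions of the kernels of all submatrices. -/
theorem rank_of (hP : ForThreeLevels) {α γ : Type} [Fintype α] [Fintype γ]
    [DecidableEq α] [DecidableEq γ] (e : Finset α × Finset γ → Fin (Fintype.card α + 1)) :
    ∃ f : ℕ → ℂ, Bd f ∧ HC f ∧ ∀ (K : Type) [Field K] [Finite K],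
      f (Nat.card K) = (cntN (fun j : Finset α × Finset γ => j.1) (fun j => j.2)
        (fun j => (e j : ℕ)) K : ℂ) := by
  choose F hF hF' using fun e : Finset α × Finset γ → Fin (Fintype.card α + 1) =>
    q2 α γ (Finset α × Finset γ) (fun j => j.1) (fun j => j.2) (fun j => (e j : ℕ))
  refine ⟨F e, hF e, ?_, hF' e⟩
  refine v (Finset α × Finset γ) (Fintype.card α) F hF (fun n => ?_) e
  have h1 := cls_of_pat pg hP (fun b : (Σ j : Finset α × Finset γ, Fin (n j)) => b.1.1)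
    (fun b : (Σ j : Finset α × Finset γ, Fin (n j)) => b.1.2)
  rw [cls_iff a2 a4 a5 a6 g1 p2] at h1
  obtain ⟨s, hs, hs', hs''⟩ := sq_of a2 a4 a6 g2 p2 _ h1
  refine hc_congr a2 (fun m hm => ?_) hs'
  obtain ⟨K, _, _, rfl⟩ := exists_card hm
  rw [hs'' K, q1 α γ (Finset α × Finset γ) (fun j => j.1) (fun j => j.2) n K]
  push_cast
  refine Finset.sum_congr rfl fun e _ => ?_
  rw [hF' e K]

include a2 a4 a5 a6 a7 v g1 g2 p2 pg q1 q2 in
/-- Counting matrices with a condition on the dimensions of the kernels. -/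
theorem cond_of (hP : ForThreeLevels) {α γ : Type} [Fintype α] [Fintype γ]
    [DecidableEq α] [DecidableEq γ] (Q : (Finset α → Finset γ → ℕ) → Prop) :
    ∃ f : ℕ → ℂ, Bd f ∧ HC f ∧ ∀ (K : Type) [Field K] [Finite K],
      f (Nat.card K) = (Nat.card {l : γ → α → K // Q (kd l)} : ℂ) := by
  classical
  choose F hF hF' hF'' using fun e : Finset α × Finset γ → Fin (Fintype.card α + 1) =>
    rank_of a2 a4 a5 a6 v g1 g2 p2 pg q1 q2 hP e
  let ι : Type := {e : Finset α × Finset γ → Fin (Fintype.card α + 1) //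
    Q fun A C => (e (A, C) : ℕ)}
  obtain ⟨h1, h2⟩ := a7 ι (fun e => F e.1) (fun e => hF e.1) (fun e => hF' e.1)
  refine ⟨_, h1, h2, fun K _ _ => ?_⟩
  have h3 : {l : γ → α → K // Q (kd l)} ≃
      Σ e : ι, {l : γ → α → K // ∀ j : Finset α × Finset γ, kd l j.1 j.2 = (e.1 j : ℕ)} :=
    { toFun := fun l => ⟨⟨fun j => ⟨kd l.1 j.1 j.2, kd_le _ _ _⟩, l.2⟩, ⟨l.1, fun _ => rfl⟩⟩
      invFun := fun x => ⟨x.2.1, by
        have h := x.1.2
        have h4 : (fun A C => (x.1.1 (A, C) : ℕ)) = kd x.2.1 := by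
          funext A C
          exact (x.2.2 (A, C)).symm
        rwa [h4] at h⟩
      left_inv := fun _ => rfl
      right_inv := by
        rintro ⟨⟨e, he⟩, ⟨l, hl⟩⟩
        have h5 : e = fun j => ⟨kd l j.1 j.2, kd_le _ _ _⟩ := by
          funext j
          exact Fin.ext (hl j).symm
        subst h5
        rfl }
  rw [Nat.card_congr h3, Nat.card_sigma]
  push_cast
  refine Finset.sum_congr rfl fun e _ => ?_
  rw [hF'' e.1 K]
  rfl

include a2 a3 a4 a5 a6 a7 v g1 g2 p2 pg q1 q2 e1 e2 p1 in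
/-- From patterns to bilinear systems. -/
theorem sys_pos (hP : ForThreeLevels) {a b c : ℕ} (E : Fin c → Finset (Fin a × Fin b)) (ha : 0 < a)
    (hb : 0 < b) : ∃ f : ℕ → ℂ, Bd f ∧ HC f ∧ ∀ (K : Type) [Field K] [Finite K],
      f (Nat.card K) = (solN E K : ℂ) := by
  obtain ⟨Q, hQ⟩ := e1 a b c E
  obtain ⟨f, hf, hf', hf''⟩ := cond_of a2 a4 a5 a6 a7 v g1 g2 p2 pg q1 q2 hP Q
  obtain ⟨e, he⟩ := a6 (sysS ℤ E) (ft_aff False)
  obtain ⟨hB, -⟩ := a4 (sysS ℤ E) e (ft_aff False) he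
  refine ⟨e, hB, ?_, fun K _ _ => by rw [he K, p1 a b c E K]⟩
  refine hc_torus a3 hB (2 * (a * b) + 1 + b + c) (hc_congr a2 (fun m hm => ?_) hf')
  obtain ⟨K, _, _, rfl⟩ := exists_card hm
  have h1 : Nat.card {l : Row a b → Col a b c → K // Q (kd l)} =
      Nat.card {l : Row a b → Col a b c → K // Good E l} :=
    Nat.card_congr (Equiv.subtypeEquivRight fun l => (hQ K l).symm)
  have h2 : 1 ≤ Nat.card K := Nat.card_pos
  rw [hf'' K, h1, e2 a b c E ha hb K, he K, p1 a b c E K]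
  push_cast [Nat.cast_sub h2]
  ring

include a2 a3 a4 a5 a6 a7 v g1 g2 p2 pg q1 q2 e1 e2 p1 p5 in
theorem sys_pat (hP : ForThreeLevels) {a b c : ℕ} (E : Fin c → Finset (Fin a × Fin b)) :
    Co (sysS ℤ E) := by
  obtain ⟨E', hE'⟩ := p5 a b c E
  obtain ⟨f, hf, hf', hf''⟩ := sys_pos a2 a3 a4 a5 a6 a7 v g1 g2 p2 pg q1 q2 e1 e2 p1 hP E'
    (Nat.succ_pos a) (Nat.succ_pos b)
  obtain ⟨e, he⟩ := a6 (sysS ℤ E) (ft_aff False)
  obtain ⟨hB, hC⟩ := a4 (sysS ℤ E) e (ft_aff False) he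
  rw [hC]
  refine a2 f e (-2) (fun m hm => ?_) hf'
  obtain ⟨K, _, _, rfl⟩ := exists_card hm
  have hq : (Nat.card K : ℂ) ≠ 0 := by exact_mod_cast (Nat.card_pos (α := K)).ne'
  rw [hf'' K, he K, p1 a b c E K, hE' K, zpow_neg, zpow_ofNat]
  push_cast
  field_simp

include a2 a3 a4 a5 a6 a7 a8 v g1 g2 p2 pg q1 q2 e1 e2 p1 p5 pc in
/-- The main theorem for pattern groups. -/
theorem pat_asm :
    ((∀ X : Sch ℤ, FT False X → Co X) →
      ∀ (I : Type) [Fintype I] [DecidableEq I] (r : I → I → Prop) [IsStrictOrder I r],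
        PatContinues r) ∧
    ((∀ (I : Type) [Fintype I] [DecidableEq I] (r : I → I → Prop) [IsStrictOrder I r],
      (∀ i j k l, r i j → r j k → ¬ r k l) → PatContinues r) → ∀ X : Sch ℤ, FT False X → Co X) := by
  constructor
  · intro h I _ _ r _
    obtain ⟨X, d, hX, hd⟩ := pc I r
    obtain ⟨f, hf⟩ := a6 X hX
    obtain ⟨hB, hC⟩ := a4 X f hX hf
    refine (a8 (fun K _ => Nat.card (ConjClasses (Pat r K))) (fun m : ℕ => (m : ℂ) ^ (-d : ℤ) * f m)
      (bd_zpow hB _) fun K _ _ => ?_).mpr (a2 f _ (-d) (fun m _ => rfl) (hC.mp (h X hX)))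
    have hq : (Nat.card K : ℂ) ≠ 0 := by exact_mod_cast (Nat.card_pos (α := K)).ne'
    beta_reduce
    rw [hf K, hd K, zpow_neg, zpow_natCast]
    push_cast
    field_simp
  · intro h
    have hP : ForThreeLevels := fun α β γ _ _ _ _ _ _ A C =>
      h (α ⊕ (β ⊕ γ)) (rel A C) fun i j k l h1 h2 => rel_no3 A C i j k l h1 h2
    have hC : Pool.Agent.Q282.UK.Clo False Co :=
      ⟨bnd_co.iso, bnd_co.total, bnd_co.opened, bnd_co.torus⟩
    exact (three_iff short_int hC).mpr fun a b c E _ =>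
      sys_pat a2 a3 a4 a5 a6 a7 v g1 g2 p2 pg q1 q2 e1 e2 p1 p5 hP E

end

end Pool.Agent.NH36.Cz
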