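import Pool.Agent.NH36.Cz.StmH

/-!
# Project CZ, part C1: commuting schemes and closed subschemes of affine spaces (helper41)
-/

set_option autoImplicit false

open CategoryTheory AlgebraicGeometry MvPolynomial Pool.Agent.Y116.UV Pool.Agent.Q193.Zeta
  Pool.Agent.Q282.UZ Pool.Agent.NH36.Zt Pool.Agent.Z125.UN

namespace Pool.Agent.NH36.Cz

namespace C1

/-- the coefficients of the commuting scheme -/
def TC {a b c : ℕ} (T : Fin a → Fin b → Fin c → ℤ) :
    Fin c → (Fin a ⊕ Fin a) → (Fin b ⊕ Fin b) → ℤ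
  | k, Sum.inl i, Sum.inr j => T i j k
  | k, Sum.inr i, Sum.inl j => -T i j k
  | _, _, _ => 0

lemma bl_TC {a b c : ℕ} (T : Fin a → Fin b → Fin c → ℤ) (k : Fin c) :
    bl (TC T) k = ∑ i, ∑ j, (C (T i j k) * X (Sum.inl (Sum.inl i)) * X (Sum.inr (Sum.inr j)) -
      C (T i j k) * X (Sum.inl (Sum.inr i)) * X (Sum.inr (Sum.inl j))) := by
  rw [bl, bil_apply, Fintype.sum_sum_type]
  simp only [Fintype.sum_sum_type, TC, map_zero, zero_mul, Finset.sum_const_zero, zero_add,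
    add_zero, map_neg, neg_mul, Finset.sum_neg_distrib, sub_eq_add_neg,
    Finset.sum_add_distrib]

end C1

theorem t_C1 : St_C1 := by
  intro N hN a b c T hc
  have h1 : ForNarrow (N + 1) Co := (closed_iff_narrow bnd_co N).1 hN
  have h2 : Co (hypS fun (k : Fin c) (p : Fin (a + a)) (q : Fin (b + b)) =>
      C1.TC T k (finSumFinEquiv.symm p) (finSumFinEquiv.symm q)) := h1 c (a + a) (b + b) _ (Or.inl hc)
  have h3 : Co (aff ℤ (Hyp (C1.TC T))) := iso_alg bnd_co.toUni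
    (hypRename (Equiv.refl _) finSumFinEquiv.symm finSumFinEquiv.symm (C1.TC T)) h2
  have h4 := (hyp_iff bnd_co (C1.TC T)).1 h3
  have h5 := iso_alg bnd_co.toUni (oneE (bl (C1.TC T))).symm h4
  have h6 : (fun k : Fin c => (∑ i, ∑ j,
      (C (T i j k) * X (Sum.inl (Sum.inl i)) * X (Sum.inr (Sum.inr j)) -
      C (T i j k) * X (Sum.inl (Sum.inr i)) * X (Sum.inr (Sum.inl j))) :
      MvPolynomial ((Fin a ⊕ Fin a) ⊕ (Fin b ⊕ Fin b)) ℤ)) = bl (C1.TC T) :=
    funext fun k => (C1.bl_TC T k).symm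
  unfold comS
  rw [h6]
  exact h5

end Pool.Agent.NH36.Cz
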