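import Mathlib

/-!
# Project CZ: class numbers of groups of nilpotency class two, definitions
-/

set_option autoImplicit false

namespace Pool.Agent.NH36.Cz

/-- The bilinear map `K ^ α × K ^ β → K ^ γ` with the integral coefficients `T i j k`. -/
def bf {α β γ : Type} [Fintype α] [Fintype β] (T : α → β → γ → ℤ) {K : Type} [CommRing K]
    (v : α → K) (w : β → K) (k : γ) : K :=
  ∑ i, ∑ j, (T i j k : K) * v i * w j

/-- The group `G_T(K)` of the triples `(v, w, z)` with the multiplication
`(v, w, z) (v', w', z') = (v + v', w + w', z + z' + T(v, w'))`. -/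
@[ext]
structure Heis {α β γ : Type} (T : α → β → γ → ℤ) (K : Type) where
  /-- the first block -/
  v : α → K
  /-- the second block -/
  w : β → K
  /-- the central block -/
  z : γ → K

section

variable {α β γ : Type} [Fintype α] [Fintype β] (T : α → β → γ → ℤ) {K : Type} [CommRing K]

lemma bf_add_left (v v' : α → K) (w : β → K) (k : γ) :
    bf T (v + v') w k = bf T v w k + bf T v' w k := by
  simp only [bf, Pi.add_apply, mul_add, add_mul, Finset.sum_add_distrib]

lemma bf_add_right (v : α → K) (w w' : β → K) (k : γ) :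
    bf T v (w + w') k = bf T v w k + bf T v w' k := by
  simp only [bf, Pi.add_apply, mul_add, Finset.sum_add_distrib]

lemma bf_neg_left (v : α → K) (w : β → K) (k : γ) : bf T (-v) w k = -bf T v w k := by
  simp only [bf, Pi.neg_apply, mul_neg, neg_mul, Finset.sum_neg_distrib]

lemma bf_neg_right (v : α → K) (w : β → K) (k : γ) : bf T v (-w) k = -bf T v w k := by
  simp only [bf, Pi.neg_apply, mul_neg, Finset.sum_neg_distrib]

lemma bf_zero_left (w : β → K) (k : γ) : bf T (0 : α → K) w k = 0 := by
  simp [bf]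

lemma bf_zero_right (v : α → K) (k : γ) : bf T v (0 : β → K) k = 0 := by
  simp [bf]

instance : Group (Heis T K) where
  mul g h := ⟨g.v + h.v, g.w + h.w, fun k => g.z k + h.z k + bf T g.v h.w k⟩
  one := ⟨0, 0, 0⟩
  inv g := ⟨-g.v, -g.w, fun k => -g.z k + bf T g.v g.w k⟩
  mul_assoc g h l := by
    refine Heis.ext (add_assoc _ _ _) (add_assoc _ _ _) (funext fun k => ?_)
    change g.z k + h.z k + bf T g.v h.w k + l.z k + bf T (g.v + h.v) l.w k =
      g.z k + (h.z k + l.z k + bf T h.v l.w k) + bf T g.v (h.w + l.w) k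
    rw [bf_add_left, bf_add_right]
    ring
  one_mul g := by
    refine Heis.ext (zero_add _) (zero_add _) (funext fun k => ?_)
    change 0 + g.z k + bf T 0 g.w k = g.z k
    rw [bf_zero_left]
    ring
  mul_one g := by
    refine Heis.ext (add_zero _) (add_zero _) (funext fun k => ?_)
    change g.z k + 0 + bf T g.v 0 k = g.z k
    rw [bf_zero_right]
    ring
  inv_mul_cancel g := by
    refine Heis.ext (neg_add_cancel _) (neg_add_cancel _) (funext fun k => ?_)
    change -g.z k + bf T g.v g.w k + g.z k + bf T (-g.v) g.w k = 0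
    rw [bf_neg_left]
    ring

lemma mul_v (g h : Heis T K) : (g * h).v = g.v + h.v := rfl
lemma mul_w (g h : Heis T K) : (g * h).w = g.w + h.w := rfl
lemma mul_z (g h : Heis T K) (k : γ) : (g * h).z k = g.z k + h.z k + bf T g.v h.w k := rfl

end

/-- The number `k(G_T(K))` of conjugacy classes. -/
noncomputable def classNumber {α β γ : Type} [Fintype α] [Fintype β] (T : α → β → γ → ℤ) (K : Type)
    [CommRing K] : ℕ := Nat.card (ConjClasses (Heis T K))

/-- The series `∑_p ∑_{n ≥ 1} k(G_T(𝔽_{p^n})) p^{-ns} / n` converges in a half-plane and its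
exponential extends to a meromorphic function on `ℂ`. -/
def ClassContinues {α β γ : Type} [Fintype α] [Fintype β] (T : α → β → γ → ℤ) : Prop :=
  ∃ F : ℂ → ℂ, MeromorphicOn F Set.univ ∧ ∃ σ : ℝ, ∀ s : ℂ, σ < s.re → ∃ L : ℂ,
    HasSum (fun x : Nat.Primes × ℕ =>
      (classNumber T (@GaloisField x.1 ⟨x.1.2⟩ (x.2 + 1)) : ℂ) / (x.2 + 1 : ℂ) *
        ((x.1 : ℕ) : ℂ) ^ (-(((x.2 + 1 : ℕ) : ℂ) * s))) L ∧ F s = Complex.exp L

end Pool.Agent.NH36.Cz
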