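import Pool.Agent.NH36.Cz.StmP

/-!
# Project CZ: the conditions are conditions on the dimensions of kernels
-/

set_option autoImplicit false

namespace Pool.Agent.NH36.Cz

namespace CzE1

section gen

variable {α γ : Type} [Fintype α] [Fintype γ] {K : Type} [Field K]

/-- the kernel is zero -/
theorem kd_zero_iff (l : γ → α → K) (A : Finset α) (C : Finset γ) :
    kd l A C = 0 ↔ ∀ x : α → K, (∀ c ∈ C, ∑ a ∈ A, l c a * x a = 0) → ∀ a ∈ A, x a = 0 := by
  classical
  unfold kd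
  rw [Submodule.finrank_eq_zero, LinearMap.ker_eq_bot']
  constructor
  · intro h x hx a ha
    have h1 := h (fun a => x a.1) (by
      funext c
      have := hx c.1 c.2
      rw [← Finset.sum_coe_sort] at this
      simpa [Matrix.mulVecLin_apply, Matrix.mulVec, dotProduct] using this)
    exact congrFun h1 ⟨a, ha⟩
  · intro h x hx
    have h1 := h (fun a => if ha : a ∈ A then x ⟨a, ha⟩ else 0) (by
      intro c hc
      have := congrFun hx ⟨c, hc⟩
      rw [← Finset.sum_coe_sort]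
      simpa [Matrix.mulVecLin_apply, Matrix.mulVec, dotProduct] using this)
    funext a
    have h2 := h1 a.1 a.2
    simpa using h2

theorem kd_ne_iff (l : γ → α → K) (A : Finset α) (C : Finset γ) :
    kd l A C ≠ 0 ↔ ∃ x : α → K, (∀ c ∈ C, ∑ a ∈ A, l c a * x a = 0) ∧ ∃ a ∈ A, x a ≠ 0 := by
  rw [Ne, kd_zero_iff]
  push Not
  rfl

theorem ent_ne (l : γ → α → K) (r : γ) (c : α) : l r c ≠ 0 ↔ kd l {c} {r} = 0 := by
  rw [kd_zero_iff]
  constructor
  · intro h x hx a ha
    have := hx r (Finset.mem_singleton_self r)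
    rw [Finset.sum_singleton] at this
    rw [Finset.mem_singleton.1 ha]
    exact (mul_eq_zero.1 this).resolve_left h
  · intro h h0
    have := h (fun _ => 1) (by
      intro c' hc'
      rw [Finset.sum_singleton, Finset.mem_singleton.1 hc', h0, zero_mul]) c
      (Finset.mem_singleton_self c)
    exact one_ne_zero this

theorem ent_eq (l : γ → α → K) (r : γ) (c : α) : l r c = 0 ↔ kd l {c} {r} ≠ 0 := by
  rw [Ne, ← ent_ne, not_not]

theorem det2 [DecidableEq α] [DecidableEq γ] (l : γ → α → K) (r1 r2 : γ) (c1 c2 : α)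
    (hc : c1 ≠ c2) (h0 : l r2 c2 ≠ 0) :
    l r1 c1 * l r2 c2 = l r1 c2 * l r2 c1 ↔ kd l {c1, c2} {r1, r2} ≠ 0 := by
  rw [kd_ne_iff]
  constructor
  · intro h
    refine ⟨fun a => if a = c1 then l r2 c2 else - l r2 c1, ?_, c1, by simp, by simpa using h0⟩
    intro r hr
    rw [Finset.sum_pair hc]
    simp only [if_true, if_neg hc.symm]
    rcases Finset.mem_insert.1 hr with rfl | hr
    · rw [h]; ring
    · rw [Finset.mem_singleton.1 hr]; ring
  · rintro ⟨x, hx, a, ha, hxa⟩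
    have e1 := hx r1 (by simp)
    have e2 := hx r2 (by simp)
    rw [Finset.sum_pair hc] at e1 e2
    by_contra hne
    have h1 : (l r1 c1 * l r2 c2 - l r1 c2 * l r2 c1) * x c1 = 0 := by
      linear_combination l r2 c2 * e1 - l r1 c2 * e2
    have hx1 : x c1 = 0 := (mul_eq_zero.1 h1).resolve_left (sub_ne_zero.2 hne)
    rw [hx1, mul_zero, zero_add] at e2
    have hx2 : x c2 = 0 := (mul_eq_zero.1 e2).resolve_left h0
    rcases Finset.mem_insert.1 ha with rfl | ha
    · exact hxa hx1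
    · exact hxa (Finset.mem_singleton.1 ha ▸ hx2)

/-- the bordered lemma -/
theorem bord [DecidableEq α] [DecidableEq γ] {ι : Type} [DecidableEq ι] (S : Finset ι)
    (l : γ → α → K) (f : ι ↪ γ) (g : ι ↪ α) (r0 : γ) (c0 : α) (hc : ∀ p, g p ≠ c0)
    (h1 : ∀ p, l (f p) (g p) ≠ 0) (h2 : ∀ p p', p ≠ p' → l (f p) (g p') = 0)
    (h3 : l r0 c0 = 0) :
    (∑ p ∈ S, l r0 (g p) * l (f p) c0 / l (f p) (g p) = 0) ↔
      kd l (insert c0 (S.map g)) (insert r0 (S.map f)) ≠ 0 := by
  have hc' : c0 ∉ S.map g := by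
    intro h
    obtain ⟨p, _, hp⟩ := Finset.mem_map.1 h
    exact hc p hp
  have hrow : ∀ (x : α → K) (p : ι), p ∈ S →
      ∑ a ∈ insert c0 (S.map g), l (f p) a * x a =
        l (f p) c0 * x c0 + l (f p) (g p) * x (g p) := by
    intro x p hp
    rw [Finset.sum_insert hc', Finset.sum_map, Finset.sum_eq_single_of_mem p hp]
    intro q _ hq
    rw [h2 p q (Ne.symm hq), zero_mul]
  have hrow0 : ∀ x : α → K, ∑ a ∈ insert c0 (S.map g), l r0 a * x a =
      ∑ p ∈ S, l r0 (g p) * x (g p) := by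
    intro x
    rw [Finset.sum_insert hc', Finset.sum_map, h3, zero_mul, zero_add]
  rw [kd_ne_iff]
  constructor
  · intro h
    classical
    let x : α → K := fun a => if h : ∃ p, g p = a then
      - l (f h.choose) c0 / l (f h.choose) (g h.choose) else 1
    have hx : ∀ p, x (g p) = - l (f p) c0 / l (f p) (g p) := by
      intro p
      have hex : ∃ q, g q = g p := ⟨p, rfl⟩
      have : hex.choose = p := g.injective hex.choose_spec
      simp only [x]
      rw [dif_pos hex, this]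
    have hx0 : x c0 = 1 := by
      simp only [x]
      rw [dif_neg]
      rintro ⟨p, hp⟩
      exact hc p hp
    refine ⟨x, ?_, c0, Finset.mem_insert_self _ _, by rw [hx0]; exact one_ne_zero⟩
    intro r hr
    rcases Finset.mem_insert.1 hr with rfl | hr
    · rw [hrow0, ← neg_eq_zero, ← h, ← Finset.sum_neg_distrib]
      refine Finset.sum_congr rfl fun p _ => ?_
      rw [hx]
      ring
    · obtain ⟨p, hp, rfl⟩ := Finset.mem_map.1 hr
      rw [hrow x p hp, hx, hx0]
      field_simp [h1 p]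
      ring
  · rintro ⟨x, hx, a, ha, hxa⟩
    have e0 := hx r0 (Finset.mem_insert_self _ _)
    rw [hrow0] at e0
    have ep : ∀ p ∈ S, x (g p) = - (l (f p) c0 * x c0) / l (f p) (g p) := by
      intro p hp
      have := hx (f p) (Finset.mem_insert_of_mem (Finset.mem_map_of_mem f hp))
      rw [hrow x p hp] at this
      rw [eq_div_iff (h1 p)]
      linear_combination this
    have hx0 : x c0 ≠ 0 := by
      intro h0
      rcases Finset.mem_insert.1 ha with rfl | ha
      · exact hxa h0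
      · obtain ⟨p, hp, rfl⟩ := Finset.mem_map.1 ha
        apply hxa
        rw [ep p hp, h0]
        simp
    have e1 : x c0 * ∑ p ∈ S, l r0 (g p) * l (f p) c0 / l (f p) (g p) = 0 := by
      rw [← neg_eq_zero, ← e0, Finset.mul_sum, ← Finset.sum_neg_distrib]
      refine Finset.sum_congr rfl fun p hp => ?_
      rw [ep p hp]
      ring
    exact (mul_eq_zero.1 e1).resolve_left hx0

end gen

/-- the conditions on the dimensions of the kernels -/
structure QC {a b c : ℕ} (E : Fin c → Finset (Fin a × Fin b))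
    (k : Finset (Col a b c) → Finset (Row a b) → ℕ) : Prop where
  w1 : ∀ p, k {Sum.inl p} {Sum.inl p} = 0
  w0 : ∀ p p', p ≠ p' → k {Sum.inl p'} {Sum.inl p} ≠ 0
  o1 : ∀ p, k {Sum.inl p} {Sum.inr 1} = 0
  t0 : ∀ p, k {Sum.inl p} {Sum.inr 2} ≠ 0
  k1 : k {Sum.inr none} {Sum.inr 1} = 0
  k0 : k {Sum.inr none} {Sum.inr 0} ≠ 0
  k2 : k {Sum.inr none} {Sum.inr 2} ≠ 0
  kp : ∀ p, k {Sum.inr none} {Sum.inl p} = 0
  m1 : ∀ j, k {Sum.inr (some j)} {Sum.inr 2} = 0
  m0 : ∀ j, k {Sum.inr (some j)} {Sum.inr 1} ≠ 0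
  m2 : ∀ j, k {Sum.inr (some j)} {Sum.inr 0} ≠ 0
  c2 : ∀ p, k {Sum.inl p, Sum.inr none} {Sum.inl p, Sum.inr 1} ≠ 0
  c3 : ∀ p p' : Fin a × Fin b, p.1 = p'.1 → p ≠ p' →
    k {Sum.inl p, Sum.inl p'} {Sum.inr 0, Sum.inr 1} ≠ 0
  c4 : ∀ (p p' : Fin a × Fin b) (j : Fin b),
    k {Sum.inr (some (Sum.inl j)), Sum.inr none} {Sum.inl p, Sum.inl p'} ≠ 0
  c5 : ∀ (p : Fin a × Fin b) (m : Fin c), p ∈ E m →
    k {Sum.inr (some (Sum.inr m)), Sum.inr (some (Sum.inl p.2))} {Sum.inl p, Sum.inr 2} ≠ 0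
  c6 : ∀ (p : Fin a × Fin b) (m : Fin c), p ∉ E m →
    k {Sum.inr (some (Sum.inr m))} {Sum.inl p} ≠ 0
  c7 : ∀ m : Fin c, k (insert (Sum.inr (some (Sum.inr m))) ((E m).map Function.Embedding.inl))
    (insert (Sum.inr 0) ((E m).map Function.Embedding.inl)) ≠ 0

theorem c7_iff {a b c : ℕ} (E : Fin c → Finset (Fin a × Fin b)) {K : Type} [Field K]
    (l : Row a b → Col a b c → K) (w1 : ∀ p, l (Sum.inl p) (Sum.inl p) ≠ 0)
    (w0 : ∀ p p', p ≠ p' → l (Sum.inl p) (Sum.inl p') = 0)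
    (m2 : ∀ j, l (Sum.inr 0) (Sum.inr (some j)) = 0) (m : Fin c) :
    (∑ p ∈ E m, l (Sum.inr 0) (Sum.inl p) * l (Sum.inl p) (Sum.inr (some (Sum.inr m))) /
      l (Sum.inl p) (Sum.inl p) = 0) ↔
    kd l (insert (Sum.inr (some (Sum.inr m))) ((E m).map Function.Embedding.inl))
      (insert (Sum.inr 0) ((E m).map Function.Embedding.inl)) ≠ 0 :=
  bord (E m) l Function.Embedding.inl Function.Embedding.inl (Sum.inr 0)
    (Sum.inr (some (Sum.inr m))) (fun p => Sum.inl_ne_inr) w1 w0 (m2 _)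

theorem good_iff {a b c : ℕ} (E : Fin c → Finset (Fin a × Fin b)) {K : Type} [Field K]
    (l : Row a b → Col a b c → K) : Good E l ↔ QC E (kd l) := by
  constructor
  · intro h
    exact
      { w1 := fun p => (ent_ne l _ _).1 (h.w1 p)
        w0 := fun p p' hp => (ent_eq l _ _).1 (h.w0 p p' hp)
        o1 := fun p => (ent_ne l _ _).1 (h.o1 p)
        t0 := fun p => (ent_eq l _ _).1 (h.t0 p)
        k1 := (ent_ne l _ _).1 h.k1
        k0 := (ent_eq l _ _).1 h.k0
        k2 := (ent_eq l _ _).1 h.k2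
        kp := fun p => (ent_ne l _ _).1 (h.kp p)
        m1 := fun j => (ent_ne l _ _).1 (h.m1 j)
        m0 := fun j => (ent_eq l _ _).1 (h.m0 j)
        m2 := fun j => (ent_eq l _ _).1 (h.m2 j)
        c2 := fun p => (det2 l _ _ _ _ Sum.inl_ne_inr h.k1).1 (h.c2 p)
        c3 := fun p p' hp hne =>
          (det2 l _ _ _ _ (fun e => hne (Sum.inl_injective e)) (h.o1 p')).1 (h.c3 p p' hp)
        c4 := fun p p' j => (det2 l _ _ _ _ (by simp) (h.kp p')).1
          ((h.c4 p p' j).trans (mul_comm _ _))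
        c5 := fun p m hp => (det2 l _ _ _ _ (by simp) (h.m1 _)).1 (h.c5 p m hp)
        c6 := fun p m hp => (ent_eq l _ _).1 (h.c6 p m hp)
        c7 := fun m => (c7_iff E l h.w1 h.w0 h.m2 m).1 (h.c7 m) }
  · intro h
    have w1 : ∀ p, l (Sum.inl p) (Sum.inl p) ≠ 0 := fun p => (ent_ne l _ _).2 (h.w1 p)
    have w0 : ∀ p p', p ≠ p' → l (Sum.inl p) (Sum.inl p') = 0 :=
      fun p p' hp => (ent_eq l _ _).2 (h.w0 p p' hp)
    have o1 : ∀ p, l (Sum.inr 1) (Sum.inl p) ≠ 0 := fun p => (ent_ne l _ _).2 (h.o1 p)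
    have k1 : l (Sum.inr 1) (Sum.inr none) ≠ 0 := (ent_ne l _ _).2 h.k1
    have kp : ∀ p, l (Sum.inl p) (Sum.inr none) ≠ 0 := fun p => (ent_ne l _ _).2 (h.kp p)
    have m1 : ∀ j, l (Sum.inr 2) (Sum.inr (some j)) ≠ 0 := fun j => (ent_ne l _ _).2 (h.m1 j)
    have m2 : ∀ j, l (Sum.inr 0) (Sum.inr (some j)) = 0 := fun j => (ent_eq l _ _).2 (h.m2 j)
    exact
      { w1 := w1
        w0 := w0
        o1 := o1
        t0 := fun p => (ent_eq l _ _).2 (h.t0 p)
        k1 := k1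
        k0 := (ent_eq l _ _).2 h.k0
        k2 := (ent_eq l _ _).2 h.k2
        kp := kp
        m1 := m1
        m0 := fun j => (ent_eq l _ _).2 (h.m0 j)
        m2 := m2
        c2 := fun p => (det2 l _ _ _ _ Sum.inl_ne_inr k1).2 (h.c2 p)
        c3 := fun p p' hp => by
          rcases eq_or_ne p p' with rfl | hne
          · rfl
          · exact (det2 l _ _ _ _ (fun e => hne (Sum.inl_injective e)) (o1 p')).2
              (h.c3 p p' hp hne)
        c4 := fun p p' j => ((det2 l _ _ _ _ (by simp) (kp p')).2 (h.c4 p p' j)).trans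
          (mul_comm _ _)
        c5 := fun p m hp => (det2 l _ _ _ _ (by simp) (m1 _)).2 (h.c5 p m hp)
        c6 := fun p m hp => (ent_eq l _ _).2 (h.c6 p m hp)
        c7 := fun m => (c7_iff E l w1 w0 m2 m).2 (h.c7 m) }

end CzE1

/-- **E1.** -/
theorem t_E1 : St_E1 := fun _ _ _ E => ⟨CzE1.QC E, fun _ _ l => CzE1.good_iff E l⟩

end Pool.Agent.NH36.Cz
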