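import Pool.Agent.NH36.Cz.StmP

/-!
# Project CZ, part E2: the encoding
-/

set_option autoImplicit false

namespace Pool.Agent.NH36.Cz

namespace E2P

variable {a b c : ℕ} (E : Fin c → Finset (Fin a × Fin b)) {K : Type} [Field K]

/-- the row `0` -/
def r0 (o : Fin a × Fin b → K) (x : Fin a → K) : Col a b c → K
  | Sum.inl p => x p.1 * o p
  | Sum.inr _ => 0

/-- the row `1` -/
def r1 (o : Fin a × Fin b → K) (O : K) : Col a b c → K
  | Sum.inl p => o p
  | Sum.inr none => O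
  | Sum.inr (some _) => 0

/-- the row `2` -/
def r2 (s : Fin b ⊕ Fin c → K) : Col a b c → K
  | Sum.inl _ => 0
  | Sum.inr none => 0
  | Sum.inr (some j) => s j

/-- the row `p` -/
def rp (w o : Fin a × Fin b → K) (O : K) (s : Fin b ⊕ Fin c → K) (y : Fin b → K)
    (p : Fin a × Fin b) : Col a b c → K
  | Sum.inl p' => if p = p' then w p else 0
  | Sum.inr none => w p * O / o p
  | Sum.inr (some (Sum.inl j)) => y j * s (Sum.inl j) * (w p * O / o p)
  | Sum.inr (some (Sum.inr m)) => if p ∈ E m then y p.2 * (w p * O / o p) * s (Sum.inr m) else 0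

/-- the matrix -/
def build (w o : Fin a × Fin b → K) (O : K) (s : Fin b ⊕ Fin c → K) (x : Fin a → K) (y : Fin b → K) :
    Row a b → Col a b c → K
  | Sum.inl p => rp E w o O s y p
  | Sum.inr i => ![r0 o x, r1 o O, r2 s] i

theorem sum_eq (w o : Fin a × Fin b → K) (O : K) (s : Fin b ⊕ Fin c → K) (x : Fin a → K)
    (y : Fin b → K) (hw : ∀ p, w p ≠ 0) (ho : ∀ p, o p ≠ 0) (m : Fin c) :
    ∑ p ∈ E m, build E w o O s x y (Sum.inr 0) (Sum.inl p) *
      build E w o O s x y (Sum.inl p) (Sum.inr (some (Sum.inr m))) /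
        build E w o O s x y (Sum.inl p) (Sum.inl p) =
      O * s (Sum.inr m) * ∑ e ∈ E m, x e.1 * y e.2 := by
  rw [Finset.mul_sum]
  refine Finset.sum_congr rfl fun p hp => ?_
  show x p.1 * o p * (if p ∈ E m then y p.2 * (w p * O / o p) * s (Sum.inr m) else 0) /
    (if p = p then w p else 0) = _
  rw [if_pos hp, if_pos rfl]
  have h1 := hw p
  have h2 := ho p
  field_simp

theorem good_build (w o : Fin a × Fin b → K) (O : K) (s : Fin b ⊕ Fin c → K) (x : Fin a → K)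
    (y : Fin b → K) (hw : ∀ p, w p ≠ 0) (ho : ∀ p, o p ≠ 0) (hO : O ≠ 0) (hs : ∀ j, s j ≠ 0)
    (hsol : ∀ m, ∑ e ∈ E m, x e.1 * y e.2 = 0) : Good E (build E w o O s x y) where
  w1 p := by
    show (if p = p then w p else 0) ≠ 0
    rw [if_pos rfl]
    exact hw p
  w0 p p' h := by
    show (if p = p' then w p else 0) = 0
    exact if_neg h
  o1 p := ho p
  t0 p := rfl
  k1 := hO
  k0 := rfl
  k2 := rfl
  kp p := div_ne_zero (mul_ne_zero (hw p) hO) (ho p)
  m1 j := hs j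
  m0 j := rfl
  m2 j := rfl
  c2 p := by
    show (if p = p then w p else 0) * O = w p * O / o p * o p
    rw [if_pos rfl, div_mul_cancel₀ _ (ho p)]
  c3 p p' h := by
    show x p.1 * o p * o p' = x p'.1 * o p' * o p
    rw [h]
    ring
  c4 p p' j := by
    show y j * s (Sum.inl j) * (w p * O / o p) * (w p' * O / o p') =
      y j * s (Sum.inl j) * (w p' * O / o p') * (w p * O / o p)
    ring
  c5 p m h := by
    show (if p ∈ E m then y p.2 * (w p * O / o p) * s (Sum.inr m) else 0) * s (Sum.inl p.2) =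
      y p.2 * s (Sum.inl p.2) * (w p * O / o p) * s (Sum.inr m)
    rw [if_pos h]
    ring
  c6 p m h := by
    show (if p ∈ E m then y p.2 * (w p * O / o p) * s (Sum.inr m) else 0) = 0
    exact if_neg h
  c7 m := by
    rw [sum_eq E w o O s x y hw ho m, hsol m, mul_zero]

/-- the values of `x` -/
def dx (hb : 0 < b) (l : Row a b → Col a b c → K) (i : Fin a) : K :=
  l (Sum.inr 0) (Sum.inl (i, ⟨0, hb⟩)) / l (Sum.inr 1) (Sum.inl (i, ⟨0, hb⟩))

/-- the values of `y` -/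
def dy (ha : 0 < a) (hb : 0 < b) (l : Row a b → Col a b c → K) (j : Fin b) : K :=
  l (Sum.inl (⟨0, ha⟩, ⟨0, hb⟩)) (Sum.inr (some (Sum.inl j))) /
    (l (Sum.inr 2) (Sum.inr (some (Sum.inl j))) * l (Sum.inl (⟨0, ha⟩, ⟨0, hb⟩)) (Sum.inr none))

theorem eq_build (ha : 0 < a) (hb : 0 < b) {l : Row a b → Col a b c → K} (h : Good E l) :
    build E (fun p => l (Sum.inl p) (Sum.inl p)) (fun p => l (Sum.inr 1) (Sum.inl p))
      (l (Sum.inr 1) (Sum.inr none)) (fun j => l (Sum.inr 2) (Sum.inr (some j))) (dx hb l)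
      (dy ha hb l) = l := by
  have hk : ∀ p, l (Sum.inl p) (Sum.inl p) * l (Sum.inr 1) (Sum.inr none) /
      l (Sum.inr 1) (Sum.inl p) = l (Sum.inl p) (Sum.inr none) := by
    intro p
    rw [h.c2 p, mul_div_cancel_right₀ _ (h.o1 p)]
  have hy : ∀ p j, l (Sum.inl p) (Sum.inr (some (Sum.inl j))) =
      dy ha hb l j * l (Sum.inr 2) (Sum.inr (some (Sum.inl j))) * l (Sum.inl p) (Sum.inr none) := by
    intro p j
    have h1 := h.c4 p (⟨0, ha⟩, ⟨0, hb⟩) j
    have h2 := h.m1 (Sum.inl j)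
    have h3 := h.kp (⟨0, ha⟩, ⟨0, hb⟩)
    unfold dy
    rw [div_mul_eq_mul_div, div_mul_eq_mul_div, eq_div_iff (mul_ne_zero h2 h3)]
    linear_combination (l (Sum.inr 2) (Sum.inr (some (Sum.inl j)))) * h1
  have hx : ∀ p : Fin a × Fin b, l (Sum.inr 0) (Sum.inl p) =
      dx hb l p.1 * l (Sum.inr 1) (Sum.inl p) := by
    intro p
    have h1 := h.c3 p (p.1, ⟨0, hb⟩) rfl
    have h2 := h.o1 (p.1, ⟨0, hb⟩)
    unfold dx
    rw [div_mul_eq_mul_div, eq_div_iff h2, h1]
  funext r k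
  rcases r with p | i
  · rcases k with p' | k
    · show (if p = p' then l (Sum.inl p) (Sum.inl p) else 0) = _
      split_ifs with hp
      · rw [hp]
      · exact (h.w0 p p' hp).symm
    · rcases k with _ | (j | m)
      · exact hk p
      · show dy ha hb l j * l (Sum.inr 2) (Sum.inr (some (Sum.inl j))) *
          (l (Sum.inl p) (Sum.inl p) * l (Sum.inr 1) (Sum.inr none) / l (Sum.inr 1) (Sum.inl p)) = _
        rw [hk p, hy p j]
      · show (if p ∈ E m then dy ha hb l p.2 *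
          (l (Sum.inl p) (Sum.inl p) * l (Sum.inr 1) (Sum.inr none) / l (Sum.inr 1) (Sum.inl p)) *
            l (Sum.inr 2) (Sum.inr (some (Sum.inr m))) else 0) = _
        split_ifs with hp
        · have h1 := h.c5 p m hp
          have h2 := h.m1 (Sum.inl p.2)
          rw [hk p]
          apply mul_right_cancel₀ h2
          rw [h1, hy p p.2]
          ring
        · exact (h.c6 p m hp).symm
  · have hi : i = 0 ∨ i = 1 ∨ i = 2 := by
      revert i
      decide
    rcases hi with rfl | rfl | rfl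
    · rcases k with p | k
      · exact (hx p).symm
      · show (0 : K) = _
        rcases k with _ | j
        · exact h.k0.symm
        · exact (h.m2 j).symm
    · rcases k with p | k
      · rfl
      · rcases k with _ | j
        · rfl
        · exact (h.m0 j).symm
    · rcases k with p | k
      · exact (h.t0 p).symm
      · rcases k with _ | j
        · exact h.k2.symm
        · rfl

theorem sol_of (ha : 0 < a) (hb : 0 < b) {l : Row a b → Col a b c → K} (h : Good E l) (m : Fin c) :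
    ∑ e ∈ E m, dx hb l e.1 * dy ha hb l e.2 = 0 := by
  have h1 := h.c7 m
  have h2 := sum_eq E (fun p => l (Sum.inl p) (Sum.inl p)) (fun p => l (Sum.inr 1) (Sum.inl p))
      (l (Sum.inr 1) (Sum.inr none)) (fun j => l (Sum.inr 2) (Sum.inr (some j))) (dx hb l)
      (dy ha hb l) h.w1 h.o1 m
  rw [eq_build E ha hb h, h1] at h2
  exact (mul_eq_zero.1 h2.symm).resolve_left (mul_ne_zero h.k1 (h.m1 (Sum.inr m)))

/-- the bijection -/
def enc (ha : 0 < a) (hb : 0 < b) : {l : Row a b → Col a b c → K // Good E l} ≃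
    ((Fin a × Fin b → {t : K // t ≠ 0}) × (Fin a × Fin b → {t : K // t ≠ 0})) ×
      ({t : K // t ≠ 0} × ((Fin b ⊕ Fin c → {t : K // t ≠ 0}) ×
        {x : (Fin a → K) × (Fin b → K) // ∀ l, ∑ e ∈ E l, x.1 e.1 * x.2 e.2 = 0})) where
  toFun l := ((fun p => ⟨l.1 (Sum.inl p) (Sum.inl p), l.2.w1 p⟩,
    fun p => ⟨l.1 (Sum.inr 1) (Sum.inl p), l.2.o1 p⟩),
    (⟨l.1 (Sum.inr 1) (Sum.inr none), l.2.k1⟩,
      (fun j => ⟨l.1 (Sum.inr 2) (Sum.inr (some j)), l.2.m1 j⟩,
        ⟨(dx hb l.1, dy ha hb l.1), fun m => sol_of E ha hb l.2 m⟩)))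
  invFun z := ⟨build E (fun p => (z.1.1 p).1) (fun p => (z.1.2 p).1) z.2.1.1
    (fun j => (z.2.2.1 j).1) z.2.2.2.1.1 z.2.2.2.1.2,
    good_build E _ _ _ _ _ _ (fun p => (z.1.1 p).2) (fun p => (z.1.2 p).2) z.2.1.2
      (fun j => (z.2.2.1 j).2) z.2.2.2.2⟩
  left_inv l := Subtype.ext (eq_build E ha hb l.2)
  right_inv z := by
    obtain ⟨⟨w, o⟩, ⟨O, s, ⟨⟨x, y⟩, hxy⟩⟩⟩ := z
    refine Prod.ext (Prod.ext (funext fun p => Subtype.ext ?_) rfl)
      (Prod.ext rfl (Prod.ext rfl (Subtype.ext (Prod.ext (funext fun i => ?_) (funext fun j => ?_)))))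
    · show (if p = p then (w p).1 else 0) = (w p).1
      exact if_pos rfl
    · show x i * (o (i, ⟨0, hb⟩)).1 / (o (i, ⟨0, hb⟩)).1 = x i
      exact mul_div_cancel_right₀ _ (o (i, ⟨0, hb⟩)).2
    · have h1 := (w (⟨0, ha⟩, ⟨0, hb⟩)).2
      have h2 := (o (⟨0, ha⟩, ⟨0, hb⟩)).2
      have h3 := O.2
      have h4 := (s (Sum.inl j)).2
      show y j * (s (Sum.inl j)).1 * ((w (⟨0, ha⟩, ⟨0, hb⟩)).1 * O.1 / (o (⟨0, ha⟩, ⟨0, hb⟩)).1) /
        ((s (Sum.inl j)).1 * ((w (⟨0, ha⟩, ⟨0, hb⟩)).1 * O.1 / (o (⟨0, ha⟩, ⟨0, hb⟩)).1)) = y j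
      have h5 : (w (⟨0, ha⟩, ⟨0, hb⟩)).1 * O.1 / (o (⟨0, ha⟩, ⟨0, hb⟩)).1 ≠ 0 :=
        div_ne_zero (mul_ne_zero h1 h3) h2
      rw [mul_assoc, mul_div_cancel_right₀ _ (mul_ne_zero h4 h5)]

theorem card_ne [Finite K] : Nat.card {t : K // t ≠ 0} = Nat.card K - 1 := by
  rw [← Nat.card_congr (unitsEquivNeZero (G₀ := K)), Nat.card_units]

end E2P

open E2P in
/-- **E2.** -/
theorem t_E2 : St_E2 := by
  intro a b c E ha hb K _ _
  rw [Nat.card_congr (enc E ha hb), Nat.card_prod, Nat.card_prod, Nat.card_prod, Nat.card_prod,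
    Nat.card_fun, Nat.card_fun, card_ne]
  have h1 : Nat.card (Fin a × Fin b) = a * b := by
    rw [Nat.card_prod, Nat.card_fin, Nat.card_fin]
  have h2 : Nat.card (Fin b ⊕ Fin c) = b + c := by
    rw [Nat.card_sum, Nat.card_fin, Nat.card_fin]
  rw [h1, h2]
  unfold solN
  ring

end Pool.Agent.NH36.Cz
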