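import Pool.Agent.NH36.Cz.StmL

/-!
# Project CZ: commuting pairs, and invariance under renaming
-/

set_option autoImplicit false

namespace Pool.Agent.NH36.Cz

namespace G1Aux

/-- the underlying set of the group -/
def heisEquiv {α β γ : Type} (T : α → β → γ → ℤ) (K : Type) :
    Heis T K ≃ (α → K) × ((β → K) × (γ → K)) where
  toFun g := (g.v, g.w, g.z)
  invFun x := ⟨x.1, x.2.1, x.2.2⟩
  left_inv _ := rfl
  right_inv _ := rfl

theorem card_heis {α β γ : Type} [Fintype α] [Fintype β] [Fintype γ] (T : α → β → γ → ℤ)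
    (K : Type) : Nat.card (Heis T K) =
      Nat.card K ^ (Fintype.card α + Fintype.card β) * Nat.card K ^ Fintype.card γ := by
  rw [Nat.card_congr (heisEquiv T K), Nat.card_prod, Nat.card_prod, Nat.card_fun, Nat.card_fun,
    Nat.card_fun, Nat.card_eq_fintype_card (α := α), Nat.card_eq_fintype_card (α := β),
    Nat.card_eq_fintype_card (α := γ), pow_add, mul_assoc]

theorem comm_iff {α β γ : Type} [Fintype α] [Fintype β] (T : α → β → γ → ℤ) {K : Type}
    [CommRing K] (g h : Heis T K) :
    Commute g h ↔ ∀ k, bf T g.v h.w k = bf T h.v g.w k := by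
  rw [commute_iff_eq, Heis.ext_iff]
  constructor
  · rintro ⟨_, _, h3⟩ k
    have h4 := congrFun h3 k
    rw [mul_z, mul_z] at h4
    linear_combination h4
  · intro h3
    refine ⟨?_, ?_, ?_⟩
    · rw [mul_v, mul_v, add_comm]
    · rw [mul_w, mul_w, add_comm]
    · funext k
      rw [mul_z, mul_z, h3 k]
      ring

/-- the commuting pairs -/
def pairEquiv {α β γ : Type} [Fintype α] [Fintype β] (T : α → β → γ → ℤ) (K : Type)
    [CommRing K] :
    {p : Heis T K × Heis T K // Commute p.1 p.2} ≃
      {x : ((α → K) × (α → K)) × ((β → K) × (β → K)) //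
        ∀ k, bf T x.1.1 x.2.2 k = bf T x.1.2 x.2.1 k} × ((γ → K) × (γ → K)) where
  toFun p := (⟨((p.1.1.v, p.1.2.v), (p.1.1.w, p.1.2.w)), (comm_iff T _ _).1 p.2⟩,
    (p.1.1.z, p.1.2.z))
  invFun x := ⟨(⟨x.1.1.1.1, x.1.1.2.1, x.2.1⟩, ⟨x.1.1.1.2, x.1.1.2.2, x.2.2⟩),
    (comm_iff T _ _).2 x.1.2⟩
  left_inv _ := rfl
  right_inv _ := rfl

/-- the renaming -/
def ren {α β γ : Type} [Fintype α] [Fintype β] {a b c : ℕ}
    (e₁ : Fin a ≃ α) (e₂ : Fin b ≃ β) (e₃ : Fin c ≃ γ) (T : α → β → γ → ℤ) (K : Type)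
    [CommRing K] : Heis (fun i j k => T (e₁ i) (e₂ j) (e₃ k)) K ≃* Heis T K where
  toFun g := ⟨fun i => g.v (e₁.symm i), fun j => g.w (e₂.symm j), fun k => g.z (e₃.symm k)⟩
  invFun g := ⟨fun i => g.v (e₁ i), fun j => g.w (e₂ j), fun k => g.z (e₃ k)⟩
  left_inv g := by
    refine Heis.ext (funext fun i => ?_) (funext fun i => ?_) (funext fun i => ?_) <;> simp
  right_inv g := by
    refine Heis.ext (funext fun i => ?_) (funext fun i => ?_) (funext fun i => ?_) <;> simp
  map_mul' g h := by
    refine Heis.ext rfl rfl (funext fun k => ?_)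
    rw [mul_z]
    show (g * h).z (e₃.symm k) = _
    rw [mul_z]
    congr 1
    unfold bf
    rw [← Equiv.sum_comp e₁]
    refine Finset.sum_congr rfl fun i _ => ?_
    rw [← Equiv.sum_comp e₂]
    refine Finset.sum_congr rfl fun j _ => ?_
    simp only [Equiv.apply_symm_apply, Equiv.symm_apply_apply]

theorem card_conj {G H : Type*} [Group G] [Group H] (f : G ≃* H) :
    Nat.card (ConjClasses G) = Nat.card (ConjClasses H) := by
  refine Nat.card_eq_of_bijective (ConjClasses.map (f : G →* H)) ⟨?_, ?_⟩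
  · intro x y
    induction x using Quotient.inductionOn with
    | _ x =>
      induction y using Quotient.inductionOn with
      | _ y =>
        intro hxy
        have h1 : ConjClasses.mk (f x) = ConjClasses.mk (f y) := hxy
        rw [ConjClasses.mk_eq_mk_iff_isConj, isConj_iff] at h1
        obtain ⟨c, hc⟩ := h1
        have h2 : ConjClasses.mk x = ConjClasses.mk y := by
          rw [ConjClasses.mk_eq_mk_iff_isConj, isConj_iff]
          refine ⟨f.symm c, f.injective ?_⟩
          rw [map_mul, map_mul, map_inv, f.apply_symm_apply]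
          exact hc
        exact h2
  · exact ConjClasses.map_surjective f.surjective

end G1Aux

open G1Aux in
theorem t_G1 : St_G1 := by
  intro α β γ _ _ _ T K _ _
  have h1 := card_comm_eq_card_conjClasses_mul_card (Heis T K)
  have h2 : Nat.card {p : Heis T K × Heis T K // Commute p.1 p.2} =
      comN T K * (Nat.card K ^ Fintype.card γ * Nat.card K ^ Fintype.card γ) := by
    rw [Nat.card_congr (pairEquiv T K), Nat.card_prod, Nat.card_prod, Nat.card_fun,
      Nat.card_eq_fintype_card (α := γ)]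
    rfl
  have h3 : 0 < Nat.card K ^ Fintype.card γ := pow_pos Nat.card_pos _
  refine Nat.eq_of_mul_eq_mul_right h3 ?_
  rw [card_heis, h2] at h1
  unfold classNumber
  rw [mul_assoc, ← h1]
  ring

open G1Aux in
theorem t_P3 : St_P3 := by
  intro α β γ _ _ _ a b c e₁ e₂ e₃ T K _
  exact card_conj (ren e₁ e₂ e₃ T K)

end Pool.Agent.NH36.Cz
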