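import Pool.Agent.NH36.Cz.StmL

/-!
# Project CZ, part G2: ranks of matrices and transposed matrices
-/

set_option autoImplicit false
set_option linter.unusedSectionVars false

namespace Pool.Agent.NH36.Cz

namespace G2P

theorem kerT {g d K : Type} [Fintype g] [Fintype d] [Field K] [Finite K] (N : Matrix g d K) :
    Nat.card {z : d → K // N.mulVec z = 0} * Nat.card K ^ Fintype.card g =
      Nat.card {l : g → K // N.transpose.mulVec l = 0} * Nat.card K ^ Fintype.card d := by
  classical
  have h1 : ∀ {g d : Type} [Fintype g] [Fintype d] (N : Matrix g d K),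
      Nat.card {z : d → K // N.mulVec z = 0} * Nat.card K ^ N.rank =
        Nat.card K ^ Fintype.card d := by
    intro g d _ _ N
    have h2 : Nat.card {z : d → K // N.mulVec z = 0} =
        Nat.card (LinearMap.ker N.mulVecLin) :=
      Nat.card_congr (Equiv.subtypeEquiv (Equiv.refl _) (fun z => by
        rw [LinearMap.mem_ker, Matrix.mulVecLin_apply]; rfl))
    have h3 := LinearMap.finrank_range_add_finrank_ker N.mulVecLin
    rw [Module.finrank_fintype_fun_eq_card] at h3
    rw [h2, Module.natCard_eq_pow_finrank (K := K) (V := LinearMap.ker N.mulVecLin), ← pow_add]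
    congr 1
    rw [← h3, Matrix.rank, add_comm]
  have hK : 0 < Nat.card K := Nat.card_pos
  have e1 := h1 N
  have e2 := h1 N.transpose
  rw [Matrix.rank_transpose] at e2
  have hr : 0 < Nat.card K ^ N.rank := pow_pos hK _
  apply Nat.eq_of_mul_eq_mul_right hr
  calc _ = (Nat.card {z : d → K // N.mulVec z = 0} * Nat.card K ^ N.rank) *
        Nat.card K ^ Fintype.card g := by ring
    _ = (Nat.card {l : g → K // N.transpose.mulVec l = 0} * Nat.card K ^ N.rank) *
        Nat.card K ^ Fintype.card d := by rw [e1, e2]; ring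
    _ = _ := by ring

variable {α β γ : Type} [Fintype α] [Fintype β] [Fintype γ] (T : α → β → γ → ℤ) {K : Type}
  [Field K]

/-- the matrix of the system -/
def Nm (y : (α → K) × (α → K)) : Matrix γ (β ⊕ β) K := fun k j =>
  Sum.elim (fun j => -∑ i, (T i j k : K) * y.2 i) (fun j => ∑ i, (T i j k : K) * y.1 i) j

theorem Nm_mul (y : (α → K) × (α → K)) (z : β ⊕ β → K) (k : γ) :
    (Nm T y).mulVec z k =
      bf T y.1 (fun j => z (Sum.inr j)) k - bf T y.2 (fun j => z (Sum.inl j)) k := by
  simp only [Matrix.mulVec, dotProduct, Fintype.sum_sum_type, Nm, Sum.elim_inl, Sum.elim_inr, bf]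
  rw [Finset.sum_comm (f := fun i j => (T i j k : K) * y.1 i * z (Sum.inr j)),
    Finset.sum_comm (f := fun i j => (T i j k : K) * y.2 i * z (Sum.inl j))]
  simp only [neg_mul, Finset.sum_neg_distrib, Finset.sum_mul]
  ring

theorem Nm_tr (y : (α → K) × (α → K)) (l : γ → K) :
    (Nm T y).transpose.mulVec l = 0 ↔ ∀ j, ∑ i, ∑ k, (T i j k : K) * l k * y.1 i = 0 ∧
      ∑ i, ∑ k, (T i j k : K) * l k * y.2 i = 0 := by
  have h1 : ∀ j, (Nm T y).transpose.mulVec l (Sum.inr j) =
      ∑ i, ∑ k, (T i j k : K) * l k * y.1 i := by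
    intro j
    simp only [Matrix.mulVec, dotProduct, Matrix.transpose_apply, Nm, Sum.elim_inr]
    rw [Finset.sum_comm]
    refine Finset.sum_congr rfl fun k _ => ?_
    rw [Finset.sum_mul]
    exact Finset.sum_congr rfl fun i _ => by ring
  have h2 : ∀ j, (Nm T y).transpose.mulVec l (Sum.inl j) =
      -∑ i, ∑ k, (T i j k : K) * l k * y.2 i := by
    intro j
    simp only [Matrix.mulVec, dotProduct, Matrix.transpose_apply, Nm, Sum.elim_inl]
    rw [Finset.sum_comm, ← Finset.sum_neg_distrib]
    refine Finset.sum_congr rfl fun k _ => ?_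
    rw [neg_mul, Finset.sum_mul]
    congr 1
    exact Finset.sum_congr rfl fun i _ => by ring
  constructor
  · intro h j
    refine ⟨by rw [← h1, h]; rfl, ?_⟩
    rw [← neg_eq_zero, ← h2, h]
    rfl
  · intro h
    funext j
    rcases j with j | j
    · rw [h2, (h j).2, neg_zero]; rfl
    · rw [h1, (h j).1]; rfl

end G2P

open G2P in
theorem t_G2 : St_G2 := by
  intro α β γ _ _ _ T K _ _
  classical
  have : Fintype K := Fintype.ofFinite K
  have e1 : comN T K = ∑ y : (α → K) × (α → K), Nat.card {z : β ⊕ β → K // (Nm T y).mulVec z = 0} := by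
    unfold comN
    rw [Nat.card_congr (Equiv.subtypeProdEquivSigmaSubtype
      (fun (y : (α → K) × (α → K)) (z : (β → K) × (β → K)) =>
        ∀ k, bf T y.1 z.2 k = bf T y.2 z.1 k)), Nat.card_sigma]
    refine Finset.sum_congr rfl fun y _ => Nat.card_congr
      (Equiv.subtypeEquiv (Equiv.sumArrowEquivProdArrow β β K).symm fun z => ?_)
    constructor
    · intro h
      funext k
      rw [Nm_mul]
      exact sub_eq_zero.2 (h k)
    · intro h k
      have := congrFun h k
      rw [Nm_mul] at this
      exact sub_eq_zero.1 this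
  have e2 : sqN T K = ∑ y : (α → K) × (α → K),
      Nat.card {l : γ → K // (Nm T y).transpose.mulVec l = 0} := by
    unfold sqN
    refine (Nat.card_congr ((Equiv.subtypeEquiv (Equiv.prodComm (γ → K) ((α → K) × (α → K)))
      (fun _ => Iff.rfl)).trans (Equiv.subtypeProdEquivSigmaSubtype
        (fun (y : (α → K) × (α → K)) (l : γ → K) =>
          ∀ j, ∑ i, ∑ k, (T i j k : K) * l k * y.1 i = 0 ∧
            ∑ i, ∑ k, (T i j k : K) * l k * y.2 i = 0)))).trans ?_
    rw [Nat.card_sigma]
    exact Finset.sum_congr rfl fun y _ => Nat.card_congr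
      (Equiv.subtypeEquiv (Equiv.refl _) fun l => (Nm_tr T y l).symm)
  rw [e1, e2, Finset.sum_mul, Finset.sum_mul]
  refine Finset.sum_congr rfl fun y _ => ?_
  have h := kerT (Nm T y)
  rw [Fintype.card_sum, ← two_mul] at h
  exact h

end Pool.Agent.NH36.Cz
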