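import Pool.Agent.NH36.Cz.StmL

/-!
# Project CZ, part G3: counting (helper54)
-/

set_option autoImplicit false
set_option maxHeartbeats 1000000

namespace Pool.Agent.NH36.Cz

namespace G3P

section gen

variable {α β γ : Type} [Fintype α] [Fintype γ] (T : α → β → γ → ℤ) {K : Type} [Field K]

/-- the vector `v` is in the kernel of `l ∘ T` -/
def Ker (l : γ → K) (v : α → K) : Prop := ∀ j, ∑ i, ∑ k, (T i j k : K) * l k * v i = 0

theorem sqN_eq [Fintype K] [DecidableEq γ] :
    sqN T K = ∑ l : γ → K, Nat.card {v : α → K // Ker T l v} ^ 2 := by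
  have e : {x : (γ → K) × ((α → K) × (α → K)) //
      ∀ j, ∑ i, ∑ k, (T i j k : K) * x.1 k * x.2.1 i = 0 ∧
        ∑ i, ∑ k, (T i j k : K) * x.1 k * x.2.2 i = 0} ≃
      (l : γ → K) × ({v : α → K // Ker T l v} × {v : α → K // Ker T l v}) :=
    { toFun := fun x => ⟨x.1.1, ⟨x.1.2.1, fun j => (x.2 j).1⟩, ⟨x.1.2.2, fun j => (x.2 j).2⟩⟩
      invFun := fun y => ⟨(y.1, (y.2.1.1, y.2.2.1)), fun j => ⟨y.2.1.2 j, y.2.2.2 j⟩⟩
      left_inv := fun x => rfl
      right_inv := fun y => rfl }
  unfold sqN
  rw [Nat.card_congr e, Nat.card_sigma]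
  refine Finset.sum_congr rfl fun l _ => ?_
  rw [Nat.card_prod, pow_two]

end gen

section forms

variable {a b c : ℕ} (E : Fin c → Finset (Fin a × Fin b)) {K : Type} [Field K]

theorem sum_inl (l : Option (Fin a ⊕ Fin b) → K) (v : Option (Fin b) → K) (j : Fin b) :
    ∑ i, ∑ k, (T1 E i (Sum.inl j) k : K) * l k * v i =
      l none * v (some j) + l (some (Sum.inr j)) * v none := by
  simp [Fintype.sum_option, Fintype.sum_sum_type, T1]
  ring

theorem sum_inr (l : Option (Fin a ⊕ Fin b) → K) (v : Option (Fin b) → K) (m : Fin c) :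
    ∑ i, ∑ k, (T1 E i (Sum.inr m) k : K) * l k * v i =
      ∑ e ∈ E m, l (some (Sum.inl e.1)) * v (some e.2) := by
  have h : ∑ e ∈ E m, l (some (Sum.inl e.1)) * v (some e.2) =
      ∑ e : Fin a × Fin b, if e ∈ E m then l (some (Sum.inl e.1)) * v (some e.2) else 0 := by
    rw [Finset.sum_ite_mem, Finset.univ_inter]
  rw [h, Fintype.sum_prod_type_right]
  simp [Fintype.sum_option, Fintype.sum_sum_type, T1]

theorem ker1_iff (l : Option (Fin a ⊕ Fin b) → K) (v : Option (Fin b) → K) :
    Ker (T1 E) l v ↔ (∀ j, l none * v (some j) + l (some (Sum.inr j)) * v none = 0) ∧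
      ∀ m, ∑ e ∈ E m, l (some (Sum.inl e.1)) * v (some e.2) = 0 := by
  constructor
  · intro h
    exact ⟨fun j => (sum_inl E l v j).symm.trans (h (Sum.inl j)),
      fun m => (sum_inr E l v m).symm.trans (h (Sum.inr m))⟩
  · rintro ⟨h1, h2⟩ (j | m)
    · exact (sum_inl E l v j).trans (h1 j)
    · exact (sum_inr E l v m).trans (h2 m)

theorem ker2_iff (l : Option (Fin a ⊕ Fin b) → K) (v : Option (Fin b) → K) :
    Ker (T2 E) l v ↔ l none * v none = 0 ∧ Ker (T1 E) l v := by
  have h0 : ∑ i, ∑ k, (T2 E i none k : K) * l k * v i = l none * v none := by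
    simp [Fintype.sum_option, T2]
  have h1 : ∀ j, ∑ i, ∑ k, (T2 E i (some j) k : K) * l k * v i =
      ∑ i, ∑ k, (T1 E i j k : K) * l k * v i := by
    intro j
    refine Finset.sum_congr rfl fun i _ => Finset.sum_congr rfl fun k _ => ?_
    have : T2 E i (some j) k = T1 E i j k := by
      rcases i with _ | i <;> rcases k with _ | k <;> rfl
    rw [this]
  constructor
  · intro h
    exact ⟨h0.symm.trans (h none), fun j => (h1 j).symm.trans (h (some j))⟩
  · rintro ⟨h2, h3⟩ (_ | j)
    · exact h0.trans h2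
    · exact (h1 j).trans (h3 j)

/-- the pair `(x, y)` of `l` is a solution -/
def Sol (l : Option (Fin a ⊕ Fin b) → K) : Prop :=
  ∀ m, ∑ e ∈ E m, l (some (Sum.inl e.1)) * l (some (Sum.inr e.2)) = 0

/-- for `t ≠ 0` the vectors of the kernel are determined by `v none` -/
theorem ker1_ne {l : Option (Fin a ⊕ Fin b) → K} (ht : l none ≠ 0) (v : Option (Fin b) → K) :
    Ker (T1 E) l v ↔ (∀ j, v (some j) = -(l (some (Sum.inr j)) * v none) / l none) ∧
      (v none = 0 ∨ Sol E l) := by
  rw [ker1_iff]
  have h1 : (∀ j, l none * v (some j) + l (some (Sum.inr j)) * v none = 0) ↔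
      ∀ j, v (some j) = -(l (some (Sum.inr j)) * v none) / l none := by
    refine forall_congr' fun j => ?_
    rw [eq_div_iff ht]
    constructor
    · intro h
      linear_combination h
    · intro h
      linear_combination h
  rw [h1]
  refine and_congr_right fun h => ?_
  have h2 : ∀ m, ∑ e ∈ E m, l (some (Sum.inl e.1)) * v (some e.2) =
      -(v none / l none) * ∑ e ∈ E m, l (some (Sum.inl e.1)) * l (some (Sum.inr e.2)) := by
    intro m
    rw [Finset.mul_sum]
    refine Finset.sum_congr rfl fun e _ => ?_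
    rw [h e.2]
    ring
  constructor
  · intro h3
    by_cases hv : v none = 0
    · exact Or.inl hv
    · right
      intro m
      have h4 := (h2 m).symm.trans (h3 m)
      rcases mul_eq_zero.1 h4 with h5 | h5
      · exact absurd (neg_eq_zero.1 h5) (div_ne_zero hv ht)
      · exact h5
  · intro h3 m
    rw [h2 m]
    rcases h3 with h4 | h4
    · rw [h4, zero_div, neg_zero, zero_mul]
    · rw [h4 m, mul_zero]

theorem card_zero {p : (Option (Fin b) → K) → Prop} (h : ∀ v, p v ↔ v = 0) :
    Nat.card {v : Option (Fin b) → K // p v} = 1 := by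
  rw [Nat.card_eq_one_iff_unique]
  refine ⟨⟨fun x y => Subtype.ext ?_⟩, ⟨⟨0, (h 0).2 rfl⟩⟩⟩
  rw [(h x.1).1 x.2, (h y.1).1 y.2]

theorem zero_iff {l : Option (Fin a ⊕ Fin b) → K} (v : Option (Fin b) → K) :
    ((∀ j, v (some j) = -(l (some (Sum.inr j)) * v none) / l none) ∧ v none = 0) ↔ v = 0 := by
  constructor
  · rintro ⟨h1, h2⟩
    funext j
    rcases j with _ | j
    · exact h2
    · rw [h1 j, h2]
      simp
  · rintro rfl
    simp

open Classical in
theorem card_l (l : Option (Fin a ⊕ Fin b) → K) :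
    (Nat.card {v : Option (Fin b) → K // Ker (T1 E) l v} : ℤ) ^ 2 =
      (Nat.card {v : Option (Fin b) → K // Ker (T2 E) l v} : ℤ) ^ 2 +
        if l none ≠ 0 ∧ Sol E l then (Nat.card K : ℤ) ^ 2 - 1 else 0 := by
  by_cases ht : l none = 0
  · rw [if_neg (fun h => h.1 ht), add_zero]
    have h1 : ∀ v : Option (Fin b) → K, Ker (T2 E) l v ↔ Ker (T1 E) l v := by
      intro v
      rw [ker2_iff, ht, zero_mul]
      simp
    have h2 : Nat.card {v : Option (Fin b) → K // Ker (T2 E) l v} =
        Nat.card {v : Option (Fin b) → K // Ker (T1 E) l v} :=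
      Nat.card_congr (Equiv.subtypeEquivRight h1)
    rw [h2]
  · have h2 : Nat.card {v : Option (Fin b) → K // Ker (T2 E) l v} = 1 := by
      apply card_zero
      intro v
      rw [ker2_iff, ker1_ne E ht, ← zero_iff (l := l) v]
      constructor
      · rintro ⟨h1, h2, h3⟩
        exact ⟨h2, (mul_eq_zero.1 h1).resolve_left ht⟩
      · rintro ⟨h1, h2⟩
        exact ⟨by rw [h2, mul_zero], h1, Or.inl h2⟩
    rw [h2]
    by_cases hs : Sol E l
    · rw [if_pos ⟨ht, hs⟩]
      have e : {v : Option (Fin b) → K // Ker (T1 E) l v} ≃ K :=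
        { toFun := fun v => v.1 none
          invFun := fun z => ⟨fun j => match j with
            | none => z
            | some j => -(l (some (Sum.inr j)) * z) / l none,
            (ker1_ne E ht _).2 ⟨fun j => rfl, Or.inr hs⟩⟩
          left_inv := fun v => Subtype.ext (funext fun j => by
            rcases j with _ | j
            · rfl
            · exact (((ker1_ne E ht _).1 v.2).1 j).symm)
          right_inv := fun z => rfl }
      rw [Nat.card_congr e]
      push_cast
      ring
    · rw [if_neg (fun h => hs h.2)]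
      have h3 : Nat.card {v : Option (Fin b) → K // Ker (T1 E) l v} = 1 := by
        apply card_zero
        intro v
        rw [ker1_ne E ht, ← zero_iff (l := l) v]
        simp only [hs, or_false]
      rw [h3]
      norm_num

theorem card_sol [Finite K] :
    Nat.card {l : Option (Fin a ⊕ Fin b) → K // l none ≠ 0 ∧ Sol E l} =
      (Nat.card K - 1) * solN E K := by
  have e : {l : Option (Fin a ⊕ Fin b) → K // l none ≠ 0 ∧ Sol E l} ≃
      {t : K // t ≠ 0} × {x : (Fin a → K) × (Fin b → K) // ∀ l, ∑ e ∈ E l, x.1 e.1 * x.2 e.2 = 0} :=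
    { toFun := fun l => (⟨l.1 none, l.2.1⟩,
        ⟨(fun i => l.1 (some (Sum.inl i)), fun j => l.1 (some (Sum.inr j))), l.2.2⟩)
      invFun := fun y => ⟨fun k => match k with
        | none => y.1.1
        | some (Sum.inl i) => y.2.1.1 i
        | some (Sum.inr j) => y.2.1.2 j, ⟨y.1.2, y.2.2⟩⟩
      left_inv := fun l => Subtype.ext (funext fun k => by
        rcases k with _ | i | j <;> rfl)
      right_inv := fun y => rfl }
  rw [Nat.card_congr e, Nat.card_prod, ← Nat.card_congr (unitsEquivNeZero (G₀ := K)),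
    Nat.card_units]
  rfl

end forms

end G3P

open G3P in
theorem t_G3 : St_G3 := by
  classical
  intro a b c E K _ _
  have : Fintype K := Fintype.ofFinite K
  rw [sqN_eq, sqN_eq]
  push_cast
  rw [Finset.sum_congr rfl fun l _ => card_l E l, Finset.sum_add_distrib, ← Finset.sum_filter,
    Finset.sum_const]
  have h1 : (Finset.univ.filter fun l : Option (Fin a ⊕ Fin b) → K => l none ≠ 0 ∧ Sol E l).card =
      (Nat.card K - 1) * solN E K := by
    rw [← card_sol, Nat.card_eq_fintype_card, Fintype.card_subtype]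
  have hq : 1 ≤ Nat.card K := Nat.card_pos
  rw [h1, nsmul_eq_mul]
  push_cast [Nat.cast_sub hq]
  ring

end Pool.Agent.NH36.Cz
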