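import Pool.Agent.NH36.Cz.StmL

/-!
# Project CZ, part G4: the forms are sparse
-/

set_option autoImplicit false

namespace Pool.Agent.NH36.Cz

namespace G4aux

variable {a b c : ℕ} (E : Fin c → Finset (Fin a × Fin b))

lemma T1_01 (i : Option (Fin b)) (j : Fin b ⊕ Fin c) (k : Option (Fin a ⊕ Fin b)) :
    T1 E i j k = 0 ∨ T1 E i j k = 1 := by
  rcases i with _ | i <;> rcases j with j | l <;> rcases k with _ | (i' | j') <;>
    first | exact Or.inl rfl | (simp only [T1]; split_ifs <;> simp)

lemma T2_some (i : Option (Fin b)) (j : Fin b ⊕ Fin c) (k : Option (Fin a ⊕ Fin b)) :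
    T2 E i (some j) k = T1 E i j k := by
  rcases i with _ | i <;> rcases k with _ | k <;> rfl

lemma T2_none (i : Option (Fin b)) (k : Option (Fin a ⊕ Fin b)) :
    T2 E i none k = 0 ∨ (T2 E i none k = 1 ∧ i = none ∧ k = none) := by
  rcases i with _ | i <;> rcases k with _ | k
  · exact Or.inr ⟨rfl, rfl, rfl⟩
  · exact Or.inl rfl
  · exact Or.inl rfl
  · exact Or.inl rfl

lemma T1_inl (j0 : Fin b) :
    {x : Option (Fin b) × Option (Fin a ⊕ Fin b) | T1 E x.1 (Sum.inl j0) x.2 ≠ 0} ⊆
      {(some j0, none), (none, some (Sum.inr j0))} := by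
  rintro ⟨i, k⟩ h
  rcases i with _ | i <;> rcases k with _ | (i' | j')
  · exact absurd rfl h
  · exact absurd rfl h
  · by_cases h1 : j' = j0
    · subst h1
      right
      rfl
    · exact absurd (if_neg h1) h
  · by_cases h1 : i = j0
    · subst h1
      left
      rfl
    · exact absurd (if_neg h1) h
  · exact absurd rfl h
  · exact absurd rfl h

lemma T1_inr (l : Fin c) :
    {x : Option (Fin b) × Option (Fin a ⊕ Fin b) | T1 E x.1 (Sum.inr l) x.2 ≠ 0} ⊆
      (fun e : Fin a × Fin b => ((some e.2, some (Sum.inl e.1)) :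
        Option (Fin b) × Option (Fin a ⊕ Fin b))) '' (E l : Set (Fin a × Fin b)) := by
  rintro ⟨i, k⟩ h
  rcases i with _ | i <;> rcases k with _ | (i' | j')
  · exact absurd rfl h
  · exact absurd rfl h
  · exact absurd rfl h
  · exact absurd rfl h
  · by_cases h1 : (i', i) ∈ E l
    · exact ⟨(i', i), h1, rfl⟩
    · exact absurd (if_neg h1) h
  · exact absurd rfl h

lemma T1_card (hE : ∀ l, (E l).card ≤ 3) (j : Fin b ⊕ Fin c) :
    Set.ncard {x : Option (Fin b) × Option (Fin a ⊕ Fin b) | T1 E x.1 j x.2 ≠ 0} ≤ 3 := by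
  rcases j with j0 | l
  · have h1 := Set.ncard_le_ncard (T1_inl E j0) (Set.toFinite _)
    have h2 := Set.ncard_insert_le ((some j0, none) : Option (Fin b) × Option (Fin a ⊕ Fin b))
      {(none, some (Sum.inr j0))}
    rw [Set.ncard_singleton] at h2
    omega
  · have h1 := Set.ncard_le_ncard (T1_inr E l) (Set.toFinite _)
    have h2 := Set.ncard_image_le (f := fun e : Fin a × Fin b =>
      ((some e.2, some (Sum.inl e.1)) : Option (Fin b) × Option (Fin a ⊕ Fin b)))
      (s := (E l : Set (Fin a × Fin b))) (Set.toFinite _)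
    rw [Set.ncard_coe_finset] at h2
    have h3 := hE l
    omega

end G4aux

open G4aux in
theorem t_G4 : St_G4 := by
  intro a b c E hE
  refine ⟨T1_01 E, ?_, T1_card E hE, ?_⟩
  · intro i j k
    rcases j with _ | j
    · rcases T2_none E i k with h | ⟨h, -, -⟩
      · exact Or.inl h
      · exact Or.inr h
    · rw [T2_some]
      exact T1_01 E i j k
  · intro j
    rcases j with _ | j
    · have h1 : {x : Option (Fin b) × Option (Fin a ⊕ Fin b) | T2 E x.1 none x.2 ≠ 0} ⊆
          {(none, none)} := by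
        rintro ⟨i, k⟩ h
        rcases T2_none E i k with h2 | ⟨-, h2, h3⟩
        · exact absurd h2 h
        · subst h2
          subst h3
          rfl
      have h2 := Set.ncard_le_ncard h1 (Set.toFinite _)
      rw [Set.ncard_singleton] at h2
      omega
    · simp only [T2_some]
      exact T1_card E hE j

end Pool.Agent.NH36.Cz
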