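import Pool.Agent.NH36.Cz.StmG
import Pool.Agent.NH36.Cz.G3

/-!
# Project CZ, part G5: counting with monomials
-/

set_option autoImplicit false
set_option maxHeartbeats 1000000

open MvPolynomial

namespace Pool.Agent.NH36.Cz

namespace G5P

open G3P (Ker sqN_eq)

variable {N D : ℕ} {κ : Type} (g : κ → MvPolynomial (Fin N) ℤ) {K : Type} [Field K]

/-- `n + e_i` -/
def up (n : Ep N D) (i : Fin N) (h : (n i : ℕ) < D) : Ep N D :=
  Function.update n i ⟨(n i : ℕ) + 1, by omega⟩

theorem nx_iff (n : Ep N D) (i : Fin N) (h : (n i : ℕ) < D) (m : Ep N D) :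
    Nx n i m ↔ m = up n i h := by
  constructor
  · rintro ⟨h1, h2⟩
    funext i'
    by_cases hi : i' = i
    · subst hi
      apply Fin.ext
      rw [h1]
      simp [up]
    · rw [h2 i' hi]
      simp [up, hi]
  · rintro rfl
    refine ⟨by simp [up], fun i' hi => by simp [up, hi]⟩

open Classical in
theorem sum_nx (n : Ep N D) (i : Fin N) (h : (n i : ℕ) < D) (v : Ep N D → K) :
    ∑ m, (if Nx n i m then v m else 0) = v (up n i h) := by
  rw [Finset.sum_eq_single (up n i h)]
  · rw [if_pos ((nx_iff n i h _).2 rfl)]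
  · intro m _ hm
    rw [if_neg (fun h' => hm ((nx_iff n i h m).1 h'))]
  · intro h'
    exact absurd (Finset.mem_univ _) h'

open Classical in
theorem sum_nx' (n : Ep N D) (i : Fin N) (h : ¬ (n i : ℕ) < D) (v : Ep N D → K) :
    ∑ m, (if Nx n i m then v m else 0) = 0 := by
  refine Finset.sum_eq_zero fun m _ => ?_
  rw [if_neg]
  rintro ⟨h1, -⟩
  have := (m i).2
  omega

open Classical in
theorem sum_inl (l : Option (Fin N) → K) (v : Ep N D → K) (n : Ep N D) (i : Fin N) :
    ∑ m, ∑ k, (U1 D g m (Sum.inl (n, i)) k : K) * l k * v m =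
      l none * (∑ m, if Nx n i m then v m else 0) -
        (if (n i : ℕ) < D then l (some i) * v n else 0) := by
  have h1 : ∀ m, ∑ k, (U1 D g m (Sum.inl (n, i)) k : K) * l k * v m =
      l none * (if Nx n i m then v m else 0) +
        if m = n then (if (n i : ℕ) < D then -(l (some i) * v n) else 0) else 0 := by
    intro m
    rw [Fintype.sum_option]
    congr 1
    · simp only [U1]
      split_ifs <;> simp
    · rw [Finset.sum_eq_single i]
      · simp only [U1]
        by_cases hm : m = n
        · subst hm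
          by_cases hD : (m i : ℕ) < D
          · simp [hD]
          · simp [hD]
        · simp [hm]
      · intro i' _ hi'
        simp [U1, hi']
      · intro h'
        exact absurd (Finset.mem_univ _) h'
  rw [Finset.sum_congr rfl fun m _ => h1 m, Finset.sum_add_distrib, ← Finset.mul_sum,
    Finset.sum_ite_eq' Finset.univ n, if_pos (Finset.mem_univ n)]
  split_ifs
  · ring
  · ring

theorem sum_inr (l : Option (Fin N) → K) (v : Ep N D → K) (k : κ) :
    ∑ m, ∑ k', (U1 D g m (Sum.inr k) k' : K) * l k' * v m =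
      l none * ∑ m, (((g k).coeff (toF m) : ℤ) : K) * v m := by
  rw [Finset.mul_sum]
  refine Finset.sum_congr rfl fun m _ => ?_
  rw [Fintype.sum_option]
  simp only [U1, Int.cast_zero, zero_mul, Finset.sum_const_zero, add_zero]
  ring

theorem ker1_iff (l : Option (Fin N) → K) (v : Ep N D → K) :
    Ker (U1 D g) l v ↔
      (∀ (n : Ep N D) (i : Fin N) (h : (n i : ℕ) < D), l none * v (up n i h) = l (some i) * v n) ∧
      ∀ k, l none * ∑ m, (((g k).coeff (toF m) : ℤ) : K) * v m = 0 := by
  classical
  constructor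
  · intro h
    refine ⟨fun n i hi => ?_, fun k => (sum_inr g l v k).symm.trans (h (Sum.inr k))⟩
    have h1 := (sum_inl g l v n i).symm.trans (h (Sum.inl (n, i)))
    rw [sum_nx n i hi, if_pos hi] at h1
    exact sub_eq_zero.1 h1
  · rintro ⟨h1, h2⟩ (⟨n, i⟩ | k)
    · refine (sum_inl g l v n i).trans ?_
      by_cases hi : (n i : ℕ) < D
      · rw [sum_nx n i hi, if_pos hi, h1 n i hi, sub_self]
      · rw [sum_nx' n i hi, if_neg hi, mul_zero, sub_zero]
    · exact (sum_inr g l v k).trans (h2 k)

theorem ker2_iff (l : Option (Fin N) → K) (v : Ep N D → K) :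
    Ker (U2 D g) l v ↔ l none * v 0 = 0 ∧ Ker (U1 D g) l v := by
  classical
  have h0 : ∑ i, ∑ k, (U2 D g i none k : K) * l k * v i = l none * v 0 := by
    have h1 : ∀ m : Ep N D, ∑ k, (U2 D g m none k : K) * l k * v m =
        if m = 0 then l none * v 0 else 0 := by
      intro m
      rw [Fintype.sum_option]
      simp only [U2, Int.cast_zero, zero_mul, Finset.sum_const_zero, add_zero]
      by_cases hm : m = 0
      · subst hm
        simp
      · simp [hm]
    rw [Finset.sum_congr rfl fun m _ => h1 m, Finset.sum_ite_eq' Finset.univ (0 : Ep N D),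
      if_pos (Finset.mem_univ _)]
  have h1 : ∀ j, ∑ i, ∑ k, (U2 D g i (some j) k : K) * l k * v i =
      ∑ i, ∑ k, (U1 D g i j k : K) * l k * v i := by
    intro j
    refine Finset.sum_congr rfl fun i _ => Finset.sum_congr rfl fun k _ => ?_
    have : U2 D g i (some j) k = U1 D g i j k := by
      rcases k with _ | k <;> rfl
    rw [this]
  constructor
  · intro h
    exact ⟨h0.symm.trans (h none), fun j => (h1 j).symm.trans (h (some j))⟩
  · rintro ⟨h2, h3⟩ (_ | j)
    · exact h0.trans h2
    · exact (h1 j).trans (h3 j)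

/-- monomials -/
def mon (x : Fin N → K) (m : Ep N D) : K := ∏ i, x i ^ (m i : ℕ)

theorem mon_zero (x : Fin N → K) : mon x (0 : Ep N D) = 1 := by
  simp [mon]

theorem mon_up (x : Fin N → K) (n : Ep N D) (i : Fin N) (h : (n i : ℕ) < D) :
    mon x (up n i h) = x i * mon x n := by
  unfold mon
  rw [← Finset.mul_prod_erase Finset.univ _ (Finset.mem_univ i),
    ← Finset.mul_prod_erase Finset.univ (fun i' => x i' ^ (n i' : ℕ)) (Finset.mem_univ i)]
  have h1 : ((up n i h) i : ℕ) = n i + 1 := by simp [up]
  have h2 : ∏ i' ∈ Finset.univ.erase i, x i' ^ ((up n i h) i' : ℕ) =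
      ∏ i' ∈ Finset.univ.erase i, x i' ^ (n i' : ℕ) := by
    refine Finset.prod_congr rfl fun i' hi' => ?_
    have hne := Finset.ne_of_mem_erase hi'
    simp [up, hne]
  rw [h1, h2]
  ring

theorem toF_apply (m : Ep N D) (i : Fin N) : toF m i = (m i : ℕ) := rfl

theorem toF_inj : Function.Injective (toF : Ep N D → Fin N →₀ ℕ) := by
  intro m m' h
  funext i
  apply Fin.ext
  rw [← toF_apply, ← toF_apply, h]

theorem aeval_mon (x : Fin N → K) (P : MvPolynomial (Fin N) ℤ)
    (hP : ∀ m ∈ P.support, ∀ i, m i ≤ D) :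
    aeval x P = ∑ m : Ep N D, ((P.coeff (toF m) : ℤ) : K) * mon x m := by
  classical
  rw [aeval_def, eval₂_eq']
  have h1 : P.support ⊆ Finset.univ.image (toF : Ep N D → Fin N →₀ ℕ) := by
    intro d hd
    rw [Finset.mem_image]
    refine ⟨fun i => ⟨d i, by have := hP d hd i; omega⟩, Finset.mem_univ _, ?_⟩
    ext i
    rfl
  rw [Finset.sum_subset h1, Finset.sum_image (fun a _ b _ h => toF_inj h)]
  · refine Finset.sum_congr rfl fun m _ => ?_
    rw [eq_intCast]
    rfl
  · intro d _ hd
    rw [notMem_support_iff.1 hd, map_zero, zero_mul]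

/-- the point `z / t` is a common zero -/
def Sol (l : Option (Fin N) → K) : Prop :=
  ∀ k, aeval (fun i => l (some i) / l none) (g k) = 0

theorem v_eq {l : Option (Fin N) → K} (ht : l none ≠ 0) {v : Ep N D → K}
    (h : ∀ (n : Ep N D) (i : Fin N) (h : (n i : ℕ) < D),
      l none * v (up n i h) = l (some i) * v n) (s : ℕ) :
    ∀ m : Ep N D, ∑ i, (m i : ℕ) = s → v m = v 0 * mon (fun i => l (some i) / l none) m := by
  induction s with
  | zero =>
    intro m hm
    have h1 : m = 0 := by
      funext i
      apply Fin.ext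
      have := (Finset.sum_eq_zero_iff.1 hm) i (Finset.mem_univ i)
      simpa using this
    rw [h1, mon_zero, mul_one]
  | succ s ih =>
    intro m hm
    obtain ⟨i, hi⟩ : ∃ i, 0 < (m i : ℕ) := by
      by_contra hcon
      push Not at hcon
      have : ∑ i, (m i : ℕ) = 0 := Finset.sum_eq_zero fun i _ => by
        have := hcon i
        omega
      omega
    have hmi := (m i).2
    obtain ⟨n, hn⟩ : ∃ n : Ep N D, n = Function.update m i ⟨(m i : ℕ) - 1, by omega⟩ := ⟨_, rfl⟩
    have hni : (n i : ℕ) = (m i : ℕ) - 1 := by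
      rw [hn]
      simp
    have hnj : ∀ j, j ≠ i → n j = m j := by
      intro j hj
      rw [hn]
      simp [hj]
    have hlt : (n i : ℕ) < D := by omega
    have hup : up n i hlt = m := by
      symm
      rw [← nx_iff n i hlt]
      exact ⟨by omega, fun j hj => (hnj j hj).symm⟩
    have hsum : ∑ j, (n j : ℕ) = s := by
      have e1 := Finset.add_sum_erase Finset.univ (fun j => (m j : ℕ)) (Finset.mem_univ i)
      have e2 := Finset.add_sum_erase Finset.univ (fun j => (n j : ℕ)) (Finset.mem_univ i)
      have e3 : ∑ j ∈ Finset.univ.erase i, (n j : ℕ) = ∑ j ∈ Finset.univ.erase i, (m j : ℕ) :=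
        Finset.sum_congr rfl fun j hj => by rw [hnj j (Finset.ne_of_mem_erase hj)]
      omega
    have h1 := h n i hlt
    rw [hup, ih n hsum] at h1
    have h2 : mon (fun i => l (some i) / l none) m =
        l (some i) / l none * mon (fun i => l (some i) / l none) n := by
      rw [← hup, mon_up]
    rw [h2]
    apply mul_left_cancel₀ ht
    rw [h1]
    field_simp

/-- for `t ≠ 0` the vectors of the kernel are determined by `v 0` -/
theorem ker1_ne (hg : ∀ k, ∀ m ∈ (g k).support, ∀ i, m i ≤ D) {l : Option (Fin N) → K}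
    (ht : l none ≠ 0) (v : Ep N D → K) :
    Ker (U1 D g) l v ↔ (∀ m, v m = v 0 * mon (fun i => l (some i) / l none) m) ∧
      (v 0 = 0 ∨ Sol g l) := by
  rw [ker1_iff]
  have h1 : (∀ (n : Ep N D) (i : Fin N) (h : (n i : ℕ) < D),
      l none * v (up n i h) = l (some i) * v n) ↔
      ∀ m, v m = v 0 * mon (fun i => l (some i) / l none) m := by
    constructor
    · intro h m
      exact v_eq ht h _ m rfl
    · intro h n i hi
      rw [h (up n i hi), h n, mon_up]
      field_simp
  rw [h1]
  refine and_congr_right fun h => ?_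
  have h2 : ∀ k, ∑ m, (((g k).coeff (toF m) : ℤ) : K) * v m =
      v 0 * aeval (fun i => l (some i) / l none) (g k) := by
    intro k
    rw [aeval_mon _ (g k) (hg k), Finset.mul_sum]
    refine Finset.sum_congr rfl fun m _ => ?_
    rw [h m]
    ring
  constructor
  · intro h3
    by_cases hv : v 0 = 0
    · exact Or.inl hv
    · right
      intro k
      have h4 := h3 k
      rw [h2 k] at h4
      exact ((mul_eq_zero.1 ((mul_eq_zero.1 h4).resolve_left ht)).resolve_left hv)
  · intro h3 k
    rw [h2 k]
    rcases h3 with h4 | h4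
    · rw [h4, zero_mul, mul_zero]
    · rw [h4 k, mul_zero, mul_zero]

theorem card_zero {p : (Ep N D → K) → Prop} (h : ∀ v, p v ↔ v = 0) :
    Nat.card {v : Ep N D → K // p v} = 1 := by
  rw [Nat.card_eq_one_iff_unique]
  refine ⟨⟨fun x y => Subtype.ext ?_⟩, ⟨⟨0, (h 0).2 rfl⟩⟩⟩
  rw [(h x.1).1 x.2, (h y.1).1 y.2]

theorem zero_iff {x : Fin N → K} (v : Ep N D → K) :
    ((∀ m, v m = v 0 * mon x m) ∧ v 0 = 0) ↔ v = 0 := by
  constructor
  · rintro ⟨h1, h2⟩
    funext m
    rw [h1 m, h2, zero_mul]
    rfl
  · rintro rfl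
    simp

open Classical in
theorem card_l (hg : ∀ k, ∀ m ∈ (g k).support, ∀ i, m i ≤ D) (l : Option (Fin N) → K) :
    (Nat.card {v : Ep N D → K // Ker (U1 D g) l v} : ℤ) ^ 2 =
      (Nat.card {v : Ep N D → K // Ker (U2 D g) l v} : ℤ) ^ 2 +
        if l none ≠ 0 ∧ Sol g l then (Nat.card K : ℤ) ^ 2 - 1 else 0 := by
  by_cases ht : l none = 0
  · rw [if_neg (fun h => h.1 ht), add_zero]
    have h1 : ∀ v : Ep N D → K, Ker (U2 D g) l v ↔ Ker (U1 D g) l v := by
      intro v
      rw [ker2_iff, ht, zero_mul]
      simp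
    have h2 : Nat.card {v : Ep N D → K // Ker (U2 D g) l v} =
        Nat.card {v : Ep N D → K // Ker (U1 D g) l v} :=
      Nat.card_congr (Equiv.subtypeEquivRight h1)
    rw [h2]
  · have h2 : Nat.card {v : Ep N D → K // Ker (U2 D g) l v} = 1 := by
      apply card_zero
      intro v
      rw [ker2_iff, ker1_ne g hg ht, ← zero_iff (x := fun i => l (some i) / l none) v]
      constructor
      · rintro ⟨h1, h2, h3⟩
        exact ⟨h2, (mul_eq_zero.1 h1).resolve_left ht⟩
      · rintro ⟨h1, h2⟩
        exact ⟨by rw [h2, mul_zero], h1, Or.inl h2⟩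
    rw [h2]
    by_cases hs : Sol g l
    · rw [if_pos ⟨ht, hs⟩]
      have e : {v : Ep N D → K // Ker (U1 D g) l v} ≃ K :=
        { toFun := fun v => v.1 0
          invFun := fun z => ⟨fun m => z * mon (fun i => l (some i) / l none) m,
            (ker1_ne g hg ht _).2 ⟨fun m => by
              rw [mon_zero, mul_one], Or.inr hs⟩⟩
          left_inv := fun v => Subtype.ext (funext fun m =>
            (((ker1_ne g hg ht _).1 v.2).1 m).symm)
          right_inv := fun z => by
            show z * mon _ (0 : Ep N D) = z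
            rw [mon_zero, mul_one] }
      rw [Nat.card_congr e]
      push_cast
      ring
    · rw [if_neg (fun h => hs h.2)]
      have h3 : Nat.card {v : Ep N D → K // Ker (U1 D g) l v} = 1 := by
        apply card_zero
        intro v
        rw [ker1_ne g hg ht, ← zero_iff (x := fun i => l (some i) / l none) v]
        simp only [hs, or_false]
      rw [h3]
      norm_num

theorem card_sol [Finite K] :
    Nat.card {l : Option (Fin N) → K // l none ≠ 0 ∧ Sol g l} =
      (Nat.card K - 1) * zN g K := by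
  have e : {l : Option (Fin N) → K // l none ≠ 0 ∧ Sol g l} ≃
      {t : K // t ≠ 0} × {x : Fin N → K // ∀ k, aeval x (g k) = 0} :=
    { toFun := fun l => (⟨l.1 none, l.2.1⟩, ⟨fun i => l.1 (some i) / l.1 none, l.2.2⟩)
      invFun := fun y => ⟨fun k => match k with
        | none => y.1.1
        | some i => y.2.1 i * y.1.1, ⟨y.1.2, fun k => by
          have h1 : (fun i => y.2.1 i * y.1.1 / y.1.1) = y.2.1 :=
            funext fun i => mul_div_cancel_right₀ _ y.1.2
          show aeval (fun i => y.2.1 i * y.1.1 / y.1.1) (g k) = 0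
          rw [h1]
          exact y.2.2 k⟩⟩
      left_inv := fun l => Subtype.ext (funext fun k => by
        rcases k with _ | i
        · rfl
        · exact div_mul_cancel₀ _ l.2.1)
      right_inv := fun y => by
        refine Prod.ext rfl (Subtype.ext (funext fun i => ?_))
        exact mul_div_cancel_right₀ _ y.1.2 }
  rw [Nat.card_congr e, Nat.card_prod, ← Nat.card_congr (unitsEquivNeZero (G₀ := K)),
    Nat.card_units]
  rfl

end G5P

open G5P in
/-- **G5.** -/
theorem t_G5 : St_G5 := by
  classical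
  intro N D κ _ g hg K _ _
  have : Fintype K := Fintype.ofFinite K
  rw [G3P.sqN_eq, G3P.sqN_eq]
  push_cast
  rw [Finset.sum_congr rfl fun l _ => card_l g hg l, Finset.sum_add_distrib, ← Finset.sum_filter,
    Finset.sum_const]
  have h1 : (Finset.univ.filter fun l : Option (Fin N) → K => l none ≠ 0 ∧ Sol g l).card =
      (Nat.card K - 1) * zN g K := by
    rw [← card_sol, Nat.card_eq_fintype_card, Fintype.card_subtype]
  have hq : 1 ≤ Nat.card K := Nat.card_pos
  rw [h1, nsmul_eq_mul]
  push_cast [Nat.cast_sub hq]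
  ring

end Pool.Agent.NH36.Cz
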