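import Pool.Agent.NH36.Cz.Stm

/-!
# CZ-P1 (helper17): points of the bilinear systems and of the commuting schemes
-/

set_option autoImplicit false

open CategoryTheory AlgebraicGeometry MvPolynomial Pool.Agent.Y116.UV Pool.Agent.Q193.Zeta
  Pool.Agent.Q282.UZ

namespace Pool.Agent.NH36.Cz

namespace P1

section

variable {s κ K : Type} [CommRing K] (G : κ → MvPolynomial s ℤ)

/-- the ideal of the equations -/
noncomputable abbrev idl : Ideal (MvPolynomial s ℤ) := Ideal.span (Set.range G)

lemma hom_eq (φ : (MvPolynomial s ℤ ⧸ idl G) →+* K) :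
    φ.comp (Ideal.Quotient.mk (idl G)) =
      eval₂Hom (Int.castRingHom K) (fun i => φ (Ideal.Quotient.mk (idl G) (X i))) := by
  refine MvPolynomial.ringHom_ext (fun r => ?_) (fun i => ?_)
  · have h : (φ.comp (Ideal.Quotient.mk (idl G))).comp (C : ℤ →+* MvPolynomial s ℤ) =
        (eval₂Hom (Int.castRingHom K)
          (fun i => φ (Ideal.Quotient.mk (idl G) (X i)))).comp C := RingHom.ext_int _ _
    exact RingHom.congr_fun h r
  · simp

lemma mk_zero (k : κ) : Ideal.Quotient.mk (idl G) (G k) = 0 :=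
  Ideal.Quotient.eq_zero_iff_mem.2 (Ideal.subset_span (Set.mem_range_self k))

lemma lift_zero (x : s → K) (hx : ∀ k, eval₂Hom (Int.castRingHom K) x (G k) = 0)
    (f : MvPolynomial s ℤ) (hf : f ∈ idl G) : eval₂Hom (Int.castRingHom K) x f = 0 := by
  have h : idl G ≤ RingHom.ker (eval₂Hom (Int.castRingHom K) x) :=
    Ideal.span_le.2 (Set.range_subset_iff.2 fun k => hx k)
  exact h hf

lemma lift_X (x : s → K) (hx : ∀ k, eval₂Hom (Int.castRingHom K) x (G k) = 0) (i : s) :
    Ideal.Quotient.lift (idl G) (eval₂Hom (Int.castRingHom K) x) (lift_zero G x hx)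
      (Ideal.Quotient.mk (idl G) (X i)) = x i := by
  rw [Ideal.Quotient.lift_mk]
  simp

/-- the points of an affine scheme given by equations -/
noncomputable def quotPts : ((MvPolynomial s ℤ ⧸ idl G) →+* K) ≃
    {x : s → K // ∀ k, eval₂Hom (Int.castRingHom K) x (G k) = 0} where
  toFun φ := ⟨fun i => φ (Ideal.Quotient.mk (idl G) (X i)), fun k => by
    rw [← hom_eq G φ, RingHom.comp_apply, mk_zero, map_zero]⟩
  invFun x := Ideal.Quotient.lift (idl G) (eval₂Hom (Int.castRingHom K) x.1)
    (lift_zero G x.1 x.2)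
  left_inv φ := by
    refine Ideal.Quotient.ringHom_ext ?_
    rw [hom_eq G φ]
    refine RingHom.ext fun f => ?_
    rw [RingHom.comp_apply, Ideal.Quotient.lift_mk]
  right_inv x := Subtype.ext (funext fun i => lift_X G x.1 x.2 i)

end

/-- the number of the points of an affine scheme given by equations -/
lemma card_quot {s κ : Type} (G : κ → MvPolynomial s ℤ) (K : Type) [Field K] :
    Nat.card (Pt (aff ℤ (MvPolynomial s ℤ ⧸ Ideal.span (Set.range G))).left K) =
      Nat.card {x : s → K // ∀ k, eval₂Hom (Int.castRingHom K) x (G k) = 0} := by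
  have h1 : Nat.card (Pt (aff ℤ (MvPolynomial s ℤ ⧸ Ideal.span (Set.range G))).left K) =
      Nat.card ((MvPolynomial s ℤ ⧸ Ideal.span (Set.range G)) →+* K) :=
    Nat.card_congr (ptAff _ K)
  rw [h1]
  exact Nat.card_congr (quotPts G)

end P1

theorem t_P1 : St_P1 := by
  intro a b c E K _ _
  unfold sysS solN
  rw [P1.card_quot]
  refine Nat.card_congr (Equiv.subtypeEquiv (Equiv.sumArrowEquivProdArrow (Fin a) (Fin b) K)
    fun x => ?_)
  refine forall_congr' fun l => ?_
  have h : eval₂Hom (Int.castRingHom K) x (few ℤ (E l)) =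
      ∑ e ∈ E l, (Equiv.sumArrowEquivProdArrow (Fin a) (Fin b) K x).1 e.1 *
        (Equiv.sumArrowEquivProdArrow (Fin a) (Fin b) K x).2 e.2 := by
    unfold few
    rw [map_sum]
    refine Finset.sum_congr rfl fun e _ => ?_
    simp
  rw [h]

theorem t_P2 : St_P2 := by
  intro α β γ _ _ _ T K _ _
  unfold comS comN
  rw [P1.card_quot]
  refine Nat.card_congr (Equiv.subtypeEquiv
    ((Equiv.sumArrowEquivProdArrow (α ⊕ α) (β ⊕ β) K).trans
      (Equiv.prodCongr (Equiv.sumArrowEquivProdArrow α α K)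
        (Equiv.sumArrowEquivProdArrow β β K))) fun x => ?_)
  refine forall_congr' fun k => ?_
  have h : eval₂Hom (Int.castRingHom K) x (∑ i, ∑ j,
      (C (T i j k) * X (Sum.inl (Sum.inl i)) * X (Sum.inr (Sum.inr j)) -
      C (T i j k) * X (Sum.inl (Sum.inr i)) * X (Sum.inr (Sum.inl j)))) =
      bf T (fun i => x (Sum.inl (Sum.inl i))) (fun j => x (Sum.inr (Sum.inr j))) k -
      bf T (fun i => x (Sum.inl (Sum.inr i))) (fun j => x (Sum.inr (Sum.inl j))) k := by
    unfold bf
    rw [map_sum, ← Finset.sum_sub_distrib]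
    refine Finset.sum_congr rfl fun i _ => ?_
    rw [map_sum, ← Finset.sum_sub_distrib]
    refine Finset.sum_congr rfl fun j _ => ?_
    simp only [map_sub, map_mul, eval₂Hom_X', eq_intCast, map_intCast]
  rw [h, sub_eq_zero]
  exact Iff.rfl

end Pool.Agent.NH36.Cz
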