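import Pool.Agent.NH36.Cz.Asm
import Pool.Agent.NH36.Cz.A1
import Pool.Agent.NH36.Cz.A3
import Pool.Agent.NH36.Cz.A4
import Pool.Agent.NH36.Cz.A5
import Pool.Agent.NH36.Cz.G1
import Pool.Agent.NH36.Cz.G2
import Pool.Agent.NH36.Cz.G3
import Pool.Agent.NH36.Cz.G4
import Pool.Agent.NH36.Cz.P1

/-!
# Project CZ: the main theorem
-/

set_option autoImplicit false

open CategoryTheory AlgebraicGeometry Pool.Agent.Y116.UV Pool.Agent.Q193.Zeta Pool.Agent.Q282.UZ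

namespace Pool.Agent.NH36.Cz

/-- The main theorem. -/
theorem main :
    ((∀ X : Sch ℤ, FT False X → Co X) →
      ∀ (a b c : ℕ) (T : Fin a → Fin b → Fin c → ℤ), ClassContinues T) ∧
    ((ForSparseForms fun {_ _ _} T => ClassContinues T) → ∀ X : Sch ℤ, FT False X → Co X) :=
  main_asm t_A1 t_A2 t_A3 t_A4 t_A5 t_A6 t_G1 t_G2 t_G3 t_G4 t_P1 t_P2 t_P3

end Pool.Agent.NH36.Cz
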