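import Pool.Agent.NH36.Cz.StmH
import Pool.Agent.NH36.Cz.P1

/-!
# CZ-P4 (helper26): points of affine schemes
-/

set_option autoImplicit false

open CategoryTheory AlgebraicGeometry MvPolynomial Pool.Agent.Y116.UV Pool.Agent.Q193.Zeta
  Pool.Agent.Q282.UZ Pool.Agent.NH36.Zt

namespace Pool.Agent.NH36.Cz

theorem t_P4 : St_P4 := by
  intro N κ g K _ _
  rw [P1.card_quot]
  unfold zN
  refine Nat.card_congr (Equiv.subtypeEquivRight fun x => ?_)
  refine forall_congr' fun k => ?_
  have h : eval₂Hom (Int.castRingHom K) x (g k) = aeval x (g k) := rfl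
  rw [h]

end Pool.Agent.NH36.Cz
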