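import Pool.Agent.NH36.Cz.Main
import Pool.Agent.NH36.Cz.AsmG
import Pool.Agent.NH36.Cz.G5
import Pool.Agent.NH36.Cz.C1
import Pool.Agent.NH36.Cz.P4

/-!
# Project CZ: the graded theorem
-/

set_option autoImplicit false

open CategoryTheory AlgebraicGeometry Pool.Agent.Y116.UV Pool.Agent.Q193.Zeta Pool.Agent.Q282.UZ
  Pool.Agent.NH36.Zt

namespace Pool.Agent.NH36.Cz

/-- The graded theorem. -/
theorem main_graded (N : ℕ) :
    (ForClosed N Co → ∀ (a b c : ℕ) (T : Fin a → Fin b → Fin c → ℤ), c ≤ N + 1 →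
      ClassContinues T) ∧
    ((∀ (a b : ℕ) (T : Fin a → Fin b → Fin (N + 1) → ℤ), ClassContinues T) → ForClosed N Co) :=
  graded_asm t_A1 t_A2 t_A3 t_A4 t_A5 t_A6 t_G1 t_G2 t_G5 t_P2 t_P3 t_P4 t_C1 N

end Pool.Agent.NH36.Cz
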