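import Pool.Agent.NH36.Cz.StmP

/-!
# Project CZ, P5: padding
-/

set_option autoImplicit false

namespace Pool.Agent.NH36.Cz

namespace P5

/-- the embedding of the indices -/
def emb (a b : ℕ) : Fin a × Fin b ↪ Fin (a + 1) × Fin (b + 1) where
  toFun e := (e.1.castSucc, e.2.castSucc)
  inj' := by
    rintro ⟨i, j⟩ ⟨i', j'⟩ h
    simp only [Prod.mk.injEq, Fin.castSucc_inj] at h
    exact Prod.ext h.1 h.2

/-- the padded system -/
def pad {a b c : ℕ} (E : Fin c → Finset (Fin a × Fin b)) (l : Fin c) :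
    Finset (Fin (a + 1) × Fin (b + 1)) := (E l).map (emb a b)

lemma sum_pad {a b c : ℕ} (E : Fin c → Finset (Fin a × Fin b)) {K : Type} [CommRing K]
    (x : Fin (a + 1) → K) (y : Fin (b + 1) → K) (l : Fin c) :
    ∑ e ∈ pad E l, x e.1 * y e.2 = ∑ e ∈ E l, x e.1.castSucc * y e.2.castSucc := by
  unfold pad
  rw [Finset.sum_map]
  rfl

/-- the solutions of the padded system -/
def eqv {a b c : ℕ} (E : Fin c → Finset (Fin a × Fin b)) (K : Type) [CommRing K] :
    {x : (Fin (a + 1) → K) × (Fin (b + 1) → K) // ∀ l, ∑ e ∈ pad E l, x.1 e.1 * x.2 e.2 = 0} ≃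
      (K × K) × {x : (Fin a → K) × (Fin b → K) // ∀ l, ∑ e ∈ E l, x.1 e.1 * x.2 e.2 = 0} where
  toFun x := ((x.1.1 (Fin.last a), x.1.2 (Fin.last b)),
    ⟨(fun i => x.1.1 i.castSucc, fun j => x.1.2 j.castSucc), fun l => by
      have h := x.2 l
      rw [sum_pad] at h
      exact h⟩)
  invFun y := ⟨(Fin.snoc (α := fun _ => K) y.2.1.1 y.1.1, Fin.snoc (α := fun _ => K) y.2.1.2 y.1.2),
    fun l => by
      rw [sum_pad]
      simp only [Fin.snoc_castSucc]
      exact y.2.2 l⟩
  left_inv x := by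
    refine Subtype.ext (Prod.ext ?_ ?_)
    · funext i
      refine Fin.lastCases ?_ (fun i => ?_) i
      · exact Fin.snoc_last (α := fun _ => K) _ _
      · exact Fin.snoc_castSucc (α := fun _ => K) _ _ _
    · funext i
      refine Fin.lastCases ?_ (fun i => ?_) i
      · exact Fin.snoc_last (α := fun _ => K) _ _
      · exact Fin.snoc_castSucc (α := fun _ => K) _ _ _
  right_inv y := by
    refine Prod.ext (Prod.ext ?_ ?_) (Subtype.ext (Prod.ext ?_ ?_))
    · exact Fin.snoc_last (α := fun _ => K) _ _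
    · exact Fin.snoc_last (α := fun _ => K) _ _
    · funext i
      exact Fin.snoc_castSucc (α := fun _ => K) _ _ _
    · funext i
      exact Fin.snoc_castSucc (α := fun _ => K) _ _ _

end P5

theorem t_P5 : St_P5 := by
  intro a b c E
  refine ⟨P5.pad E, fun K _ _ => ?_⟩
  unfold solN
  rw [Nat.card_congr (P5.eqv E K), Nat.card_prod, Nat.card_prod, sq]

end Pool.Agent.NH36.Cz
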