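import Pool.Agent.NH36.Cz.StmQ
import Pool.Agent.NH36.Cz.P1

/-!
# CZ-PC (helper48): commuting pairs in pattern groups
-/

set_option autoImplicit false

open CategoryTheory AlgebraicGeometry MvPolynomial Pool.Agent.Y116.UV Pool.Agent.Q193.Zeta
  Pool.Agent.Q282.UZ

namespace Pool.Agent.NH36.Cz

namespace PCH

section

variable {I : Type} [Fintype I] [DecidableEq I] (r : I → I → Prop)

/-- the places of the entries -/
abbrev RR : Type := {p : I × I // r p.1 p.2}

open Classical in
/-- the matrix with given entries -/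
noncomputable def mat {K : Type} [CommRing K] (x : RR r → K) : Matrix I I K := fun i j =>
  if i = j then 1 else if h : r i j then x ⟨(i, j), h⟩ else 0

lemma mat_map {K L : Type} [CommRing K] [CommRing L] (φ : K →+* L) (x : RR r → K) (i j : I) :
    φ (mat r x i j) = mat r (fun p => φ (x p)) i j := by
  unfold mat
  split_ifs with h1 h2
  · exact map_one φ
  · rfl
  · exact map_zero φ

lemma mat_isPat {K : Type} [CommRing K] (x : RR r → K) : IsPat r (mat r x) := by
  constructor
  · intro i
    simp [mat]
  · intro i j hij h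
    by_contra hr
    apply h
    simp [mat, hij, hr]

/-- the matrices and their entries -/
noncomputable def matE [IsStrictOrder I r] (K : Type) [CommRing K] :
    (RR r → K) ≃ {M : Matrix I I K // IsPat r M} where
  toFun x := ⟨mat r x, mat_isPat r x⟩
  invFun M := fun p => M.1 p.1.1 p.1.2
  left_inv x := by
    funext p
    have hne : p.1.1 ≠ p.1.2 := fun h => irrefl_of r p.1.2 (by
      have := p.2
      rw [h] at this
      exact this)
    change mat r x p.1.1 p.1.2 = x p
    unfold mat
    rw [if_neg hne, dif_pos p.2]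
  right_inv M := by
    apply Subtype.ext
    ext i j
    change mat r (fun p : RR r => M.1 p.1.1 p.1.2) i j = M.1 i j
    unfold mat
    split_ifs with h1 h2
    · subst h1
      exact (M.2.1 i).symm
    · rfl
    · by_contra h
      exact h2 (M.2.2 i j h1 (Ne.symm h))

lemma eq_zero [IsStrictOrder I r] {K : Type} [CommRing K] {M D : Matrix I I K}
    (hM : IsPat r M) (h : M * D = 0) : D = 0 := by
  have : IsStrictOrder I (Function.swap r) := inferInstance
  have hwf : WellFounded (Function.swap r) := Finite.wellFounded_of_trans_of_irrefl _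
  have key : ∀ i, ∀ j, D i j = 0 := by
    intro i
    induction i using hwf.induction with
    | _ i ih =>
      intro j
      have h1 : (M * D) i j = 0 := by rw [h]; rfl
      rw [Matrix.mul_apply, Finset.sum_eq_single i, hM.1, one_mul] at h1
      · exact h1
      · intro k _ hk
        by_cases hMk : M i k = 0
        · rw [hMk, zero_mul]
        · rw [ih k (hM.2 i k (Ne.symm hk) hMk) j, mul_zero]
      · intro hi
        exact absurd (Finset.mem_univ i) hi
  ext i j
  exact key i j

lemma exists_inv [IsStrictOrder I r] {K : Type} [Field K] [Finite K] {M : Matrix I I K}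
    (hM : IsPat r M) : ∃ N : Matrix I I K, IsPat r N ∧ M * N = 1 ∧ N * M = 1 := by
  let f : {N : Matrix I I K // IsPat r N} → {N : Matrix I I K // IsPat r N} :=
    fun N => ⟨M * N.1, isPat_mul r hM N.2⟩
  have hinj : Function.Injective f := by
    intro N N' h
    have h1 : M * N.1 = M * N'.1 := congrArg Subtype.val h
    have h2 : M * (N.1 - N'.1) = 0 := by rw [Matrix.mul_sub, h1, sub_self]
    exact Subtype.ext (sub_eq_zero.1 (eq_zero r hM h2))
  have hsurj : Function.Surjective f := Finite.surjective_of_injective hinj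
  obtain ⟨N, hN⟩ := hsurj ⟨1, isPat_one r⟩
  have h1 : M * N.1 = 1 := congrArg Subtype.val hN
  exact ⟨N.1, N.2, h1, mul_eq_one_comm.1 h1⟩

/-- the elements of the pattern group and their matrices -/
noncomputable def patE [IsStrictOrder I r] (K : Type) [Field K] [Finite K] :
    Pat r K ≃ {M : Matrix I I K // IsPat r M} :=
  Equiv.ofBijective (fun g => ⟨(g.1 : Matrix I I K), g.2.1⟩) (by
    constructor
    · intro g g' h
      have h1 : (g.1 : Matrix I I K) = (g'.1 : Matrix I I K) := congrArg Subtype.val h
      exact Subtype.ext (Units.ext h1)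
    · rintro ⟨M, hM⟩
      obtain ⟨N, hN, h1, h2⟩ := exists_inv r hM
      exact ⟨⟨⟨M, N, h1, h2⟩, ⟨hM, hN⟩⟩, rfl⟩)

lemma card_pat [IsStrictOrder I r] (K : Type) [Field K] [Finite K] :
    Nat.card (Pat r K) = Nat.card K ^ Nat.card (RR r) := by
  rw [Nat.card_congr ((patE r K).trans (matE r K).symm), Nat.card_fun]

/-- pairs of matrices -/
lemma card_comm [IsStrictOrder I r] (K : Type) [Field K] [Finite K] :
    Nat.card {x : RR r ⊕ RR r → K // mat r (fun p => x (Sum.inl p)) * mat r (fun p => x (Sum.inr p)) =
      mat r (fun p => x (Sum.inr p)) * mat r (fun p => x (Sum.inl p))} =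
    Nat.card (ConjClasses (Pat r K)) * Nat.card K ^ Nat.card (RR r) := by
  rw [← card_pat, ← card_comm_eq_card_conjClasses_mul_card]
  let e : Pat r K ≃ (RR r → K) := (patE r K).trans (matE r K).symm
  have he : ∀ g : Pat r K, mat r (e g) = (g.1 : Matrix I I K) := by
    intro g
    have h : (matE r K) (e g) = patE r K g := by
      change (matE r K) ((matE r K).symm (patE r K g)) = patE r K g
      exact (matE r K).apply_symm_apply _
    exact congrArg Subtype.val h
  refine (Nat.card_congr (Equiv.subtypeEquiv
    ((Equiv.prodCongr e e).trans (Equiv.sumArrowEquivProdArrow (RR r) (RR r) K).symm) ?_)).symm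
  rintro ⟨g, g'⟩
  change Commute g g' ↔ mat r (e g) * mat r (e g') = mat r (e g') * mat r (e g)
  rw [he, he]
  constructor
  · intro h
    have h1 : g * g' = g' * g := h
    have h2 := congrArg (fun u : Pat r K => ((u.1 : (Matrix I I K)ˣ) : Matrix I I K)) h1
    simpa using h2
  · intro h
    apply Subtype.ext
    apply Units.ext
    simpa using h

/-- the equations of the commuting pairs -/
noncomputable def eqs (k : I × I) : MvPolynomial (RR r ⊕ RR r) ℤ :=
  (mat r (fun p => (X (Sum.inl p) : MvPolynomial (RR r ⊕ RR r) ℤ)) *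
    mat r (fun p => (X (Sum.inr p) : MvPolynomial (RR r ⊕ RR r) ℤ)) -
    mat r (fun p => (X (Sum.inr p) : MvPolynomial (RR r ⊕ RR r) ℤ)) *
    mat r (fun p => (X (Sum.inl p) : MvPolynomial (RR r ⊕ RR r) ℤ))) k.1 k.2

lemma eval_eqs {K : Type} [Field K] (x : RR r ⊕ RR r → K) (k : I × I) :
    eval₂Hom (Int.castRingHom K) x (eqs r k) =
      (mat r (fun p => x (Sum.inl p)) * mat r (fun p => x (Sum.inr p)) -
        mat r (fun p => x (Sum.inr p)) * mat r (fun p => x (Sum.inl p))) k.1 k.2 := by
  unfold eqs
  rw [Matrix.sub_apply, Matrix.sub_apply, map_sub, Matrix.mul_apply, Matrix.mul_apply,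
    Matrix.mul_apply, Matrix.mul_apply, map_sum, map_sum]
  simp only [map_mul, mat_map, eval₂Hom_X']

end

end PCH

theorem t_PC : St_PC := by
  intro I _ _ r _
  refine ⟨aff ℤ (MvPolynomial (PCH.RR r ⊕ PCH.RR r) ℤ ⧸ Ideal.span (Set.range (PCH.eqs r))),
    Nat.card (PCH.RR r), ft_aff False, ?_⟩
  intro K _ _
  rw [P1.card_quot, ← PCH.card_comm]
  refine Nat.card_congr (Equiv.subtypeEquiv (Equiv.refl _) fun x => ?_)
  rw [Equiv.refl_apply]
  constructor
  · intro h
    rw [← sub_eq_zero]
    ext i j
    have h1 := h (i, j)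
    rw [PCH.eval_eqs] at h1
    exact h1
  · intro h k
    rw [PCH.eval_eqs, h, sub_self]
    rfl

end Pool.Agent.NH36.Cz
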