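import Pool.Agent.NH36.Cz.StmP

/-!
# Project CZ, PG: three-level pattern groups
-/

set_option autoImplicit false

namespace Pool.Agent.NH36.Cz

namespace PG

section sums

variable {α β : Type} [Fintype α] [Fintype β] [DecidableEq α]

lemma sum_pts {R : Type} [AddCommMonoid R] (A : β → Finset α) (a : α)
    (F : (Σ b, {x // x ∈ A b}) → R) (hF : ∀ p, p.2.1 ≠ a → F p = 0) :
    ∑ p, F p = ∑ b, if ha : a ∈ A b then F ⟨b, ⟨a, ha⟩⟩ else 0 := by
  rw [Fintype.sum_sigma]
  refine Finset.sum_congr rfl fun b _ => ?_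
  split_ifs with ha
  · exact Finset.sum_eq_single (⟨a, ha⟩ : {x // x ∈ A b})
      (fun x _ hx => hF _ (fun h => hx (Subtype.ext h)))
      (fun h => absurd (Finset.mem_univ _) h)
  · exact Finset.sum_eq_zero fun x _ => hF _ (fun h => ha (h ▸ x.2))

end sums

variable {α β γ : Type} [Fintype α] [Fintype β] [Fintype γ] [DecidableEq α] [DecidableEq β]
  [DecidableEq γ] (A : β → Finset α) (C : β → Finset γ) {K : Type} [Field K]

/-- the first block -/
def bx (v : (Σ b, {x // x ∈ A b}) → K) : Matrix α β K :=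
  fun a b => if ha : a ∈ A b then v ⟨b, ⟨a, ha⟩⟩ else 0

/-- the second block -/
def bw (w : (Σ b, {x // x ∈ C b}) → K) : Matrix β γ K :=
  fun b c => if hc : c ∈ C b then w ⟨b, ⟨c, hc⟩⟩ else 0

/-- the third block -/
def bz (z : α × γ → K) : Matrix α γ K := fun a c => z (a, c)

lemma bf_TP (v : (Σ b, {x // x ∈ A b}) → K) (w : (Σ b, {x // x ∈ C b}) → K) (a : α) (c : γ) :
    bf (TP A C) v w (a, c) = (bx A v * bw C w) a c := by
  unfold bf
  rw [sum_pts A a _ (fun p hp => ?_), Matrix.mul_apply]
  · refine Finset.sum_congr rfl fun b _ => ?_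
    unfold bx bw
    split_ifs with ha hc hc
    · rw [sum_pts C c _ (fun s hs => ?_), Finset.sum_eq_single b]
      · rw [dif_pos hc]
        simp [TP]
      · intro b' _ hb'
        split_ifs with hc'
        · simp [TP, Ne.symm hb']
        · rfl
      · intro h
        exact absurd (Finset.mem_univ _) h
      · have : ¬ (b = s.1 ∧ ((a, c) : α × γ) = (a, s.2.1)) := by
          rintro ⟨-, h⟩
          exact hs (Prod.ext_iff.1 h).2.symm
        simp only [TP, if_neg this, Int.cast_zero, zero_mul]
    · rw [sum_pts C c _ (fun s hs => ?_), mul_zero]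
      · refine Finset.sum_eq_zero fun b' _ => ?_
        split_ifs with hc'
        · have hb' : b ≠ b' := by
            rintro rfl
            exact hc hc'
          simp [TP, hb']
        · rfl
      · have : ¬ (b = s.1 ∧ ((a, c) : α × γ) = (a, s.2.1)) := by
          rintro ⟨-, h⟩
          exact hs (Prod.ext_iff.1 h).2.symm
        simp only [TP, if_neg this, Int.cast_zero, zero_mul]
    · rw [zero_mul]
    · rw [zero_mul]
  · refine Finset.sum_eq_zero fun s _ => ?_
    have : ¬ (p.1 = s.1 ∧ ((a, c) : α × γ) = (p.2.1, s.2.1)) := by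
      rintro ⟨-, h⟩
      exact hp (Prod.ext_iff.1 h).1.symm
    simp only [TP, if_neg this, Int.cast_zero, zero_mul]

variable {A C}

/-- the matrix of an element -/
def mat (g : Heis (TP A C) K) : Matrix (α ⊕ (β ⊕ γ)) (α ⊕ (β ⊕ γ)) K :=
  Matrix.fromBlocks 1 (Matrix.fromCols (bx A g.v) (bz g.z)) 0 (Matrix.fromBlocks 1 (bw C g.w) 0 1)

lemma bx_mul (g h : Heis (TP A C) K) : bx A (g * h).v = bx A g.v + bx A h.v := by
  ext a b
  rw [Matrix.add_apply]
  unfold bx
  split_ifs with ha
  · rfl
  · rw [add_zero]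

lemma bw_mul (g h : Heis (TP A C) K) : bw C (g * h).w = bw C g.w + bw C h.w := by
  ext a b
  rw [Matrix.add_apply]
  unfold bw
  split_ifs with ha
  · rfl
  · rw [add_zero]

lemma bz_mul (g h : Heis (TP A C) K) :
    bz (g * h).z = bz g.z + bz h.z + bx A g.v * bw C h.w := by
  ext a c
  rw [Matrix.add_apply, Matrix.add_apply, ← bf_TP]
  rfl

lemma mat_mul (g h : Heis (TP A C) K) : mat (g * h) = mat g * mat h := by
  unfold mat
  rw [Matrix.fromBlocks_multiply, Matrix.fromBlocks_multiply, Matrix.fromCols_mul_fromBlocks,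
    bx_mul, bw_mul, bz_mul]
  congr 1
  · simp
  · ext i j
    rcases j with j | j
    · simp only [Matrix.fromCols_apply_inl, Matrix.add_apply, Matrix.one_mul, Matrix.mul_one,
        Matrix.mul_zero, add_zero]
      ring
    · simp only [Matrix.fromCols_apply_inr, Matrix.add_apply, Matrix.one_mul, Matrix.mul_one,
        Matrix.mul_zero, add_zero]
      ring
  · simp
  · simp [add_comm]

lemma mat_one : mat (1 : Heis (TP A C) K) = 1 := by
  ext i j
  rcases i with i | i | i <;> rcases j with j | j | j <;>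
    simp [mat, Matrix.one_apply, bx, bw, bz, show (1 : Heis (TP A C) K).v = 0 from rfl,
      show (1 : Heis (TP A C) K).w = 0 from rfl, show (1 : Heis (TP A C) K).z = 0 from rfl]

lemma isPat_mat (g : Heis (TP A C) K) : IsPat (rel A C) (mat g) := by
  constructor
  · intro i
    rcases i with i | i | i <;> simp [mat]
  · intro i j hij h
    rcases i with i | i | i <;> rcases j with j | j | j
    · exact absurd (by simpa [mat, Matrix.one_apply] using h) (fun h' => hij (by rw [h']))
    · by_contra hn
      apply h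
      have hn' : i ∉ A j := hn
      simp [mat, bx, hn']
    · trivial
    · exact absurd (by simp [mat]) h
    · exact absurd (by simpa [mat, Matrix.one_apply] using h) (fun h' => hij (by rw [h']))
    · by_contra hn
      apply h
      have hn' : j ∉ C i := hn
      simp [mat, bw, hn']
    · exact absurd (by simp [mat]) h
    · exact absurd (by simp [mat]) h
    · exact absurd (by simpa [mat, Matrix.one_apply] using h) (fun h' => hij (by rw [h']))

/-- the homomorphism to the pattern group -/
noncomputable def hom : Heis (TP A C) K →* Pat (rel A C) K where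
  toFun g := ⟨⟨mat g, mat g⁻¹, by rw [← mat_mul, mul_inv_cancel, mat_one],
    by rw [← mat_mul, inv_mul_cancel, mat_one]⟩, isPat_mat g, isPat_mat g⁻¹⟩
  map_one' := Subtype.ext (Units.ext mat_one)
  map_mul' g h := Subtype.ext (Units.ext (mat_mul g h))

lemma hom_injective : Function.Injective (hom (A := A) (C := C) (K := K)) := by
  intro g h e
  have e : mat g = mat h := congrArg (fun u => ((u : Pat (rel A C) K) :
    (Matrix (α ⊕ (β ⊕ γ)) (α ⊕ (β ⊕ γ)) K)ˣ).val) e
  refine Heis.ext (funext ?_) (funext ?_) (funext ?_)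
  · rintro ⟨b, a, ha⟩
    have := congrFun (congrFun e (Sum.inl a)) (Sum.inr (Sum.inl b))
    simpa [mat, bx, ha] using this
  · rintro ⟨b, c, hc⟩
    have := congrFun (congrFun e (Sum.inr (Sum.inl b))) (Sum.inr (Sum.inr c))
    simpa [mat, bw, hc] using this
  · rintro ⟨a, c⟩
    have := congrFun (congrFun e (Sum.inl a)) (Sum.inr (Sum.inr c))
    simpa [mat, bz] using this

lemma hom_surjective : Function.Surjective (hom (A := A) (C := C) (K := K)) := by
  rintro ⟨u, hu, hu'⟩
  refine ⟨⟨fun p => u.val (Sum.inl p.2.1) (Sum.inr (Sum.inl p.1)),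
    fun p => u.val (Sum.inr (Sum.inl p.1)) (Sum.inr (Sum.inr p.2.1)),
    fun p => u.val (Sum.inl p.1) (Sum.inr (Sum.inr p.2))⟩, ?_⟩
  refine Subtype.ext (Units.ext ?_)
  change mat _ = u.val
  have hz : ∀ i j, i ≠ j → ¬ rel A C i j → u.val i j = 0 := by
    intro i j hij hr
    by_contra h
    exact hr (hu.2 i j hij h)
  ext i j
  rcases i with i | i | i <;> rcases j with j | j | j
  · by_cases h : i = j
    · subst h
      rw [hu.1]
      simp [mat]
    · rw [hz (Sum.inl i) (Sum.inl j) (by simpa using h) (fun h => h)]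
      simp [mat, h]
  · by_cases h : i ∈ A j
    · simp [mat, bx, h]
    · rw [hz (Sum.inl i) (Sum.inr (Sum.inl j)) (by simp) h]
      simp [mat, bx, h]
  · simp [mat, bz]
  · rw [hz (Sum.inr (Sum.inl i)) (Sum.inl j) (by simp) (fun h => h)]
    simp [mat]
  · by_cases h : i = j
    · subst h
      rw [hu.1]
      simp [mat]
    · rw [hz (Sum.inr (Sum.inl i)) (Sum.inr (Sum.inl j)) (by simpa using h) (fun h => h)]
      simp [mat, h]
  · by_cases h : j ∈ C i
    · simp [mat, bw, h]
    · rw [hz (Sum.inr (Sum.inl i)) (Sum.inr (Sum.inr j)) (by simp) h]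
      simp [mat, bw, h]
  · rw [hz (Sum.inr (Sum.inr i)) (Sum.inl j) (by simp) (fun h => h)]
    simp [mat]
  · rw [hz (Sum.inr (Sum.inr i)) (Sum.inr (Sum.inl j)) (by simp) (fun h => h)]
    simp [mat]
  · by_cases h : i = j
    · subst h
      rw [hu.1]
      simp [mat]
    · rw [hz (Sum.inr (Sum.inr i)) (Sum.inr (Sum.inr j)) (by simpa using h) (fun h => h)]
      simp [mat, h]

/-- the isomorphism -/
noncomputable def iso : Heis (TP A C) K ≃* Pat (rel A C) K :=
  MulEquiv.ofBijective hom ⟨hom_injective, hom_surjective⟩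

lemma card_conj {G H : Type} [Group G] [Group H] (f : G ≃* H) :
    Nat.card (ConjClasses H) = Nat.card (ConjClasses G) := by
  refine (Nat.card_congr (Equiv.ofBijective (ConjClasses.map (f : G →* H)) ⟨?_, ?_⟩)).symm
  · intro x y
    refine Quotient.inductionOn₂ x y fun a b hxy => ?_
    have h1 : ConjClasses.mk (f a) = ConjClasses.mk (f b) := hxy
    rw [ConjClasses.mk_eq_mk_iff_isConj, isConj_iff] at h1
    obtain ⟨c, hc⟩ := h1
    have h2 : ConjClasses.mk a = ConjClasses.mk b := by
      rw [ConjClasses.mk_eq_mk_iff_isConj, isConj_iff]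
      refine ⟨f.symm c, f.injective ?_⟩
      rw [map_mul, map_mul, map_inv, f.apply_symm_apply]
      exact hc
    exact h2
  · exact ConjClasses.map_surjective f.surjective

end PG

theorem t_PG : St_PG := by
  intro α β γ _ _ _ _ _ _ A C K _
  exact PG.card_conj PG.iso

end Pool.Agent.NH36.Cz
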