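import Pool.Agent.NH36.Cz.StmP

/-!
# Project CZ, Q1 (helper79): kernels of the pattern tensor
-/

set_option autoImplicit false
set_option linter.unusedSectionVars false

open Pool.Agent.Q193.Zeta

namespace Pool.Agent.NH36.Cz

namespace Q1P

section

variable {α β γ : Type} [Fintype α] [Fintype β] [Fintype γ] (A : β → Finset α)
  (C : β → Finset γ) {K : Type} [Field K]

theorem sum_TP (l : α × γ → K) (v : (Σ b, {x // x ∈ A b}) → K) (s : Σ b, {x // x ∈ C b}) :
    ∑ i, ∑ k, ((TP A C i s k : ℤ) : K) * l k * v i =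
      ∑ a : {x // x ∈ A s.1}, l (a.1, s.2.1) * v ⟨s.1, a⟩ := by
  classical
  rw [Fintype.sum_sigma, Finset.sum_eq_single s.1]
  · refine Finset.sum_congr rfl fun a _ => ?_
    rw [Finset.sum_eq_single (a.1, s.2.1)]
    · have : TP A C ⟨s.1, a⟩ s (a.1, s.2.1) = 1 := by
        unfold TP
        rw [if_pos ⟨rfl, rfl⟩]
      rw [this, Int.cast_one, one_mul]
    · intro k _ hk
      have : TP A C ⟨s.1, a⟩ s k = 0 := by
        unfold TP
        rw [if_neg]
        exact fun h => hk h.2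
      rw [this, Int.cast_zero, zero_mul, zero_mul]
    · intro h
      exact absurd (Finset.mem_univ _) h
  · intro b _ hb
    refine Finset.sum_eq_zero fun a _ => Finset.sum_eq_zero fun k _ => ?_
    have : TP A C ⟨b, a⟩ s k = 0 := by
      unfold TP
      rw [if_neg]
      exact fun h => hb h.1
    rw [this, Int.cast_zero, zero_mul, zero_mul]
  · intro h
    exact absurd (Finset.mem_univ _) h

/-- the kernel for one element -/
noncomputable abbrev Kr (l : γ → α → K) (b : β) : Submodule K ({x // x ∈ A b} → K) :=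
  LinearMap.ker (Matrix.mulVecLin
    (Matrix.of fun (c : {x // x ∈ C b}) (a : {x // x ∈ A b}) => l c.1 a.1))

theorem cond_iff (l : α × γ → K) (v : (Σ b, {x // x ∈ A b}) → K) :
    (∀ s : Σ b, {x // x ∈ C b}, ∑ i, ∑ k, ((TP A C i s k : ℤ) : K) * l k * v i = 0) ↔
      ∀ b, (fun a => v ⟨b, a⟩) ∈ Kr A C (fun c a => l (a, c)) b := by
  constructor
  · intro h b
    rw [LinearMap.mem_ker]
    funext c
    have h1 := h ⟨b, c⟩
    rw [sum_TP] at h1
    exact h1
  · rintro h ⟨b, c⟩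
    rw [sum_TP]
    exact congrFun (LinearMap.mem_ker.1 (h b)) c

/-- the solutions of the two systems -/
noncomputable def eqv :
    {x : (α × γ → K) × (((Σ b, {x // x ∈ A b}) → K) × ((Σ b, {x // x ∈ A b}) → K)) //
      ∀ j : Σ b, {x // x ∈ C b}, ∑ i, ∑ k, ((TP A C i j k : ℤ) : K) * x.1 k * x.2.1 i = 0 ∧
        ∑ i, ∑ k, ((TP A C i j k : ℤ) : K) * x.1 k * x.2.2 i = 0} ≃
      Σ l : γ → α → K, ((∀ b, Kr A C l b) × (∀ b, Kr A C l b)) where
  toFun x := ⟨fun c a => x.1.1 (a, c),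
    (fun b => ⟨fun a => x.1.2.1 ⟨b, a⟩, (cond_iff A C x.1.1 x.1.2.1).1 (fun j => (x.2 j).1) b⟩),
    (fun b => ⟨fun a => x.1.2.2 ⟨b, a⟩, (cond_iff A C x.1.1 x.1.2.2).1 (fun j => (x.2 j).2) b⟩)⟩
  invFun y := ⟨(fun k => y.1 k.2 k.1,
    (fun p => (y.2.1 p.1).1 p.2, fun p => (y.2.2 p.1).1 p.2)), fun j =>
      ⟨(cond_iff A C (fun k => y.1 k.2 k.1) (fun p => (y.2.1 p.1).1 p.2)).2
          (fun b => (y.2.1 b).2) j,
        (cond_iff A C (fun k => y.1 k.2 k.1) (fun p => (y.2.2 p.1).1 p.2)).2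
          (fun b => (y.2.2 b).2) j⟩⟩
  left_inv _ := rfl
  right_inv _ := rfl

theorem card_eqv [Finite K] [Fintype (γ → α → K)] :
    sqN (TP A C) K = ∑ l : γ → α → K, (∏ b, Nat.card K ^ kd l (A b) (C b)) ^ 2 := by
  unfold sqN
  rw [Nat.card_congr (eqv A C), Nat.card_sigma]
  refine Finset.sum_congr rfl fun l _ => ?_
  have h : ∀ b, Nat.card (Kr A C l b) = Nat.card K ^ kd l (A b) (C b) :=
    fun b => Module.natCard_eq_pow_finrank
  rw [Nat.card_prod, Nat.card_pi, sq]
  simp only [h]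

end

theorem kd_le {α γ K : Type} [Fintype α] [Fintype γ] [Field K] (l : γ → α → K) (A : Finset α)
    (C : Finset γ) : kd l A C ≤ Fintype.card α := by
  classical
  unfold kd
  refine (Submodule.finrank_le _).trans ?_
  rw [Module.finrank_fintype_fun_eq_card, Fintype.card_coe]
  exact Finset.card_le_univ A

end Q1P

/-- **Q1.** -/
theorem t_Q1 : St_Q1 := by
  intro α γ J _ _ _ _ A C n K _ _
  classical
  have : Fintype K := Fintype.ofFinite K
  rw [Q1P.card_eqv (fun b : (Σ j, Fin (n j)) => A b.1) (fun b : (Σ j, Fin (n j)) => C b.1)]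
  have h1 : ∀ l : γ → α → K,
      (∏ b : (Σ j, Fin (n j)), Nat.card K ^ kd l (A b.1) (C b.1)) ^ 2 =
        Nat.card K ^ (2 * ∑ j, n j * kd l (A j) (C j)) := by
    intro l
    rw [Fintype.prod_sigma]
    have h2 : ∀ j, ∏ _i : Fin (n j), Nat.card K ^ kd l (A j) (C j) =
        Nat.card K ^ (n j * kd l (A j) (C j)) := by
      intro j
      rw [Finset.prod_const, Finset.card_univ, Fintype.card_fin, ← pow_mul, mul_comm]
    rw [Finset.prod_congr rfl fun j _ => h2 j, Finset.prod_pow_eq_pow_sum, ← pow_mul, mul_comm]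
  rw [Finset.sum_congr rfl fun l _ => h1 l]
  let ev : (γ → α → K) → (J → Fin (Fintype.card α + 1)) := fun l j =>
    ⟨kd l (A j) (C j), Nat.lt_succ_of_le (Q1P.kd_le l (A j) (C j))⟩
  have hev : ∀ l e, ev l = e ↔ ∀ j, kd l (A j) (C j) = (e j : ℕ) := by
    intro l e
    rw [funext_iff]
    exact forall_congr' fun j => Fin.ext_iff
  rw [← Finset.sum_fiberwise Finset.univ ev]
  refine Finset.sum_congr rfl fun e _ => ?_
  have h3 : ∀ l ∈ Finset.univ.filter (fun l => ev l = e),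
      Nat.card K ^ (2 * ∑ j, n j * kd l (A j) (C j)) =
        Nat.card K ^ (2 * ∑ j, n j * (e j : ℕ)) := by
    intro l hl
    have h4 := (hev l e).1 (Finset.mem_filter.1 hl).2
    simp only [h4]
  rw [Finset.sum_congr rfl h3, Finset.sum_const, smul_eq_mul, mul_comm]
  congr 1
  unfold cntN
  rw [Nat.card_eq_fintype_card, Fintype.card_subtype]
  congr 1
  ext l
  rw [Finset.mem_filter, Finset.mem_filter, hev]

end Pool.Agent.NH36.Cz
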