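import Pool.Agent.NH36.Cz.StmP

/-!
# Project CZ: the number `cntN` depends only on the number of the elements of the field
-/

set_option autoImplicit false

open Pool.Agent.Q193.Zeta

namespace Pool.Agent.NH36.Cz

namespace Q2

lemma mem_ker' {ι κ K : Type} [Fintype ι] [Field K] (M : Matrix κ ι K) (x : ι → K) :
    x ∈ LinearMap.ker (Matrix.mulVecLin M) ↔ ∀ c, ∑ a, M c a * x a = 0 := by
  rw [LinearMap.mem_ker, Matrix.mulVecLin_apply, funext_iff]
  rfl

lemma map_ker {ι κ K K' : Type} [Fintype ι] [Field K] [Field K'] (s : K ≃+* K')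
    (M : Matrix κ ι K) (x : ι → K) (hx : x ∈ LinearMap.ker (Matrix.mulVecLin M)) :
    (fun a => s (x a)) ∈ LinearMap.ker (Matrix.mulVecLin (Matrix.of fun c a => s (M c a))) := by
  rw [mem_ker'] at hx ⊢
  intro c
  have h := congrArg s (hx c)
  rw [map_sum, map_zero] at h
  simp only [map_mul] at h
  exact h

/-- the kernels correspond -/
noncomputable def kerEquiv {ι κ K K' : Type} [Fintype ι] [Field K] [Field K'] (s : K ≃+* K')
    (M : Matrix κ ι K) : LinearMap.ker (Matrix.mulVecLin M) ≃+
      LinearMap.ker (Matrix.mulVecLin (Matrix.of fun c a => s (M c a))) where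
  toFun x := ⟨fun a => s (x.1 a), map_ker s M x.1 x.2⟩
  invFun x := ⟨fun a => s.symm (x.1 a), by
    have h := map_ker s.symm (Matrix.of fun c a => s (M c a)) x.1 x.2
    have e : (Matrix.of fun c a => s.symm ((Matrix.of fun c a => s (M c a)) c a)) = M := by
      ext c a
      exact s.symm_apply_apply _
    rw [e] at h
    exact h⟩
  left_inv x := by
    apply Subtype.ext
    funext a
    exact s.symm_apply_apply _
  right_inv x := by
    apply Subtype.ext
    funext a
    exact s.apply_symm_apply _
  map_add' x y := by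
    apply Subtype.ext
    funext a
    exact map_add s _ _

lemma finrank_ker {ι κ K K' : Type} [Fintype ι] [Field K] [Field K'] (s : K ≃+* K')
    (M : Matrix κ ι K) : Module.finrank K (LinearMap.ker (Matrix.mulVecLin M)) =
      Module.finrank K' (LinearMap.ker (Matrix.mulVecLin (Matrix.of fun c a => s (M c a)))) := by
  unfold Module.finrank
  rw [rank_eq_of_equiv_equiv s (kerEquiv s M) s.bijective]
  intro r x
  apply Subtype.ext
  funext a
  exact map_mul s _ _

variable {α γ : Type} [Fintype α] [Fintype γ]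

lemma kd_map {K K' : Type} [Field K] [Field K'] (s : K ≃+* K') (l : γ → α → K) (A : Finset α)
    (C : Finset γ) : kd (fun c a => s (l c a)) A C = kd l A C :=
  (finrank_ker s (Matrix.of fun (c : {x // x ∈ C}) (a : {x // x ∈ A}) => l c.1 a.1)).symm

lemma cntN_congr {J : Type} (A : J → Finset α) (C : J → Finset γ) (e : J → ℕ) {K K' : Type}
    [Field K] [Field K'] (s : K ≃+* K') : cntN A C e K = cntN A C e K' := by
  unfold cntN
  refine Nat.card_congr ((Equiv.arrowCongr (Equiv.refl γ)
    (Equiv.arrowCongr (Equiv.refl α) s.toEquiv)).subtypeEquiv fun l => ?_)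
  refine forall_congr' fun j => ?_
  have h : (Equiv.arrowCongr (Equiv.refl γ) (Equiv.arrowCongr (Equiv.refl α) s.toEquiv)) l =
      fun c a => s (l c a) := rfl
  rw [h, kd_map]

lemma cntN_le {J : Type} (A : J → Finset α) (C : J → Finset γ) (e : J → ℕ) (K : Type) [Field K]
    [Finite K] : cntN A C e K ≤ Nat.card K ^ (Fintype.card γ * Fintype.card α) := by
  classical
  have : Fintype K := Fintype.ofFinite K
  have h : Nat.card (γ → α → K) = Nat.card K ^ (Fintype.card γ * Fintype.card α) := by
    rw [Nat.card_eq_fintype_card, Nat.card_eq_fintype_card, Fintype.card_fun, Fintype.card_fun,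
      ← pow_mul, mul_comm]
  rw [← h]
  exact Nat.card_le_card_of_injective (fun x => x.1) Subtype.val_injective

end Q2

open Q2 in
/-- **Q2.** -/
theorem t_Q2 : St_Q2 := by
  intro α γ J _ _ A C e
  classical
  refine ⟨fun m => if h : ∃ c : ℕ, ∃ (K : Type) (_ : Field K), Finite K ∧ Nat.card K = m ∧
    cntN A C e K = c then (h.choose : ℂ) else 0, ?_, ?_⟩
  · refine ⟨1, Fintype.card γ * Fintype.card α, fun m _ => ?_⟩
    by_cases h : ∃ c : ℕ, ∃ (K : Type) (_ : Field K), Finite K ∧ Nat.card K = m ∧
      cntN A C e K = c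
    · simp only [dif_pos h]
      obtain ⟨K, iK, hK, hm, hc⟩ := h.choose_spec
      rw [← hc, Complex.norm_natCast]
      have h1 := cntN_le A C e K
      rw [hm] at h1
      have h2 : ((cntN A C e K : ℕ) : ℝ) ≤ ((m ^ (Fintype.card γ * Fintype.card α) : ℕ) : ℝ) :=
        Nat.cast_le.2 h1
      push_cast at h2 ⊢
      linarith
    · simp only [dif_neg h, norm_zero]
      positivity
  · intro K _ hKf
    have h : ∃ c : ℕ, ∃ (K' : Type) (_ : Field K'), Finite K' ∧ Nat.card K' = Nat.card K ∧
        cntN A C e K' = c := ⟨_, K, inferInstance, hKf, rfl, rfl⟩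
    simp only [dif_pos h]
    obtain ⟨K', iK', hK', hm, hc⟩ := h.choose_spec
    have : Fintype K := Fintype.ofFinite K
    have : Fintype K' := Fintype.ofFinite K'
    have hcard : Fintype.card K' = Fintype.card K := by
      rw [← Nat.card_eq_fintype_card, ← Nat.card_eq_fintype_card, hm]
    rw [← hc, cntN_congr A C e (FiniteField.ringEquivOfCardEq hcard)]

end Pool.Agent.NH36.Cz
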