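import Pool.Agent.NH36.Cz.StmP
import Pool.Agent.NH36.Cz.A1
import Pool.Agent.NH36.Cz.A3

/-!
# Project CZ: deconvolution
-/

set_option autoImplicit false

open Pool.Agent.Q193.Zeta

namespace Pool.Agent.NH36.Cz

namespace V

lemma bd_zero : Bd fun _ => 0 := ⟨0, 0, fun m _ => by simp⟩

lemma one_le {m : ℕ} (h : IsPrimePow m) : (1 : ℝ) ≤ m := by
  exact_mod_cast h.one_lt.le

lemma bd_add {f g : ℕ → ℂ} (hf : Bd f) (hg : Bd g) : Bd fun m => f m + g m := by
  obtain ⟨C, k, h⟩ := hf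
  obtain ⟨C', k', h'⟩ := hg
  refine ⟨C + C', k + k', fun m hm => (norm_add_le _ _).trans ?_⟩
  have h1 := one_le hm
  have h2 : (m : ℝ) ^ k ≤ (m : ℝ) ^ (k + k') := pow_le_pow_right₀ h1 (by omega)
  have h3 : (m : ℝ) ^ k' ≤ (m : ℝ) ^ (k + k') := pow_le_pow_right₀ h1 (by omega)
  have h4 := h m hm
  have h5 := h' m hm
  have h6 : (C : ℝ) * (m : ℝ) ^ k ≤ C * (m : ℝ) ^ (k + k') :=
    mul_le_mul_of_nonneg_left h2 (Nat.cast_nonneg _)
  have h7 : (C' : ℝ) * (m : ℝ) ^ k' ≤ C' * (m : ℝ) ^ (k + k') :=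
    mul_le_mul_of_nonneg_left h3 (Nat.cast_nonneg _)
  push_cast
  rw [add_mul]
  linarith

lemma bd_neg {f : ℕ → ℂ} (hf : Bd f) : Bd fun m => -f m := by
  obtain ⟨C, k, h⟩ := hf
  exact ⟨C, k, fun m hm => by rw [norm_neg]; exact h m hm⟩

lemma bd_pow {f : ℕ → ℂ} (j : ℕ) (hf : Bd f) : Bd fun m => (m : ℂ) ^ j * f m := by
  obtain ⟨C, k, h⟩ := hf
  refine ⟨C, k + j, fun m hm => ?_⟩
  rw [norm_mul, norm_pow, Complex.norm_natCast, pow_add]
  have h1 := h m hm
  have h2 : (0 : ℝ) ≤ (m : ℝ) ^ j := by positivity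
  calc (m : ℝ) ^ j * ‖f m‖ ≤ (m : ℝ) ^ j * (C * (m : ℝ) ^ k) := mul_le_mul_of_nonneg_left h1 h2
    _ = C * ((m : ℝ) ^ k * (m : ℝ) ^ j) := by ring

lemma bd_sum {ι : Type} (s : Finset ι) (f : ι → ℕ → ℂ) (hf : ∀ i, Bd (f i)) :
    Bd fun m => ∑ i ∈ s, f i m := by
  classical
  induction s using Finset.induction_on with
  | empty => simpa using bd_zero
  | insert a s ha ih =>
    have := bd_add (hf a) ih
    simpa [Finset.sum_insert ha] using this

/-- The case of one variable. -/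
theorem one (a7 : St_A7) : ∀ (R : ℕ) (f : Fin R → ℕ → ℂ), (∀ i, Bd (f i)) →
    (∀ n : ℕ, HC fun m => ∑ i : Fin R, (m : ℂ) ^ (2 * (n * (i : ℕ))) * f i m) → ∀ i, HC (f i) := by
  intro R
  induction R with
  | zero => intro f _ _ i; exact i.elim0
  | succ R ih =>
    intro f hB hH
    have hBg : ∀ n : ℕ, Bd fun m => ∑ i : Fin (R + 1), (m : ℂ) ^ (2 * (n * (i : ℕ))) * f i m :=
      fun n => bd_sum Finset.univ (fun (i : Fin (R + 1)) (m : ℕ) => (m : ℂ) ^ (2 * (n * (i : ℕ))) * f i m)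
        fun i => bd_pow _ (hB i)
    have hH2 : ∀ n : ℕ, HC fun m : ℕ => (m : ℂ) ^ (2 * R) *
        ∑ i : Fin (R + 1), (m : ℂ) ^ (2 * (n * (i : ℕ))) * f i m := by
      intro n
      refine t_A2 _ _ ((2 * R : ℕ) : ℤ) (fun m _ => ?_) (hH n)
      rw [zpow_natCast]
    -- the smaller functions
    have hBs : ∀ i : Fin R, Bd fun m : ℕ => ((m : ℂ) ^ (2 * (i : ℕ)) - (m : ℂ) ^ (2 * R)) *
        f i.castSucc m := by
      intro i
      have := bd_add (bd_pow (2 * (i : ℕ)) (hB i.castSucc))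
        (bd_neg (bd_pow (2 * R) (hB i.castSucc)))
      refine (congrArg Bd (funext fun m => ?_)).mp this
      ring
    have hHs := ih (fun i m => ((m : ℂ) ^ (2 * (i : ℕ)) - (m : ℂ) ^ (2 * R)) * f i.castSucc m) hBs
      (by
        intro n
        refine t_A1 _ _ _ (hBg (n + 1)) (bd_pow (2 * R) (hBg n)) (fun m _ => ?_) (hH (n + 1))
          (hH2 n)
        have e : ∀ i : Fin R, (m : ℂ) ^ (2 * (n * (i : ℕ))) *
            (((m : ℂ) ^ (2 * (i : ℕ)) - (m : ℂ) ^ (2 * R)) * f i.castSucc m) =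
            (m : ℂ) ^ (2 * ((n + 1) * (i : ℕ))) * f i.castSucc m -
              (m : ℂ) ^ (2 * R) * ((m : ℂ) ^ (2 * (n * (i : ℕ))) * f i.castSucc m) := by
          intro i
          ring
        rw [Finset.sum_congr rfl fun i _ => e i, Finset.sum_sub_distrib, Fin.sum_univ_castSucc,
          Fin.sum_univ_castSucc, mul_add, Finset.mul_sum]
        simp only [Fin.val_castSucc, Fin.val_last]
        ring)
    have h0 : HC fun _ => 0 := by
      refine t_A1 _ _ _ (hBg 0) (hBg 0) (fun m _ => ?_) (hH 0) (hH 0)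
      rw [sub_self]
    have hc : ∀ i : Fin R, HC (f i.castSucc) := by
      intro i
      have hi : (i : ℕ) < R := i.2
      have hBq : Bd fun m : ℕ => -(((m : ℂ) ^ (2 * (R - (i : ℕ))) - 1) * f i.castSucc m) := by
        have := bd_add (bd_neg (bd_pow (2 * (R - (i : ℕ))) (hB i.castSucc))) (hB i.castSucc)
        refine (congrArg Bd (funext fun m => ?_)).mp this
        ring
      have h1 : HC fun m : ℕ => -(((m : ℂ) ^ (2 * (R - (i : ℕ))) - 1) * f i.castSucc m) := by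
        refine t_A2 _ _ (-((2 * (i : ℕ) : ℕ) : ℤ)) (fun m hm => ?_) (hHs i)
        have hm0 : (m : ℂ) ≠ 0 := by
          exact_mod_cast hm.pos.ne'
        have hne : (m : ℂ) ^ (2 * (i : ℕ)) ≠ 0 := pow_ne_zero _ hm0
        have e2 : (m : ℂ) ^ (2 * R) = (m : ℂ) ^ (2 * (i : ℕ)) * (m : ℂ) ^ (2 * (R - (i : ℕ))) := by
          rw [← pow_add]
          congr 1
          omega
        rw [zpow_neg, zpow_natCast, e2]
        field_simp
        ring
      have h2 : HC fun m : ℕ => ((m : ℂ) ^ (2 * (R - (i : ℕ))) - 1) * f i.castSucc m := by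
        refine t_A1 _ _ _ bd_zero hBq (fun m _ => ?_) h0 h1
        ring
      exact t_A3 (f i.castSucc) _ (2 * (R - (i : ℕ))) (by omega) (hB _) (fun m _ => rfl) h2
    intro i
    refine Fin.lastCases ?_ hc i
    obtain ⟨b1, b2⟩ := a7 (Fin R) (fun i => f i.castSucc) (fun i => hB _) hc
    refine t_A1 _ _ _ (hBg 0) b1 (fun m _ => ?_) (hH 0) b2
    rw [Fin.sum_univ_castSucc]
    simp

end V

/-- **V.** Deconvolution. -/
theorem t_V (a7 : St_A7) : St_V := by
  intro J _ _ R f hB hH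
  let σ : J ≃ Fin (Fintype.card J) := Fintype.equivFin J
  let E : (J → Fin (R + 1)) ≃ Fin ((R + 1) ^ Fintype.card J) :=
    (Equiv.arrowCongr σ (Equiv.refl _)).trans finFunctionFinEquiv
  have hE : ∀ e : J → Fin (R + 1), ((E e : Fin _) : ℕ) =
      ∑ j, (e j : ℕ) * (R + 1) ^ ((σ j : Fin _) : ℕ) := by
    intro e
    change ((finFunctionFinEquiv (Equiv.arrowCongr σ (Equiv.refl _) e) : Fin _) : ℕ) = _
    rw [finFunctionFinEquiv_apply]
    refine (Equiv.sum_comp σ (fun i : Fin (Fintype.card J) =>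
      (((Equiv.arrowCongr σ (Equiv.refl (Fin (R + 1)))) e i : Fin (R + 1)) : ℕ) *
        (R + 1) ^ (i : ℕ))).symm.trans (Finset.sum_congr rfl fun j _ => ?_)
    simp [Equiv.arrowCongr]
  have h1 := V.one a7 _ (fun i => f (E.symm i)) (fun i => hB _) (by
    intro n
    have h2 := hH fun j => n * (R + 1) ^ ((σ j : Fin _) : ℕ)
    refine (congrArg HC (funext fun m => ?_)).mp h2
    rw [← Equiv.sum_comp E]
    refine Finset.sum_congr rfl fun e _ => ?_
    have e1 : n * ((E e : Fin _) : ℕ) = ∑ j, n * (R + 1) ^ ((σ j : Fin _) : ℕ) * (e j : ℕ) := by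
      rw [hE, Finset.mul_sum]
      exact Finset.sum_congr rfl fun j _ => by ring
    rw [Equiv.symm_apply_apply, e1])
  intro e
  have h3 := h1 (E e)
  rw [Equiv.symm_apply_apply] at h3
  exact h3

end Pool.Agent.NH36.Cz
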