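import Pool.Agent.NH36.Cz.Main
import Pool.Agent.NH36.Cz.AsmP
import Pool.Agent.NH36.Cz.A7
import Pool.Agent.NH36.Cz.V
import Pool.Agent.NH36.Cz.PG
import Pool.Agent.NH36.Cz.Q1
import Pool.Agent.NH36.Cz.Q2
import Pool.Agent.NH36.Cz.E1
import Pool.Agent.NH36.Cz.E2
import Pool.Agent.NH36.Cz.P5
import Pool.Agent.NH36.Cz.PC

/-!
# Project CZ: the main theorem for pattern groups
-/

set_option autoImplicit false

open CategoryTheory AlgebraicGeometry Pool.Agent.Y116.UV Pool.Agent.Q193.Zeta Pool.Agent.Q282.UZ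

namespace Pool.Agent.NH36.Cz

/-- The main theorem for pattern groups. -/
theorem main_pat :
    ((∀ X : Sch ℤ, FT False X → Co X) →
      ∀ (I : Type) [Fintype I] [DecidableEq I] (r : I → I → Prop) [IsStrictOrder I r],
        PatContinues r) ∧
    ((∀ (I : Type) [Fintype I] [DecidableEq I] (r : I → I → Prop) [IsStrictOrder I r],
      (∀ i j k l, r i j → r j k → ¬ r k l) → PatContinues r) → ∀ X : Sch ℤ, FT False X → Co X) :=
  pat_asm t_A2 t_A3 t_A4 t_A5 t_A6 t_A7 t_A8 (t_V t_A7) t_G1 t_G2 t_P2 t_PG t_Q1 t_Q2 t_E1 t_E2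
    t_P1 t_P5 t_PC

end Pool.Agent.NH36.Cz
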