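import Pool.Agent.NH36.Cz.StmL
import Pool.Agent.Q193.Zeta.Final
import Pool.Agent.Q282.UZ.Sys

/-!
# Project CZ: statements of the pieces about schemes
-/

set_option autoImplicit false

open CategoryTheory AlgebraicGeometry MvPolynomial Pool.Agent.Y116.UV Pool.Agent.Q193.Zeta
  Pool.Agent.Q282.UZ

namespace Pool.Agent.NH36.Cz

/-- The scheme `T(v, w') = T(v', w)`. -/
noncomputable def comS {α β γ : Type} [Fintype α] [Fintype β] (T : α → β → γ → ℤ) : Sch ℤ :=
  aff ℤ (MvPolynomial ((α ⊕ α) ⊕ (β ⊕ β)) ℤ ⧸ Ideal.span (Set.range fun k : γ =>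
    ∑ i, ∑ j, (C (T i j k) * X (Sum.inl (Sum.inl i)) * X (Sum.inr (Sum.inr j)) -
      C (T i j k) * X (Sum.inl (Sum.inr i)) * X (Sum.inr (Sum.inl j)))))

/-- The function `f` counts the points of `X` over finite fields. -/
def Counts (X : Sch ℤ) (f : ℕ → ℂ) : Prop :=
  ∀ (K : Type) [Field K] [Finite K], f (Nat.card K) = (Nat.card (Pt X.left K) : ℂ)

/-- **A4.** Zeta functions of schemes. -/
def St_A4 : Prop := ∀ (X : Sch ℤ) (f : ℕ → ℂ), FT False X → Counts X f → Bd f ∧ (Co X ↔ HC f)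

/-- **A6.** Existence of counting functions. -/
def St_A6 : Prop := ∀ X : Sch ℤ, FT False X → ∃ f : ℕ → ℂ, Counts X f

/-- **P1.** Points of the bilinear systems. -/
def St_P1 : Prop := ∀ (a b c : ℕ) (E : Fin c → Finset (Fin a × Fin b)) (K : Type) [Field K] [Finite K],
  Nat.card (Pt (sysS ℤ E).left K) = solN E K

/-- **P2.** Points of the commuting schemes. -/
def St_P2 : Prop := ∀ (α β γ : Type) [Fintype α] [Fintype β] [Fintype γ] (T : α → β → γ → ℤ)
  (K : Type) [Field K] [Finite K], Nat.card (Pt (comS T).left K) = comN T K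

end Pool.Agent.NH36.Cz
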