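import Pool.Agent.NH36.Cz.Defs
import Pool.Agent.Q193.Zeta.Mero

/-!
# Project CZ: statements of the light pieces
-/

set_option autoImplicit false

open Pool.Agent.Q193.Zeta

namespace Pool.Agent.NH36.Cz

/-- The number of the quadruples with `T(v, w') = T(v', w)`. -/
noncomputable def comN {α β γ : Type} [Fintype α] [Fintype β] (T : α → β → γ → ℤ) (K : Type)
    [CommRing K] : ℕ :=
  Nat.card {x : ((α → K) × (α → K)) × ((β → K) × (β → K)) //
    ∀ k, bf T x.1.1 x.2.2 k = bf T x.1.2 x.2.1 k}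

/-- The number of the triples `(l, v, v')` such that `v` and `v'` are in the kernel of `l ∘ T`. -/
noncomputable def sqN {α β γ : Type} [Fintype α] [Fintype γ] (T : α → β → γ → ℤ) (K : Type)
    [CommRing K] : ℕ :=
  Nat.card {x : (γ → K) × ((α → K) × (α → K)) //
    ∀ j, ∑ i, ∑ k, (T i j k : K) * x.1 k * x.2.1 i = 0 ∧
      ∑ i, ∑ k, (T i j k : K) * x.1 k * x.2.2 i = 0}

/-- The number of the solutions of the bilinear system `E`. -/
noncomputable def solN {a b c : ℕ} (E : Fin c → Finset (Fin a × Fin b)) (K : Type) [CommRing K] : ℕ :=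
  Nat.card {x : (Fin a → K) × (Fin b → K) // ∀ l, ∑ e ∈ E l, x.1 e.1 * x.2 e.2 = 0}

/-- The coefficients of the Dirichlet series of the counting function `f`. -/
noncomputable def coef (f : ℕ → ℂ) (m : ℕ) : ℂ :=
  open Classical in if IsPrimePow m then f m / (m.factorization m.minFac : ℂ) else 0

/-- Polynomial growth. -/
def Bd (f : ℕ → ℂ) : Prop := ∃ C k : ℕ, ∀ m, IsPrimePow m → ‖f m‖ ≤ C * (m : ℝ) ^ k

/-- The exponential of the Dirichlet series has a meromorphic continuation. -/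
def HC (f : ℕ → ℂ) : Prop := HasCont fun s => Complex.exp (LSeries (coef f) s)

/-- **A1.** Differences. -/
def St_A1 : Prop := ∀ f g h : ℕ → ℂ, Bd f → Bd g → (∀ m, IsPrimePow m → h m = f m - g m) →
  HC f → HC g → HC h

/-- **A2.** Shifts. -/
def St_A2 : Prop := ∀ (f g : ℕ → ℂ) (r : ℤ), (∀ m, IsPrimePow m → g m = (m : ℂ) ^ r * f m) →
  HC f → HC g

/-- **A3.** Descent from the product with a punctured affine space of dimension `r ≥ 1`. -/
def St_A3 : Prop := ∀ (f g : ℕ → ℂ) (r : ℕ), 1 ≤ r → Bd f →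
  (∀ m, IsPrimePow m → g m = ((m : ℂ) ^ r - 1) * f m) → HC g → HC f

/-- **A5.** Class numbers. -/
def St_A5 : Prop := ∀ (α β γ : Type) [Fintype α] [Fintype β] [Fintype γ] (T : α → β → γ → ℤ)
  (f : ℕ → ℂ), Bd f →
  (∀ (K : Type) [Field K] [Finite K], f (Nat.card K) = (classNumber T K : ℂ)) →
  (ClassContinues T ↔ HC f)

/-- **G1.** Commuting pairs. -/
def St_G1 : Prop := ∀ (α β γ : Type) [Fintype α] [Fintype β] [Fintype γ] (T : α → β → γ → ℤ)
  (K : Type) [Field K] [Finite K],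
  classNumber T K * Nat.card K ^ (Fintype.card α + Fintype.card β) =
    comN T K * Nat.card K ^ Fintype.card γ

/-- **G2.** Ranks of matrices and transposed matrices. -/
def St_G2 : Prop := ∀ (α β γ : Type) [Fintype α] [Fintype β] [Fintype γ] (T : α → β → γ → ℤ)
  (K : Type) [Field K] [Finite K],
  comN T K * Nat.card K ^ Fintype.card γ = sqN T K * Nat.card K ^ (2 * Fintype.card β)

/-- the first form for the system `E` -/
def T1 {a b c : ℕ} (E : Fin c → Finset (Fin a × Fin b)) :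
    Option (Fin b) → Fin b ⊕ Fin c → Option (Fin a ⊕ Fin b) → ℤ
  | some j', Sum.inl j, none => if j' = j then 1 else 0
  | none, Sum.inl j, some (Sum.inr j') => if j' = j then 1 else 0
  | some j, Sum.inr l, some (Sum.inl i) => if (i, j) ∈ E l then 1 else 0
  | _, _, _ => 0

/-- the second form for the system `E` -/
def T2 {a b c : ℕ} (E : Fin c → Finset (Fin a × Fin b)) :
    Option (Fin b) → Option (Fin b ⊕ Fin c) → Option (Fin a ⊕ Fin b) → ℤ
  | none, none, none => 1
  | _, none, _ => 0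
  | i, some j, k => T1 E i j k

/-- **G3.** The number of the solutions of `E` and the kernels. -/
def St_G3 : Prop := ∀ (a b c : ℕ) (E : Fin c → Finset (Fin a × Fin b)) (K : Type) [Field K] [Finite K],
  (sqN (T1 E) K : ℤ) = sqN (T2 E) K +
    ((Nat.card K : ℤ) - 1) * ((Nat.card K : ℤ) ^ 2 - 1) * solN E K

/-- **G4.** The forms are sparse: for every `j` there are at most three terms. -/
def St_G4 : Prop := ∀ (a b c : ℕ) (E : Fin c → Finset (Fin a × Fin b)), (∀ l, (E l).card ≤ 3) →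
  (∀ i j k, T1 E i j k = 0 ∨ T1 E i j k = 1) ∧ (∀ i j k, T2 E i j k = 0 ∨ T2 E i j k = 1) ∧
  (∀ j, Set.ncard {x : Option (Fin b) × Option (Fin a ⊕ Fin b) | T1 E x.1 j x.2 ≠ 0} ≤ 3) ∧
  ∀ j, Set.ncard {x : Option (Fin b) × Option (Fin a ⊕ Fin b) | T2 E x.1 j x.2 ≠ 0} ≤ 3

/-- **P3.** Invariance under renaming. -/
def St_P3 : Prop := ∀ (α β γ : Type) [Fintype α] [Fintype β] [Fintype γ] (a b c : ℕ)
  (e₁ : Fin a ≃ α) (e₂ : Fin b ≃ β) (e₃ : Fin c ≃ γ) (T : α → β → γ → ℤ) (K : Type) [CommRing K],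
  classNumber (fun i j k => T (e₁ i) (e₂ j) (e₃ k)) K = classNumber T K

end Pool.Agent.NH36.Cz
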